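import Mathlib
import Pool.Agent.Shared.Kuhn.Sperner

/-!
Schauder fixed point theorem and a version for families of functions on `[-1,1]`.
-/

set_option autoImplicit false

namespace Pool.Agent.Lib.MP_9cddd8_gt

open Set Filter Topology BoundedContinuousFunction

theorem schauder {E : Type*} [NormedAddCommGroup E] [NormedSpace ℝ E] {K : Set E}
    (hK : IsCompact K) (hc : Convex ℝ K) (hne : K.Nonempty) {G : E → E}
    (hG : ContinuousOn G K) (hm : MapsTo G K K) : ∃ x ∈ K, G x = x := by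
  classical
  have approx : ∀ δ : ℝ, 0 < δ → ∃ x ∈ K, ‖G x - x‖ ≤ δ := by
    intro δ hδ
    obtain ⟨t, htK, htf, hcov⟩ := finite_cover_balls_of_compact hK hδ
    have : Fintype t := htf.fintype
    have hcov' : ∀ x ∈ K, ∃ i : t, dist x i < δ := by
      intro x hx
      obtain ⟨y, hy, hxy⟩ := mem_iUnion₂.1 (hcov hx)
      exact ⟨⟨y, hy⟩, hxy⟩
    have : Nonempty t := by
      obtain ⟨x, hx⟩ := hne
      obtain ⟨i, -⟩ := hcov' x hx
      exact ⟨i⟩
    set lam : t → E → ℝ := fun i x => max 0 (δ - dist x i) with hlam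
    have hl0 : ∀ i x, 0 ≤ lam i x := fun i x => le_max_left _ _
    have hlc : ∀ i, Continuous (lam i) := fun i => by simp only [hlam]; fun_prop
    have hS : ∀ x ∈ K, 0 < ∑ i, lam i x := by
      intro x hx
      obtain ⟨i, hi⟩ := hcov' x hx
      refine Finset.sum_pos' (fun j _ => hl0 j x) ⟨i, Finset.mem_univ _, ?_⟩
      exact lt_max_of_lt_right (by linarith)
    set g : (t → ℝ) → E := fun a => ∑ i, a i • (i : E) with hg
    have hgc : Continuous g := by simp only [hg]; fun_prop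
    have hgK : MapsTo g (stdSimplex ℝ t) K := fun a ha =>
      hc.sum_mem (fun i _ => ha.1 i) ha.2 (fun i _ => htK i.2)
    have hGg : ContinuousOn (fun a => G (g a)) (stdSimplex ℝ t) :=
      hG.comp hgc.continuousOn hgK
    obtain ⟨a, ha, hfa⟩ := Pool.Agent.Shared.Kuhn.brouwer_simplex
      (fun a i => lam i (G (g a)) / ∑ j, lam j (G (g a))) (by
        refine continuousOn_pi.2 fun i => ContinuousOn.div ?_ ?_ ?_
        · exact (hlc i).comp_continuousOn hGg
        · exact continuousOn_finsetSum _ fun j _ => (hlc j).comp_continuousOn hGg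
        · exact fun a ha => (hS _ (hm (hgK ha))).ne') (by
        intro a ha
        have h1 := hS _ (hm (hgK ha))
        refine ⟨fun i => div_nonneg (hl0 _ _) h1.le, ?_⟩
        rw [← Finset.sum_div, div_self h1.ne'])
    refine ⟨g a, hgK ha, ?_⟩
    have h2 : G (g a) - g a = ∑ i, a i • (G (g a) - (i : E)) := by
      simp only [smul_sub, Finset.sum_sub_distrib, ← Finset.sum_smul, ha.2, one_smul, hg]
    rw [h2]
    calc ‖∑ i, a i • (G (g a) - (i : E))‖ ≤ ∑ i, ‖a i • (G (g a) - (i : E))‖ := norm_sum_le _ _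
      _ ≤ ∑ i, a i * δ := by
        refine Finset.sum_le_sum fun i _ => ?_
        rw [norm_smul, Real.norm_of_nonneg (ha.1 i)]
        by_cases h : dist (G (g a)) i < δ
        · rw [dist_eq_norm] at h
          exact mul_le_mul_of_nonneg_left h.le (ha.1 i)
        · have h3 : a i = 0 := by
            rw [← congrFun hfa i]
            have : lam i (G (g a)) = 0 := max_eq_left (by linarith [not_lt.1 h])
            simp only [this, zero_div]
          simp [h3]
      _ = δ := by rw [← Finset.sum_mul, ha.2, one_mul]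
  obtain ⟨x, hx, hmin⟩ := hK.exists_isMinOn hne
    (f := fun x => ‖G x - x‖) ((hG.sub continuousOn_id).norm)
  refine ⟨x, hx, ?_⟩
  have : ‖G x - x‖ ≤ 0 := by
    refine le_of_forall_pos_le_add fun δ hδ => ?_
    obtain ⟨y, hy, hy2⟩ := approx δ hδ
    have := hmin hy
    simp only [mem_ofPred_eq] at this
    linarith
  exact sub_eq_zero.1 (norm_le_zero_iff.1 this)

/-- the interval `[-1,1]` -/
abbrev II : Set ℝ := Icc (-1 : ℝ) 1

lemma II_le : (-1 : ℝ) ≤ 1 := by norm_num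

theorem fix_fun (S : Set ((ℝ → ℝ) × (ℝ → ℝ))) (hcl : IsClosed S) (hcv : Convex ℝ S)
    (hne : S.Nonempty)
    (hcongr : ∀ a ∈ S, ∀ b : (ℝ → ℝ) × (ℝ → ℝ), EqOn a.1 b.1 II → EqOn a.2 b.2 II → b ∈ S)
    (L : ℝ)
    (hLip : ∀ a ∈ S, ∀ x ∈ II, ∀ z ∈ II,
      |a.1 x - a.1 z| ≤ L * |x - z| ∧ |a.2 x - a.2 z| ≤ L * |x - z|)
    (hb : ∀ a ∈ S, ∀ x ∈ II, |a.1 x| ≤ L ∧ |a.2 x| ≤ L)
    (Rel : (ℝ → ℝ) → (ℝ → ℝ) → Prop)
    (hRc : ∀ P P' P'', EqOn P' P'' II → Rel P P' → Rel P P'')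
    (hex : ∀ a ∈ S, ∃ b ∈ S, Rel a.1 b.1) (C : ℝ)
    (hL : ∀ a ∈ S, ∀ a' ∈ S, ∀ b ∈ S, ∀ b' ∈ S, Rel a.1 b.1 → Rel a'.1 b'.1 → ∀ d : ℝ,
      (∀ x ∈ II, |a.1 x - a'.1 x| ≤ d) → ∀ x ∈ II, |b.1 x - b'.1 x| ≤ C * d) :
    ∃ a ∈ S, Rel a.1 a.1 := by
  classical
  have hL0 : 0 ≤ L := by
    obtain ⟨a, ha⟩ := hne
    exact (abs_nonneg _).trans (hb a ha 0 (by simp)).1
  set pr : ℝ → II := projIcc (-1) 1 II_le with hpr
  have hpr' : ∀ x (hx : x ∈ II), pr x = ⟨x, hx⟩ := fun x hx => projIcc_of_mem _ hx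
  set ex2 : (II →ᵇ ℝ × ℝ) → (ℝ → ℝ) × (ℝ → ℝ) :=
    fun F => (fun x => (F (pr x)).1, fun x => (F (pr x)).2) with hex2
  set ex1 : (II →ᵇ ℝ) → (ℝ → ℝ) := fun F x => F (pr x) with hex1
  have hex2c : Continuous ex2 := by
    simp only [hex2]
    refine Continuous.prodMk (continuous_pi fun x => ?_) (continuous_pi fun x => ?_)
    · exact continuous_fst.comp (continuous_eval_const (x := pr x))
    · exact continuous_snd.comp (continuous_eval_const (x := pr x))
  set A : Set (II →ᵇ ℝ × ℝ) := ex2 ⁻¹' S with hA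
  have hAlip : ∀ F ∈ A, LipschitzWith (Real.toNNReal L) F := by
    intro F hF
    refine LipschitzWith.of_dist_le_mul fun x z => ?_
    have := hLip _ hF x x.2 z z.2
    simp only [hex2, hpr' x x.2, hpr' z z.2] at this
    rw [Real.coe_toNNReal _ hL0, Prod.dist_eq, Subtype.dist_eq, Real.dist_eq, Real.dist_eq,
      Real.dist_eq]
    exact max_le this.1 this.2
  have hAc : IsCompact A := by
    refine arzela_ascoli₂ (Icc (-L) L ×ˢ Icc (-L) L) (isCompact_Icc.prod isCompact_Icc) A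
      (hcl.preimage hex2c) ?_ ?_
    · intro F x hF
      have := hb _ hF x x.2
      simp only [hex2, hpr' x x.2] at this
      exact ⟨abs_le.1 this.1, abs_le.1 this.2⟩
    · exact (LipschitzWith.uniformEquicontinuous (fun F : A => (F : II → ℝ × ℝ)) _
        fun F => hAlip F F.2).equicontinuous
  set fs : (II →ᵇ ℝ × ℝ) →L[ℝ] (II →ᵇ ℝ) :=
    (ContinuousLinearMap.fst ℝ ℝ ℝ).compLeftContinuousBounded II with hfs
  have hfs' : ∀ F x, fs F x = (F x).1 := fun F x => rfl
  set K : Set (II →ᵇ ℝ) := fs '' A with hK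
  have hKc : IsCompact K := hAc.image fs.continuous
  have hAcv : Convex ℝ A := by
    intro F hF G hG a b ha hb hab
    have := hcv hF hG ha hb hab
    show ex2 _ ∈ S
    convert this using 1
    ext x <;> simp [hex2]
  have hKcv : Convex ℝ K := hAcv.linear_image fs.toLinearMap
  have hmk : ∀ a ∈ S, ∃ F ∈ A, EqOn a.1 (ex2 F).1 II := by
    intro a ha
    have hc : Continuous (fun x : II => (a.1 x, a.2 x)) := by
      refine (LipschitzWith.of_dist_le_mul (K := Real.toNNReal L) fun x z => ?_).continuous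
      have := hLip _ ha x x.2 z z.2
      rw [Real.coe_toNNReal _ hL0, Prod.dist_eq, Subtype.dist_eq, Real.dist_eq, Real.dist_eq,
        Real.dist_eq]
      exact max_le this.1 this.2
    refine ⟨mkOfCompact ⟨_, hc⟩, hcongr a ha _ ?_ ?_, ?_⟩
    all_goals
      intro x hx
      simp only [hex2, hpr' x hx]
      rfl
  have hKS : ∀ F ∈ K, ∃ a ∈ S, a.1 = ex1 F := by
    rintro F ⟨G, hG, rfl⟩
    exact ⟨ex2 G, hG, rfl⟩
  have hex' : ∀ F : II →ᵇ ℝ, ∃ G : II →ᵇ ℝ, F ∈ K → G ∈ K ∧ Rel (ex1 F) (ex1 G) := by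
    intro F
    by_cases hF : F ∈ K
    · obtain ⟨a, ha, hae⟩ := hKS F hF
      obtain ⟨b, hb, hab⟩ := hex a ha
      obtain ⟨G, hG, hGe⟩ := hmk b hb
      refine ⟨fs G, fun _ => ⟨mem_image_of_mem _ hG, ?_⟩⟩
      rw [← hae]
      exact hRc _ _ _ hGe hab
    · exact ⟨F, fun h => absurd h hF⟩
  choose G hG using hex'
  have hKne : K.Nonempty := by
    obtain ⟨a, ha⟩ := hne
    obtain ⟨F, hF, -⟩ := hmk a ha
    exact ⟨fs F, mem_image_of_mem _ hF⟩
  have hGc : ContinuousOn G K := by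
    refine (LipschitzOnWith.of_dist_le_mul (K := Real.toNNReal C) fun F hF F' hF' => ?_).continuousOn
    obtain ⟨a, ha, hae⟩ := hKS F hF
    obtain ⟨a', ha', hae'⟩ := hKS F' hF'
    obtain ⟨b, hb, hbe⟩ := hKS _ (hG F hF).1
    obtain ⟨b', hb', hbe'⟩ := hKS _ (hG F' hF').1
    have h1 := hL a ha a' ha' b hb b' hb' (by rw [hae, hbe]; exact (hG F hF).2)
      (by rw [hae', hbe']; exact (hG F' hF').2) (dist F F') (by
        intro x _
        rw [hae, hae', ← Real.dist_eq]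
        exact dist_coe_le_dist _)
    refine (dist_le (by positivity)).2 fun x => ?_
    have h2 := h1 x x.2
    rw [hbe, hbe'] at h2
    simp only [hex1, hpr' x x.2] at h2
    rw [Real.dist_eq]
    exact h2.trans (mul_le_mul_of_nonneg_right (Real.le_coe_toNNReal C) dist_nonneg)
  obtain ⟨F, hF, hfix⟩ := schauder hKc hKcv hKne hGc (fun F hF => (hG F hF).1)
  obtain ⟨a, ha, hae⟩ := hKS F hF
  refine ⟨a, ha, ?_⟩
  have := (hG F hF).2
  rw [hfix] at this
  rw [hae]
  exact this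

end Pool.Agent.Lib.MP_9cddd8_gt
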