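import Mathlib
import Pool.Agent.Lib.MP_9cddd8_gt.Schauder

/-!
Calculus lemmas on `[-1,1]`: local Lipschitz bounds, fencing, maximum principle, tube lemma,
consistency of a small step with a first order operator.
-/

set_option autoImplicit false

namespace Pool.Agent.Lib.MP_9cddd8_gt

open Set Filter Topology Asymptotics

/-- local Lipschitz bound `N` of `g` at `x` within `[-1,1]` -/
def DL (g : ℝ → ℝ) (x N : ℝ) : Prop :=
  ∀ r, N < r → ∀ᶠ z in 𝓝[II] x, |g z - g x| ≤ r * |z - x|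

lemma DL.mono {g : ℝ → ℝ} {x N N' : ℝ} (h : DL g x N) (hN : N ≤ N') : DL g x N' :=
  fun r hr => h r (hN.trans_lt hr)

lemma DL.congr {g g' : ℝ → ℝ} {x N : ℝ} (h : DL g x N) (hx : x ∈ II) (he : EqOn g g' II) :
    DL g' x N := by
  intro r hr
  filter_upwards [h r hr, self_mem_nhdsWithin] with z hz hzI
  rwa [← he hzI, ← he hx]

lemma DL.of_littleO {g : ℝ → ℝ} {x : ℝ}
    (h : (fun z => g z - g x) =o[𝓝[II] x] fun z => z - x) : DL g x 0 := by
  intro r hr
  filter_upwards [h.bound hr] with z hz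
  simpa using hz

lemma DL.add {g g' : ℝ → ℝ} {x N N' : ℝ} (h : DL g x N) (h' : DL g' x N') :
    DL (fun z => g z + g' z) x (N + N') := by
  intro r hr
  filter_upwards [h (N + (r - N - N') / 2) (by linarith),
    h' (N' + (r - N - N') / 2) (by linarith)] with z h1 h2
  calc |g z + g' z - (g x + g' x)| = |(g z - g x) + (g' z - g' x)| := by ring_nf
    _ ≤ _ := abs_add_le _ _
    _ ≤ _ := add_le_add h1 h2
    _ = r * |z - x| := by ring

lemma DL.const_mul {g : ℝ → ℝ} {x N : ℝ} (h : DL g x N) (a : ℝ) :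
    DL (fun z => a * g z) x (|a| * N) := by
  intro r hr
  have ha := abs_nonneg a
  have h1 : 0 < (r - |a| * N) / (|a| + 1) := div_pos (by linarith) (by linarith)
  filter_upwards [h (N + (r - |a| * N) / (|a| + 1)) (by linarith)] with z hz
  rw [← mul_sub, abs_mul]
  have h2 : |a| * (N + (r - |a| * N) / (|a| + 1)) ≤ r := by
    have : |a| * ((r - |a| * N) / (|a| + 1)) ≤ r - |a| * N := by
      rw [← mul_div_assoc, div_le_iff₀ (by linarith)]
      nlinarith
    linarith
  calc |a| * |g z - g x| ≤ |a| * ((N + (r - |a| * N) / (|a| + 1)) * |z - x|) :=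
        mul_le_mul_of_nonneg_left hz ha
    _ ≤ r * |z - x| := by
      rw [← mul_assoc]; exact mul_le_mul_of_nonneg_right h2 (abs_nonneg _)

lemma DL.of_deriv {g : ℝ → ℝ} {x g' : ℝ} (h : HasDerivWithinAt g g' II x) : DL g x |g'| := by
  have h1 : DL (fun z => g z - (z - x) * g') x 0 := by
    apply DL.of_littleO
    have := hasDerivWithinAt_iff_isLittleO.1 h
    refine this.congr_left fun z => ?_
    simp only [smul_eq_mul]; ring
  have h2 : DL (fun z => (z - x) * g') x |g'| := by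
    intro r hr
    refine Eventually.of_forall fun z => ?_
    simp only [sub_self, zero_mul, sub_zero, abs_mul]
    rw [mul_comm]
    exact mul_le_mul_of_nonneg_right hr.le (abs_nonneg _)
  have := h1.add h2
  simpa using this

lemma DL.isBigO {g : ℝ → ℝ} {x N : ℝ} (h : DL g x N) :
    (fun z => g z - g x) =O[𝓝[II] x] fun z => z - x :=
  IsBigO.of_bound (N + 1) (by simpa using h (N + 1) (by linarith))

lemma DL.mul_deriv {g b : ℝ → ℝ} {x N b' : ℝ} (hb : HasDerivWithinAt b b' II x) (h : DL g x N) :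
    DL (fun z => b z * g z) x (|b x| * N + |g x| * |b'|) := by
  have h3 : DL (fun z => (b z - b x) * (g z - g x)) x 0 := by
    apply DL.of_littleO
    have h4 : (fun z => b z - b x) =o[𝓝[II] x] fun _ => (1 : ℝ) := by
      rw [isLittleO_one_iff]
      have := hb.continuousWithinAt.tendsto.sub_const (b x)
      simpa using this
    have := h4.mul_isBigO h.isBigO
    simpa using this
  have := ((h.const_mul (b x)).add ((DL.of_deriv hb).const_mul (g x))).add h3
  rw [add_zero] at this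
  intro r hr
  filter_upwards [this r hr] with z hz
  convert hz using 2
  ring

lemma DL.of_le {g G : ℝ → ℝ} {x G' : ℝ} (h : ∀ z ∈ II, |g z - g x| ≤ |G z - G x|)
    (hG : HasDerivWithinAt G G' II x) : DL g x |G'| := by
  intro r hr
  filter_upwards [DL.of_deriv hG r hr, self_mem_nhdsWithin] with z h1 h2
  exact (h z h2).trans h1

lemma DL.continuousWithinAt {g : ℝ → ℝ} {x N : ℝ} (h : DL g x N) : ContinuousWithinAt g II x := by
  have h1 : Tendsto (fun z => z - x) (𝓝[II] x) (𝓝 0) := by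
    have : Tendsto (fun z => z - x) (𝓝 x) (𝓝 (x - x)) := (continuous_id.sub continuous_const).tendsto x
    rw [sub_self] at this
    exact this.mono_left nhdsWithin_le_nhds
  have := (h.isBigO.trans_tendsto h1).add_const (g x)
  simp only [sub_add_cancel, zero_add] at this
  exact this

/-- remainder of a differentiable function along a locally Lipschitz curve -/
lemma DL.comp_rem {E : Type*} [NormedAddCommGroup E] [NormedSpace ℝ E] {G : E → ℝ}
    {G' : E →L[ℝ] ℝ} {a : ℝ → E} {x : ℝ} (hG : HasFDerivAt G G' (a x))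
    (ha : (fun z => a z - a x) =O[𝓝[II] x] fun z => z - x) :
    DL (fun z => G (a z) - G' (a z)) x 0 := by
  apply DL.of_littleO
  have h1 : Tendsto (fun z => z - x) (𝓝[II] x) (𝓝 0) := by
    have : Tendsto (fun z => z - x) (𝓝 x) (𝓝 (x - x)) := (continuous_id.sub continuous_const).tendsto x
    rw [sub_self] at this
    exact this.mono_left nhdsWithin_le_nhds
  have h2 : Tendsto a (𝓝[II] x) (𝓝 (a x)) := by
    simpa using (ha.trans_tendsto h1).add_const (a x)
  have := ((hasFDerivAt_iff_isLittleO.1 hG).comp_tendsto h2).trans_isBigO ha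
  refine this.congr_left fun z => ?_
  simp only [Function.comp, map_sub]; ring

lemma fence_aux {g B B' : ℝ → ℝ} (hg : ∀ x ∈ II, DL g x (B' x))
    (hB : ∀ x ∈ II, HasDerivWithinAt B (B' x) II x) {x z : ℝ} (hx : x ∈ II) (hz : z ∈ II)
    (hxz : x ≤ z) : g z - g x ≤ B z - B x := by
  have hsub : Icc x z ⊆ II := Icc_subset_Icc hx.1 hz.2
  have hn : ∀ y ∈ Ico x z, II ∈ 𝓝[≥] y := fun y hy =>
    mem_of_superset (Icc_mem_nhdsGE (hy.2.trans_le hz.2)) (Icc_subset_Icc_left (hx.1.trans hy.1))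
  have := image_le_of_liminf_slope_right_le_deriv_boundary (f := g) (a := x) (b := z)
    (fun y hy => ((hg y (hsub hy)).continuousWithinAt).mono hsub)
    (B := fun y => B y - B x + g x) (B' := B') (by simp)
    (fun y hy => (((hB y (hsub hy)).continuousWithinAt.mono hsub).sub continuousWithinAt_const).add
      continuousWithinAt_const)
    (fun y hy => (((hB y (hsub (Ico_subset_Icc_self hy))).mono_of_mem_nhdsWithin
      (hn y hy)).sub_const _).add_const _)
    (by
      intro y hy r hr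
      have h1 := hg y (hsub (Ico_subset_Icc_self hy)) ((B' y + r) / 2) (by linarith)
      have h2 : 𝓝[>] y ≤ 𝓝[II] y :=
        (nhdsWithin_mono y Ioi_subset_Ici_self).trans (nhdsWithin_le_of_mem (hn y hy))
      refine Eventually.frequently ?_
      filter_upwards [h2 h1, self_mem_nhdsWithin] with w hw hwy
      have h3 : 0 < w - y := sub_pos.2 hwy
      rw [slope_def_field, div_lt_iff₀ h3]
      rw [abs_of_pos h3] at hw
      have := (le_abs_self _).trans hw
      nlinarith) (right_mem_Icc.2 hxz)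
  linarith

lemma fence {g B B' : ℝ → ℝ} (hg : ∀ x ∈ II, DL g x (B' x))
    (hB : ∀ x ∈ II, HasDerivWithinAt B (B' x) II x) {x z : ℝ} (hx : x ∈ II) (hz : z ∈ II)
    (hxz : x ≤ z) : |g z - g x| ≤ B z - B x := by
  have h1 := fence_aux hg hB hx hz hxz
  have h2 := fence_aux (g := fun y => - g y) (fun y hy r hr => by
    filter_upwards [hg y hy r hr] with w hw
    rwa [neg_sub_neg, abs_sub_comm]) hB hx hz hxz
  rw [abs_le]
  constructor <;> linarith

/-- maximum principle -/
lemma maxp {J : Set ℝ} (hJ : IsCompact J) {W om : ℝ → ℝ} (hW : ContinuousOn W J)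
    (ho : ContinuousOn om J) (hop : ∀ x ∈ J, 0 < om x) {S : ℝ}
    (h : ∀ y ∈ J, |W y| ≤ S * om y ∨ ∃ x ∈ J, ∃ al be g : ℝ, 0 ≤ be ∧ 0 < g ∧
      al * |W y| ≤ be * |W x| + S * g ∧ be * om x + g ≤ al * om y) :
    ∀ y ∈ J, |W y| ≤ S * om y := by
  intro y0 hy0
  obtain ⟨y, hy, hmax⟩ := hJ.exists_isMaxOn ⟨y0, hy0⟩ (f := fun x => |W x| / om x)
    (hW.abs.div ho fun x hx => (hop x hx).ne')
  set T := |W y| / om y with hT
  have hle : ∀ x ∈ J, |W x| ≤ T * om x := fun x hx => (div_le_iff₀ (hop x hx)).1 (hmax hx)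
  have hy' : |W y| = T * om y := by rw [hT, div_mul_cancel₀ _ (hop y hy).ne']
  have hT0 : 0 ≤ T := div_nonneg (abs_nonneg _) (hop y hy).le
  have : T ≤ S := by
    rcases h y hy with h1 | ⟨x, hx, al, be, g, hbe, hg, h1, h2⟩
    · rw [hy'] at h1
      exact le_of_mul_le_mul_right h1 (hop y hy)
    · have h3 := mul_le_mul_of_nonneg_left (hle x hx) hbe
      have h4 := mul_le_mul_of_nonneg_left h2 hT0
      rw [hy'] at h1
      have : T * g ≤ S * g := by nlinarith
      exact le_of_mul_le_mul_right this hg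
  exact (hle y0 hy0).trans (mul_le_mul_of_nonneg_right this (hop y0 hy0).le)

lemma tube_ev {Y : Type*} [TopologicalSpace Y] {y0 : Y} {P : Y × ℝ → Prop}
    (h : ∀ x ∈ II, ∀ᶠ p in 𝓝 (y0, x), P p) : ∀ᶠ y in 𝓝 y0, ∀ x ∈ II, P (y, x) :=
  isCompact_Icc.eventually_forall_of_forall_eventually (P := fun y x => P (y, x)) h

lemma tube {Y : Type*} [TopologicalSpace Y] {y0 : Y} {G : Y × ℝ → ℝ}
    (hG : ∀ x ∈ II, ContinuousAt G (y0, x)) {η : ℝ} (hη : 0 < η) :
    ∀ᶠ y in 𝓝 y0, ∀ x ∈ II, |G (y, x) - G (y0, x)| ≤ η := by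
  refine tube_ev (P := fun p => |G p - G (y0, p.2)| ≤ η) fun x hx => ?_
  have h1 : ContinuousAt (fun p : Y × ℝ => G (y0, p.2)) (y0, x) :=
    ContinuousAt.comp (g := G) (f := fun p : Y × ℝ => (y0, p.2)) (hG x hx) (by fun_prop)
  have h2 : ContinuousAt (fun p : Y × ℝ => |G p - G (y0, p.2)|) (y0, x) := ((hG x hx).sub h1).abs
  have := h2.eventually_lt_const (show |G (y0, x) - G (y0, ((y0, x) : Y × ℝ).2)| < η by simpa)
  exact this.mono fun p hp => hp.le

lemma unif {g : ℝ → ℝ} (hg : ContinuousOn g II) {η : ℝ} (hη : 0 < η) :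
    ∃ δ > 0, ∀ x ∈ II, ∀ z ∈ II, |x - z| ≤ δ → |g x - g z| ≤ η := by
  obtain ⟨δ, hδ, h⟩ := Metric.uniformContinuousOn_iff_le.1
    (isCompact_Icc.uniformContinuousOn_of_continuous hg) η hη
  exact ⟨δ, hδ, fun x hx z hz hxz => h x hx z hz hxz⟩

lemma bdd {g : ℝ → ℝ} (hg : ContinuousOn g II) : ∀ᶠ C in atTop, ∀ x ∈ II, |g x| ≤ C := by
  obtain ⟨C, hC⟩ := isCompact_Icc.exists_bound_of_continuousOn hg
  filter_upwards [eventually_ge_atTop C] with D hD x hx
  exact (hC x hx).trans hD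

lemma lowb {g : ℝ → ℝ} (hg : ContinuousOn g II) (hp : ∀ x ∈ II, 0 < g x) :
    ∀ᶠ m in 𝓝[>] (0 : ℝ), ∀ x ∈ II, m ≤ g x := by
  obtain ⟨y, hy, hmin⟩ := isCompact_Icc.exists_isMinOn (⟨0, by simp⟩ : II.Nonempty) hg
  filter_upwards [Ioo_mem_nhdsGT (hp y hy)] with m hm x hx
  exact hm.2.le.trans (hmin hx)

lemma small_ev (a : ℝ) {b : ℝ} (hb : 0 < b) : ∀ᶠ t in 𝓝[>] (0 : ℝ), t * a ≤ b := by
  have : ContinuousAt (fun t : ℝ => t * a) 0 := by fun_prop
  have := this.eventually_lt_const (show (0 : ℝ) * a < b by simpa)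
  exact (this.mono fun t ht => ht.le).filter_mono nhdsWithin_le_nhds

/-- mean value inequality with a frozen slope -/
lemma mvt_frozen {f f' : ℝ → ℝ} (hf : ∀ x ∈ II, HasDerivWithinAt f (f' x) II x) {x z a C : ℝ}
    (hx : x ∈ II) (hz : z ∈ II) (hb : ∀ y ∈ II, |y - x| ≤ |z - x| → |f' y - a| ≤ C) :
    |f z - f x - a * (z - x)| ≤ C * |z - x| := by
  have hsub : uIcc x z ⊆ II := uIcc_subset_Icc hx hz
  have := Convex.norm_image_sub_le_of_norm_hasDerivWithin_le (f := fun y => f y - a * y)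
    (f' := fun y => f' y - a) (s := uIcc x z) (C := C) (x := x) (y := z)
    (fun y hy => (((hf y (hsub hy)).mono hsub).fun_sub
      ((hasDerivWithinAt_id y _).const_mul a)).congr_deriv (by ring))
    (fun y hy => hb y (hsub hy) (abs_sub_left_of_mem_uIcc hy)) (convex_uIcc x z)
    left_mem_uIcc right_mem_uIcc
  simp only [Real.norm_eq_abs] at this
  convert this using 2
  ring

/-- consistency of a small step with the operator `V f' + j V1 f + c f` -/
lemma consistency {V V1 c f f' : ℝ → ℝ} (j : ℝ) (hV : ContinuousOn V II)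
    (hV1 : ContinuousOn V1 II) (hf : ∀ x ∈ II, HasDerivWithinAt f (f' x) II x)
    (hf' : ContinuousOn f' II) {η : ℝ} (hη : 0 < η) :
    ∀ᶠ ζ in 𝓝[>] (0 : ℝ), ∀ ε ∈ Ioc 0 ζ, ∀ x ∈ II, ∀ hh : ℝ, x + ε * hh ∈ II → |hh - V x| ≤ ζ →
      |(1 + ε * c (x + ε * hh)) * f (x + ε * hh) - (1 - ε * j * V1 x) * f x
        - ε * (V (x + ε * hh) * f' (x + ε * hh) + j * V1 (x + ε * hh) * f (x + ε * hh)
          + c (x + ε * hh) * f (x + ε * hh))| ≤ ε * η := by
  have hfc : ContinuousOn f II := fun x hx => (hf x hx).continuousWithinAt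
  obtain ⟨C, ⟨hC1, hC2⟩, hC0⟩ := (((bdd hV).and (bdd hf')).and (eventually_ge_atTop 0)).exists
  obtain ⟨δ1, hδ1, h1⟩ := unif hf' (show 0 < η / 4 / (C + 1) by positivity)
  obtain ⟨δ2, hδ2, h2⟩ := unif (hV.mul hf') (show 0 < η / 4 by positivity)
  obtain ⟨δ3, hδ3, h3⟩ := unif (g := fun x => j * V1 x * f x)
    ((continuousOn_const.mul hV1).mul hfc) (show 0 < η / 4 by positivity)
  filter_upwards [small_ev (C + 1) hδ1, small_ev (C + 1) hδ2, small_ev (C + 1) hδ3,
    small_ev C (show 0 < η / 4 by positivity), small_ev 1 one_pos] with ζ k1 k2 k3 k4 k5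
    ε hε x hx hh hy hhh
  have hhb : |hh| ≤ C + 1 := by
    have := abs_sub_abs_le_abs_sub hh (V x)
    have := hC1 x hx
    linarith
  have hd : |x + ε * hh - x| ≤ ζ * (C + 1) := by
    rw [add_sub_cancel_left, abs_mul, abs_of_pos hε.1]
    exact mul_le_mul hε.2 hhb (abs_nonneg _) (hε.1.le.trans hε.2)
  set y := x + ε * hh with hyd
  have e1 := mvt_frozen hf hx hy (a := f' x) (C := η / 4 / (C + 1))
    fun w hw hwx => h1 w hw x hx (hwx.trans (hd.trans k1))
  have e2 := h2 y hy x hx (hd.trans k2)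
  have e3 := h3 y hy x hx (hd.trans k3)
  have e4 : |(hh - V x) * f' x| ≤ η / 4 := by
    rw [abs_mul]
    exact (mul_le_mul hhh (hC2 x hx) (abs_nonneg _) (hε.1.le.trans hε.2)).trans k4
  have e5 : η / 4 / (C + 1) * |y - x| ≤ ε * (η / 4) := by
    rw [hyd, add_sub_cancel_left, abs_mul, abs_of_pos hε.1]
    have : η / 4 / (C + 1) * |hh| ≤ η / 4 := by
      rw [div_mul_eq_mul_div, div_le_iff₀ (by positivity)]
      exact mul_le_mul_of_nonneg_left hhb (by positivity)
    nlinarith [hε.1]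
  have e6 : (1 + ε * c y) * f y - (1 - ε * j * V1 x) * f x
      - ε * (V y * f' y + j * V1 y * f y + c y * f y) = (f y - f x - f' x * (y - x))
      + ε * ((hh - V x) * f' x - (V y * f' y - V x * f' x)
        - (j * V1 y * f y - j * V1 x * f x)) := by
    have : y - x = ε * hh := by rw [hyd]; ring
    rw [this]; ring
  rw [e6]
  simp only [Pi.mul_apply] at e2
  have e7 : |(hh - V x) * f' x - (V y * f' y - V x * f' x) - (j * V1 y * f y - j * V1 x * f x)|
      ≤ 3 * (η / 4) := by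
    rw [abs_le] at e2 e3 e4 ⊢
    constructor <;> linarith
  calc _ ≤ _ := abs_add_le _ _
    _ ≤ ε * (η / 4) + ε * (3 * (η / 4)) := by
      refine add_le_add (e1.trans e5) ?_
      rw [abs_mul, abs_of_pos hε.1]
      exact mul_le_mul_of_nonneg_left e7 hε.1.le
    _ = ε * η := by ring

lemma deriv_of_taylor {P s : ℝ → ℝ} {C x : ℝ}
    (h : ∀ z ∈ II, |P z - P x - s x * (z - x)| ≤ C * (z - x) ^ 2) :
    HasDerivWithinAt P (s x) II x := by
  rw [hasDerivWithinAt_iff_isLittleO]
  have h1 : (fun z => P z - P x - (z - x) • s x) =O[𝓝[II] x] fun z => (z - x) ^ 2 := by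
    refine IsBigO.of_bound C ?_
    filter_upwards [self_mem_nhdsWithin] with z hz
    have := h z hz
    simp only [smul_eq_mul, Real.norm_eq_abs, abs_pow, sq_abs]
    rwa [mul_comm (z - x)]
  refine h1.trans_isLittleO ?_
  have := isLittleO_pow_sub_sub x (show 1 < 2 by norm_num)
  refine (this.mono nhdsWithin_le_nhds).congr_left fun z => ?_
  simp

lemma taylor_of_deriv {P s : ℝ → ℝ} {C : ℝ} (hC : 0 ≤ C)
    (h : ∀ x ∈ II, HasDerivWithinAt P (s x) II x)
    (hs : ∀ x ∈ II, ∀ z ∈ II, |s z - s x| ≤ C * |z - x|) {x z : ℝ} (hx : x ∈ II) (hz : z ∈ II) :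
    |P z - P x - s x * (z - x)| ≤ C * (z - x) ^ 2 := by
  have := mvt_frozen h hx hz (a := s x) (C := C * |z - x|) fun y hy hyx =>
    (hs x hx y hy).trans (mul_le_mul_of_nonneg_left hyx hC)
  rwa [mul_assoc, abs_mul_abs_self, ← sq] at this

/-- inverse of an increasing self-map of `[-1,1]` -/
lemma exists_inverse {R R' : ℝ → ℝ} (hR : ∀ x ∈ II, HasDerivWithinAt R (R' x) II x)
    (hp : ∀ x ∈ II, 1 / 2 ≤ R' x) (hl : R (-1) = -1) (hr : R 1 = 1) :
    StrictMonoOn R II ∧ MapsTo R II II ∧ ∃ g : ℝ → ℝ, MapsTo g II II ∧ (∀ y ∈ II, R (g y) = y) ∧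
      (∀ x ∈ II, g (R x) = x) ∧ ∀ x ∈ II, HasDerivWithinAt g (R' x)⁻¹ II (R x) := by
  have hc : ContinuousOn R II := fun x hx => (hR x hx).continuousWithinAt
  have hmono : StrictMonoOn R II := strictMonoOn_of_hasDerivWithinAt_pos (convex_Icc _ _) hc
    (fun x hx => (hR x (interior_subset hx)).mono interior_subset)
    (fun x hx => by linarith [hp x (interior_subset hx)])
  have hm2 : MonotoneOn (fun x => R x - 1 / 2 * x) II :=
    monotoneOn_of_hasDerivWithinAt_nonneg (f' := fun x => R' x - 1 / 2) (convex_Icc _ _)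
      (hc.sub (by fun_prop))
      (fun x hx => (((hR x (interior_subset hx)).mono interior_subset).fun_sub
          ((hasDerivWithinAt_id x _).const_mul (1 / 2))).congr_deriv (by ring))
      (fun x hx => by linarith [hp x (interior_subset hx)])
  have hl' : (-1 : ℝ) ∈ II := left_mem_Icc.2 II_le
  have hr' : (1 : ℝ) ∈ II := right_mem_Icc.2 II_le
  have hmaps : MapsTo R II II := fun x hx =>
    ⟨hl ▸ hmono.monotoneOn hl' hx hx.1, hr ▸ hmono.monotoneOn hx hr' hx.2⟩
  have hsurj : SurjOn R II II := by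
    have := hc.surjOn_Icc hl' hr'
    rwa [hl, hr] at this
  set g := Function.invFunOn R II with hg
  have hgm : MapsTo g II II := hsurj.mapsTo_invFunOn
  have hRg : ∀ y ∈ II, R (g y) = y := fun y hy => hsurj.rightInvOn_invFunOn hy
  have hgR : ∀ x ∈ II, g (R x) = x := fun x hx => hmono.injOn.leftInvOn_invFunOn hx
  refine ⟨hmono, hmaps, g, hgm, hRg, hgR, fun x hx => ?_⟩
  have hlip : ∀ y ∈ II, ∀ z ∈ II, |g y - g z| ≤ 2 * |y - z| := by
    intro y hy z hz
    rcases le_total (g y) (g z) with h | h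
    · have := hm2 (hgm hy) (hgm hz) h
      simp only [hRg y hy, hRg z hz] at this
      rw [abs_of_nonpos (by linarith), abs_of_nonpos (by linarith)]
      linarith
    · have := hm2 (hgm hz) (hgm hy) h
      simp only [hRg y hy, hRg z hz] at this
      rw [abs_of_nonneg (by linarith), abs_of_nonneg (by linarith)]
      linarith
  have hgc : ContinuousOn g II :=
    (LipschitzOnWith.of_dist_le_mul (K := 2) fun y hy z hz => by
      simpa [Real.dist_eq] using hlip y hy z hz).continuousOn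
  have ht : Tendsto g (𝓝[II] (R x)) (𝓝[II] (g (R x))) :=
    (hgc _ (hmaps hx)).tendsto_nhdsWithin hgm
  have hne : R' x ≠ 0 := by linarith [hp x hx]
  have h1 : HasDerivWithinAt R (R' x) II (g (R x)) := by rw [hgR x hx]; exact hR x hx
  rw [hasDerivWithinAt_iff_isLittleO] at h1 ⊢
  have h2 := (h1.comp_tendsto ht).const_mul_left (-(R' x)⁻¹)
  have h3 : (fun y => g y - g (R x)) =O[𝓝[II] (R x)] fun y => y - R x := by
    refine IsBigO.of_bound 2 ?_
    filter_upwards [self_mem_nhdsWithin] with y hy using hlip y hy _ (hmaps hx)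
  refine (h2.trans_isBigO h3).congr' ?_ (EventuallyEq.refl _ _)
  filter_upwards [self_mem_nhdsWithin] with y hy
  simp only [Function.comp, hRg y hy, hRg _ (hmaps hx), smul_eq_mul]
  field_simp
  ring

end Pool.Agent.Lib.MP_9cddd8_gt
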