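import Mathlib
import Pool.Agent.Lib.MP_9cddd8_gt.Calc

/-!
One step of the damped graph transform: context, invariance of the set of good curves.
-/

set_option autoImplicit false

namespace Pool.Agent.Lib.MP_9cddd8_gt

open Set Filter Topology Asymptotics

/-- linear form on the plane -/
noncomputable def L2 (a b : ℝ) : ℝ × ℝ →L[ℝ] ℝ :=
  a • ContinuousLinearMap.fst ℝ ℝ ℝ + b • ContinuousLinearMap.snd ℝ ℝ ℝ

@[simp] lemma L2_apply (a b : ℝ) (p : ℝ × ℝ) : L2 a b p = a * p.1 + b * p.2 := by simp [L2]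

/-- linear form on three-space -/
noncomputable def L3 (a b c : ℝ) : ℝ × ℝ × ℝ →L[ℝ] ℝ :=
  a • ContinuousLinearMap.fst ℝ ℝ (ℝ × ℝ) + (L2 b c).comp (ContinuousLinearMap.snd ℝ ℝ (ℝ × ℝ))

@[simp] lemma L3_apply (a b c : ℝ) (p : ℝ × ℝ × ℝ) :
    L3 a b c p = a * p.1 + b * p.2.1 + c * p.2.2 := by simp [L3, add_assoc]

/-- increment of the slope under the step -/
noncomputable def sgf (ε hx hw kx kw s : ℝ) : ℝ :=
  (kx + kw * s - s * (hx + hw * s)) / (1 + ε * (hx + hw * s))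

lemma chain2 {F : ℝ → ℝ → ℝ} {a b x s : ℝ} {P : ℝ → ℝ}
    (hF : HasFDerivAt (fun p : ℝ × ℝ => F p.1 p.2) (L2 a b) (x, P x))
    (hP : HasDerivWithinAt P s II x) :
    HasDerivWithinAt (fun z => F z (P z)) (a + b * s) II x := by
  have := hF.comp_hasDerivWithinAt x ((hasDerivWithinAt_id x II).prodMk hP)
  exact this.congr_deriv (by simp)

lemma seg {F Fx Fw : ℝ → ℝ → ℝ} {r : ℝ}
    (hF : ∀ x ∈ II, ∀ w, |w| ≤ r →
      HasFDerivAt (fun p : ℝ × ℝ => F p.1 p.2) (L2 (Fx x w) (Fw x w)) (x, w))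
    {x1 x2 w1 w2 A B b : ℝ} (hx1 : x1 ∈ II) (hx2 : x2 ∈ II) (hw1 : |w1| ≤ r) (hw2 : |w2| ≤ r)
    (hb : ∀ x ∈ II, |x - x1| ≤ |x2 - x1| → ∀ w, |w| ≤ r → |Fx x w| ≤ A ∧ |Fw x w - b| ≤ B) :
    |F x2 w2 - F x1 w1 - b * (w2 - w1)| ≤ A * |x2 - x1| + B * |w2 - w1| := by
  have hxt : ∀ t ∈ Icc (0 : ℝ) 1, x1 + t * (x2 - x1) ∈ II := fun t ht =>
    ⟨by nlinarith [ht.1, ht.2, hx1.1, hx2.1], by nlinarith [ht.1, ht.2, hx1.2, hx2.2]⟩
  have hwt : ∀ t ∈ Icc (0 : ℝ) 1, |w1 + t * (w2 - w1)| ≤ r := fun t ht => by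
    rw [abs_le] at hw1 hw2 ⊢
    exact ⟨by nlinarith [ht.1, ht.2], by nlinarith [ht.1, ht.2]⟩
  have := Convex.norm_image_sub_le_of_norm_hasDerivWithin_le
    (f := fun t => F (x1 + t * (x2 - x1)) (w1 + t * (w2 - w1)) - b * (t * (w2 - w1)))
    (f' := fun t => Fx (x1 + t * (x2 - x1)) (w1 + t * (w2 - w1)) * (x2 - x1)
      + (Fw (x1 + t * (x2 - x1)) (w1 + t * (w2 - w1)) - b) * (w2 - w1))
    (s := Icc 0 1) (C := A * |x2 - x1| + B * |w2 - w1|) (x := 0) (y := 1)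
    (fun t ht => by
      have h1 : HasDerivAt (fun t : ℝ => (x1 + t * (x2 - x1), w1 + t * (w2 - w1)))
          (1 * (x2 - x1), 1 * (w2 - w1)) t :=
        (((hasDerivAt_id t).mul_const _).const_add _).prodMk
          (((hasDerivAt_id t).mul_const _).const_add _)
      have h2 := (hF _ (hxt t ht) _ (hwt t ht)).comp_hasDerivAt t h1
      have h3 := h2.fun_sub (((hasDerivAt_id t).mul_const (w2 - w1)).const_mul b)
      exact (h3.congr_deriv (by simp; ring)).hasDerivWithinAt)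
    (fun t ht => by
      have h1 := hb _ (hxt t ht) (by
        rw [add_sub_cancel_left, abs_mul, abs_of_nonneg ht.1]
        exact mul_le_of_le_one_left (abs_nonneg _) ht.2) _ (hwt t ht)
      refine (abs_add_le _ _).trans ?_
      rw [abs_mul, abs_mul]
      exact add_le_add (mul_le_mul_of_nonneg_right h1.1 (abs_nonneg _))
        (mul_le_mul_of_nonneg_right h1.2 (abs_nonneg _)))
    (convex_Icc 0 1) (left_mem_Icc.2 zero_le_one) (right_mem_Icc.2 zero_le_one)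
  simp only [one_mul, zero_mul, add_zero, mul_zero, sub_zero, add_sub_cancel, Real.norm_eq_abs,
    abs_one, mul_one] at this
  convert this using 2
  ring

/-- all data and estimates for a fixed small step size -/
structure Ctx where
  (ε η μ Cb m0 m1 m2 K S : ℝ)
  (H Kf Hx Hw Kx Kw : ℝ → ℝ → ℝ)
  (Sx Sw Ss : ℝ → ℝ → ℝ → ℝ)
  (V1 c c1 c2 φ φ1 om M1 M2 MM : ℝ → ℝ)
  dH : ∀ x ∈ II, ∀ w, |w| ≤ m0 * Cb →
    HasFDerivAt (fun p : ℝ × ℝ => H p.1 p.2) (L2 (Hx x w) (Hw x w)) (x, w)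
  dK : ∀ x ∈ II, ∀ w, |w| ≤ m0 * Cb →
    HasFDerivAt (fun p : ℝ × ℝ => Kf p.1 p.2) (L2 (Kx x w) (Kw x w)) (x, w)
  dS : ∀ x ∈ II, ∀ w, |w| ≤ m0 * Cb → ∀ s, |s| ≤ m1 * Cb →
    HasFDerivAt (fun p : ℝ × ℝ × ℝ =>
      sgf ε (Hx p.1 p.2.1) (Hw p.1 p.2.1) (Kx p.1 p.2.1) (Kw p.1 p.2.1) p.2.2)
      (L3 (Sx x w s) (Sw x w s) (Ss x w s)) (x, w, s)
  bHK : ∀ x ∈ II, ∀ w, |w| ≤ m0 * Cb → |H x w| ≤ Cb ∧ |Hx x w - V1 x| ≤ η ∧ |Hw x w| ≤ Cb ∧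
    |Kx x w| ≤ η ∧ |Kw x w + V1 x| ≤ η
  bS : ∀ x ∈ II, ∀ w, |w| ≤ m0 * Cb → ∀ s, |s| ≤ m1 * Cb →
    |Sx x w s| ≤ η * m2 ∧ |Sw x w s| ≤ Cb ∧ |Ss x w s + 2 * V1 x| ≤ η
  bK0 : ∀ x ∈ II, |Kf x 0| ≤ η * m0
  bS0 : ∀ x ∈ II, ∀ w, |w| ≤ m0 * Cb →
    |sgf ε (Hx x w) (Hw x w) (Kx x w) (Kw x w) 0| ≤ η * m1
  tipHl : H (-1) 0 = 0
  tipHr : H 1 0 = 0
  tipKl : Kf (-1) 0 = 0
  tipKr : Kf 1 0 = 0
  H0 : ∀ w, |w| ≤ m0 * Cb → 0 ≤ H 0 w
  uV1 : ∀ x ∈ II, ∀ z ∈ II, |x - z| ≤ 2 * ε * Cb → |V1 x - V1 z| ≤ η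
  dc : ∀ x ∈ II, HasDerivWithinAt c (c1 x) II x
  dc1 : ∀ x ∈ II, HasDerivWithinAt c1 (c2 x) II x
  dφ : ∀ x ∈ II, HasDerivWithinAt φ (φ1 x) II x
  dMM : ∀ x ∈ II, HasDerivWithinAt MM (M2 x) II x
  com : ContinuousOn om II
  bd : ∀ x ∈ II, |V1 x| ≤ Cb ∧ |c x| ≤ Cb ∧ |c1 x| ≤ Cb ∧ |c2 x| ≤ Cb ∧ |φ x| ≤ Cb ∧ |φ1 x| ≤ Cb ∧
    om x ≤ Cb ∧ M1 x ≤ Cb ∧ M2 x ≤ Cb
  lb : ∀ x ∈ II, μ ≤ om x ∧ μ ≤ M1 x ∧ μ ≤ M2 x
  c0 : ∀ x ∈ II, 0 ≤ c x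
  cl : ∀ x ∈ II, x ≤ 0 → c x = 0
  φ0 : φ 0 = 1
  disc : ∀ x ∈ II, ∀ w, |w| ≤ m0 * Cb → ∀ y ∈ II, y = x + ε * H x w →
    (1 - ε * V1 x) * om x + ε * μ ≤ (1 + ε * c y) * om y ∧
    |(1 + ε * c y) * φ y - (1 - ε * V1 x) * φ x - ε * (c (-y) * φ (-y))| ≤ ε * η ∧
    (1 - 2 * ε * V1 x) * M1 x + ε * (c (-y) * M1 (-y)) + ε * μ ≤ (1 + ε * c y) * M1 y ∧
    (1 - 3 * ε * V1 x) * M2 x + ε * (c (-y) * M2 (-y)) + ε * μ ≤ (1 + ε * c y) * M2 y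
  pε : 0 < ε
  pη : 0 < η
  pμ : 0 < μ
  pm0 : 0 < m0
  pm1 : 0 < m1
  pm2 : 0 < m2
  pK : 0 ≤ K
  pS : 0 ≤ S
  pC : 1 ≤ Cb
  n0 : m2 ≤ 1
  n1 : 40 * η * Cb ≤ μ
  n2 : m1 * Cb ^ 2 ≤ η * m2
  n3 : m0 * Cb ^ 2 ≤ η * m1
  n4 : ε * Cb ^ 2 ≤ η
  n5 : 2 * η * m0 * Cb + Cb ^ 2 * (K + S) ≤ m0 * μ
  n6 : 3 * η * m0 * Cb ≤ S * μ
  n7 : ε * Cb * (m1 * Cb + m0 * Cb * Cb) ≤ S * μ
  n8 : (2 * η * m0 * Cb + Cb ^ 2 * S + K * η) * Cb ≤ 2 * K * μ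

lemma neg_mem_II {x : ℝ} (hx : x ∈ II) : -x ∈ II := ⟨by linarith [hx.2], by linarith [hx.1]⟩

lemma deriv_neg_II {f : ℝ → ℝ} {f' x : ℝ} (h : HasDerivWithinAt f f' II (-x)) :
    HasDerivWithinAt (fun z => f (-z)) (-f') II x := by
  have := h.comp x (h := fun z => -z) (hasDerivWithinAt_neg x II) fun z hz => neg_mem_II hz
  exact this.congr_deriv (by ring)

namespace Ctx

variable (C : Ctx)

/-- good curves with their slopes -/
structure Good (P s : ℝ → ℝ) : Prop where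
  tay : ∀ x ∈ II, ∀ z ∈ II, |P z - P x - s x * (z - x)| ≤ C.m2 * C.Cb * (z - x) ^ 2
  lip : ∀ x ∈ II, ∀ z ∈ II, x ≤ z → |s z - s x| ≤ C.m2 * (C.MM z - C.MM x)
  b0 : ∀ x ∈ II, |P x| ≤ C.m0 * C.om x
  b1 : ∀ x ∈ II, |s x| ≤ C.m1 * C.M1 x
  tl : P (-1) = 0
  tr : P 1 = 0

/-- the extra condition on the feedback curve -/
def Extra (Q : ℝ → ℝ) : Prop :=
  |Q 0| ≤ C.K ∧ ∀ x ∈ Icc (0 : ℝ) 1, |Q x - Q 0 * C.φ x| ≤ C.S * C.om x

/-- the base map -/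
def R (P : ℝ → ℝ) (x : ℝ) : ℝ := x + C.ε * C.H x (P x)

/-- the step relation -/
def Step (Q P P' : ℝ → ℝ) : Prop :=
  ∀ x ∈ II, C.R P x ∈ II ∧ P' (C.R P x) * (1 + C.ε * C.c (C.R P x)) =
    P x + C.ε * C.Kf x (P x) - C.ε * (C.c (-C.R P x) * Q (-C.R P x))

variable {C}

lemma η_le : C.η ≤ 1 / 40 := by
  have h1 := (C.lb 0 (by simp)).1
  have h2 := (C.bd 0 (by simp)).2.2.2.2.2.2.1
  have h3 := C.n1
  have h4 := C.pC
  have : 40 * C.η * C.Cb ≤ 1 * C.Cb := by linarith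
  have := le_of_mul_le_mul_right this (by linarith)
  linarith

lemma εC_le : C.ε * C.Cb ≤ C.η := by
  have := C.n4
  have h1 : C.ε * C.Cb * 1 ≤ C.ε * C.Cb * C.Cb :=
    mul_le_mul_of_nonneg_left C.pC (mul_nonneg C.pε.le (by linarith [C.pC]))
  nlinarith

lemma m1C_le : C.m1 * C.Cb * C.Cb ≤ C.η := by
  have := C.n2
  have := mul_le_mul_of_nonneg_left C.n0 C.pη.le
  nlinarith

lemma MM_le {x z : ℝ} (hx : x ∈ II) (hz : z ∈ II) : |C.MM z - C.MM x| ≤ C.Cb * |z - x| := by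
  have := mvt_frozen C.dMM hx hz (a := 0) (C := C.Cb) fun y hy _ => by
    rw [sub_zero, abs_of_pos (C.pμ.trans_le (C.lb y hy).2.2)]
    exact (C.bd y hy).2.2.2.2.2.2.2.2
  simpa using this

namespace Good

variable {P s : ℝ → ℝ} (h : C.Good P s)
include h

lemma deriv {x : ℝ} (hx : x ∈ II) : HasDerivWithinAt P (s x) II x :=
  deriv_of_taylor (h.tay x hx)

lemma cont : ContinuousOn P II := fun _ hx => (h.deriv hx).continuousWithinAt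

lemma box0 {x : ℝ} (hx : x ∈ II) : |P x| ≤ C.m0 * C.Cb :=
  (h.b0 x hx).trans (mul_le_mul_of_nonneg_left (C.bd x hx).2.2.2.2.2.2.1 C.pm0.le)

lemma box1 {x : ℝ} (hx : x ∈ II) : |s x| ≤ C.m1 * C.Cb :=
  (h.b1 x hx).trans (mul_le_mul_of_nonneg_left (C.bd x hx).2.2.2.2.2.2.2.1 C.pm1.le)

lemma lip' {x z : ℝ} (hx : x ∈ II) (hz : z ∈ II) :
    |s z - s x| ≤ |C.m2 * C.MM z - C.m2 * C.MM x| := by
  rcases le_total x z with hxz | hxz
  · exact (h.lip x hx z hz hxz).trans (by rw [← mul_sub]; exact le_abs_self _)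
  · rw [abs_sub_comm, abs_sub_comm (C.m2 * C.MM z)]
    exact (h.lip z hz x hx hxz).trans (by rw [← mul_sub]; exact le_abs_self _)

lemma lip2 {x z : ℝ} (hx : x ∈ II) (hz : z ∈ II) : |s z - s x| ≤ C.m2 * C.Cb * |z - x| := by
  refine (h.lip' hx hz).trans ?_
  rw [← mul_sub, abs_mul, abs_of_pos C.pm2, mul_assoc]
  exact mul_le_mul_of_nonneg_left (MM_le hx hz) C.pm2.le

lemma lip1 {x z : ℝ} (hx : x ∈ II) (hz : z ∈ II) : |P z - P x| ≤ C.m1 * C.Cb * |z - x| := by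
  have := mvt_frozen (fun y hy => h.deriv hy) hx hz (a := 0) (C := C.m1 * C.Cb) fun y hy _ => by
    rw [sub_zero]; exact h.box1 hy
  simpa using this

lemma dl {x : ℝ} (hx : x ∈ II) : DL s x (C.m2 * C.M2 x) := by
  have := DL.of_le (g := s) (G := fun z => C.m2 * C.MM z) (fun z hz => h.lip' hx hz)
    ((C.dMM x hx).const_mul C.m2)
  rwa [abs_of_pos (mul_pos C.pm2 (C.pμ.trans_le (C.lb x hx).2.2))] at this

lemma rho {x : ℝ} (hx : x ∈ II) :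
    |C.Hx x (P x) + C.Hw x (P x) * s x - C.V1 x| ≤ 2 * C.η := by
  obtain ⟨-, h1, h2, -⟩ := C.bHK x hx _ (h.box0 hx)
  have h3 : |C.Hw x (P x) * s x| ≤ C.η := by
    rw [abs_mul]
    refine (mul_le_mul h2 (h.box1 hx) (abs_nonneg _) (by linarith [C.pC])).trans ?_
    have := m1C_le (C := C)
    linarith
  rw [abs_le] at h1 h3 ⊢
  constructor <;> linarith

lemma rho_abs {x : ℝ} (hx : x ∈ II) :
    |C.ε * (C.Hx x (P x) + C.Hw x (P x) * s x)| ≤ 2 * C.η := by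
  have h1 := h.rho hx
  have h2 := (C.bd x hx).1
  have h3 : |C.Hx x (P x) + C.Hw x (P x) * s x| ≤ 2 * C.Cb := by
    have := η_le (C := C)
    have := C.pC
    rw [abs_le] at h1 h2 ⊢
    constructor <;> linarith
  rw [abs_mul, abs_of_pos C.pε]
  have := εC_le (C := C)
  nlinarith [C.pε]

lemma dR {x : ℝ} (hx : x ∈ II) : HasDerivWithinAt (C.R P)
    (1 + C.ε * (C.Hx x (P x) + C.Hw x (P x) * s x)) II x :=
  (hasDerivWithinAt_id x II).fun_add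
    ((chain2 (C.dH x hx _ (h.box0 hx)) (h.deriv hx)).const_mul C.ε)

lemma Rinv : StrictMonoOn (C.R P) II ∧ MapsTo (C.R P) II II ∧ ∃ g : ℝ → ℝ, MapsTo g II II ∧
    (∀ y ∈ II, C.R P (g y) = y) ∧ (∀ x ∈ II, g (C.R P x) = x) ∧ ∀ x ∈ II,
      HasDerivWithinAt g (1 + C.ε * (C.Hx x (P x) + C.Hw x (P x) * s x))⁻¹ II (C.R P x) :=
  exists_inverse (fun x hx => h.dR hx)
    (fun x hx => by
      have := abs_le.1 (h.rho_abs hx)
      have := η_le (C := C)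
      linarith)
    (by simp [R, h.tl, C.tipHl]) (by simp [R, h.tr, C.tipHr])

lemma surj {y : ℝ} (hy : y ∈ II) : ∃ x ∈ II, C.R P x = y := by
  obtain ⟨-, -, g, h1, h2, -⟩ := h.Rinv
  exact ⟨g y, h1 hy, h2 y hy⟩

lemma kf {x : ℝ} (hx : x ∈ II) :
    |C.Kf x (P x) + C.V1 x * P x| ≤ 2 * C.η * C.m0 * C.Cb := by
  have h0 : |(0 : ℝ)| ≤ C.m0 * C.Cb := by
    rw [abs_zero]; exact mul_nonneg C.pm0.le (by linarith [C.pC])
  have h1 := seg C.dK hx hx h0 (h.box0 hx) (A := C.η) (B := C.η) (b := - C.V1 x)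
    (fun y hy hyx w hw => by
      have : y = x := by simpa [sub_eq_zero] using hyx
      subst this
      obtain ⟨-, -, -, h2, h3⟩ := C.bHK y hy w hw
      exact ⟨h2, by rwa [sub_neg_eq_add]⟩)
  have h2 := C.bK0 x hx
  have h3 := mul_le_mul_of_nonneg_left (h.box0 hx) C.pη.le
  have h4 : C.η * C.m0 * 1 ≤ C.η * C.m0 * C.Cb :=
    mul_le_mul_of_nonneg_left C.pC (mul_pos C.pη C.pm0).le
  simp only [sub_self, abs_zero, mul_zero, zero_add, sub_zero] at h1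
  rw [abs_le] at h1 h2 ⊢
  constructor <;> linarith

lemma sg {x : ℝ} (hx : x ∈ II) :
    |sgf C.ε (C.Hx x (P x)) (C.Hw x (P x)) (C.Kx x (P x)) (C.Kw x (P x)) (s x) + 2 * C.V1 x * s x|
      ≤ 2 * C.η * C.m1 * C.Cb := by
  have hb := h.box1 hx
  have hsub : ∀ t ∈ uIcc 0 (s x), |t| ≤ C.m1 * C.Cb := fun t ht => by
    have := abs_sub_left_of_mem_uIcc ht
    simp only [sub_zero] at this
    exact this.trans hb
  have h1 := Convex.norm_image_sub_le_of_norm_hasDerivWithin_le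
    (f := fun t => sgf C.ε (C.Hx x (P x)) (C.Hw x (P x)) (C.Kx x (P x)) (C.Kw x (P x)) t
      + 2 * C.V1 x * t)
    (f' := fun t => C.Ss x (P x) t + 2 * C.V1 x) (s := uIcc 0 (s x)) (C := C.η) (x := 0) (y := s x)
    (fun t ht => by
      have h2 : HasDerivAt (fun t : ℝ => (x, P x, t)) (0, 0, 1) t :=
        (hasDerivAt_const t x).prodMk ((hasDerivAt_const t (P x)).prodMk (hasDerivAt_id t))
      have h3 := (C.dS x hx _ (h.box0 hx) t (hsub t ht)).comp_hasDerivAt t h2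
      have h4 := h3.fun_add ((hasDerivAt_id t).const_mul (2 * C.V1 x))
      exact (h4.congr_deriv (by simp)).hasDerivWithinAt)
    (fun t ht => (C.bS x hx _ (h.box0 hx) t (hsub t ht)).2.2) (convex_uIcc _ _)
    left_mem_uIcc right_mem_uIcc
  have h2 := C.bS0 x hx _ (h.box0 hx)
  have h3 := mul_le_mul_of_nonneg_left hb C.pη.le
  have h4 : C.η * C.m1 * 1 ≤ C.η * C.m1 * C.Cb :=
    mul_le_mul_of_nonneg_left C.pC (mul_pos C.pη C.pm1).le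
  simp only [Real.norm_eq_abs, mul_zero, add_zero, sub_zero] at h1
  rw [abs_le] at h1 h2 ⊢
  constructor <;> linarith

/-- local Lipschitz bound for the transported slope -/
lemma dl_sigma {x : ℝ} (hx : x ∈ II) :
    DL (fun z => s z + C.ε *
      sgf C.ε (C.Hx z (P z)) (C.Hw z (P z)) (C.Kx z (P z)) (C.Kw z (P z)) (s z)) x
      ((1 - 2 * C.ε * C.V1 x + C.ε * C.η) * (C.m2 * C.M2 x) + C.ε * (2 * C.η * C.m2)) := by
  have hO : (fun z => ((z, P z, s z) : ℝ × ℝ × ℝ) - (x, P x, s x)) =O[𝓝[II] x] fun z => z - x := by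
    refine IsBigO.prod_left (isBigO_refl _ _) (IsBigO.prod_left ?_ (h.dl hx).isBigO)
    exact (DL.of_deriv (h.deriv hx)).isBigO
  have h1 := (DL.comp_rem (a := fun z => (z, P z, s z))
    (C.dS x hx _ (h.box0 hx) _ (h.box1 hx)) hO).const_mul C.ε
  set a := C.Sx x (P x) (s x)
  set b := C.Sw x (P x) (s x)
  set d := C.Ss x (P x) (s x)
  have h2 := (DL.of_deriv (((hasDerivWithinAt_id x II).const_mul a).fun_add
    ((h.deriv hx).const_mul b))).const_mul C.ε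
  have h3 := (h.dl hx).const_mul (1 + C.ε * d)
  obtain ⟨k1, k2, k3⟩ := C.bS x hx _ (h.box0 hx) _ (h.box1 hx)
  refine (((h3.add h2).add h1).congr hx fun z _ => ?_).mono ?_
  · simp only [L3_apply, id]; ring
  · have k4 : |b * s x| ≤ C.η * C.m2 := by
      rw [abs_mul]
      refine (mul_le_mul k2 (h.box1 hx) (abs_nonneg _) (by linarith [C.pC])).trans ?_
      have := C.n2
      nlinarith
    have k5 : |a * 1 + b * s x| ≤ 2 * C.η * C.m2 := by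
      rw [abs_le] at k1 k4 ⊢
      constructor <;> linarith
    have k6 : |1 + C.ε * d| ≤ 1 - 2 * C.ε * C.V1 x + C.ε * C.η := by
      have k7 := abs_le.1 (C.bd x hx).1
      have k8 := εC_le (C := C)
      have k9 := η_le (C := C)
      have k10 := C.pε
      have k11 := C.pη
      rw [abs_le] at k3 ⊢
      constructor <;> nlinarith
    rw [abs_of_pos C.pε, mul_zero, add_zero]
    exact add_le_add (mul_le_mul_of_nonneg_right k6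
      (mul_pos C.pm2 (C.pμ.trans_le (C.lb x hx).2.2)).le) (mul_le_mul_of_nonneg_left k5 C.pε.le)

end Good

end Ctx

end Pool.Agent.Lib.MP_9cddd8_gt
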