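import Mathlib
import Pool.Agent.Lib.MP_9cddd8_gt.Step

/-!
Invariance of the set of good curves under the damped graph transform.
-/

set_option autoImplicit false

namespace Pool.Agent.Lib.MP_9cddd8_gt

open Set Filter Topology Asymptotics

lemma abs_mul_le' {a b A B : ℝ} (ha : |a| ≤ A) (hb : |b| ≤ B) : |a * b| ≤ A * B := by
  rw [abs_mul]
  exact mul_le_mul ha hb (abs_nonneg _) ((abs_nonneg _).trans ha)

lemma k2_ineq {ε η μ Cb m2 v ρ Mx My Mt ct cy j : ℝ} (hε : 0 < ε) (hη : 0 < η) (hm : 0 < m2)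
    (hC : 1 ≤ Cb) (h1 : 40 * η * Cb ≤ μ) (h4 : ε * Cb ^ 2 ≤ η) (hη1 : η ≤ 1 / 40)
    (hv : |v| ≤ Cb) (hρ : |ρ - v| ≤ 2 * η) (hρ2 : |ε * ρ| ≤ 2 * η) (hM0 : 0 ≤ Mx) (hM : Mx ≤ Cb)
    (hd : (1 - 3 * ε * v) * Mx + ε * (ct * Mt) + ε * μ ≤ (1 + ε * cy) * My)
    (hj : j ≤ 14 * η * m2) :
    (1 - 2 * ε * v + ε * η) * (m2 * Mx) + ε * (ct * (m2 * Mt * (1 + ε * ρ))) + ε * j ≤
      (1 + ε * cy) * (m2 * (My * (1 + ε * ρ))) := by
  have hR : 19 / 20 ≤ 1 + ε * ρ := by linarith [(abs_le.1 hρ2).1]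
  have e1 := mul_le_mul_of_nonneg_left hd (show 0 ≤ m2 * (1 + ε * ρ) by positivity)
  have hρ3 : |ρ| ≤ 2 * Cb := by
    rw [abs_le] at hv hρ ⊢
    constructor <;> linarith
  have e2 : ε * (v * ρ) ≤ 2 * η := by
    have := (le_abs_self _).trans (abs_mul_le' hv hρ3)
    nlinarith
  have e3 : 1 - 2 * ε * v - 8 * ε * η ≤ (1 + ε * ρ) * (1 - 3 * ε * v) := by
    have := (abs_le.1 hρ).1
    nlinarith
  have e4 := mul_le_mul_of_nonneg_right e3 (show 0 ≤ m2 * Mx by positivity)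
  have hμ : 0 ≤ μ := le_trans (by positivity) h1
  have e5 : ε * m2 * (19 / 20 * μ) ≤ ε * m2 * ((1 + ε * ρ) * μ) :=
    mul_le_mul_of_nonneg_left (mul_le_mul_of_nonneg_right hR hμ) (by positivity)
  have e6 : ε * m2 * (9 * η * Mx + 14 * η) ≤ ε * m2 * (19 / 20 * μ) := by
    refine mul_le_mul_of_nonneg_left ?_ (by positivity)
    nlinarith
  have e7 := mul_le_mul_of_nonneg_left hj hε.le
  nlinarith

namespace Ctx

variable {C : Ctx}

lemma den_pos {y : ℝ} (hy : y ∈ II) : 1 ≤ 1 + C.ε * C.c y := by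
  have := mul_nonneg C.pε.le (C.c0 y hy)
  linarith

lemma Extra.bound {Q : ℝ → ℝ} (hQ : C.Extra Q) {y : ℝ} (hy : y ∈ II) :
    |C.c y * Q y| ≤ C.Cb ^ 2 * (C.K + C.S) := by
  have hC := C.pC
  rcases le_total y 0 with h | h
  · rw [C.cl y hy h, zero_mul, abs_zero]
    have := C.pK
    have := C.pS
    positivity
  · have h1 := hQ.2 y ⟨h, hy.2⟩
    have h2 := abs_mul_le' hQ.1 (C.bd y hy).2.2.2.2.1
    have h3 := mul_le_mul_of_nonneg_left (C.bd y hy).2.2.2.2.2.2.1 C.pS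
    have h4 : |Q y| ≤ C.Cb * (C.K + C.S) := by
      rw [abs_le] at h1 h2 ⊢
      constructor <;> linarith
    have := abs_mul_le' (C.bd y hy).2.1 h4
    linarith

lemma one_sub_nonneg {x : ℝ} (hx : x ∈ II) : 0 ≤ 1 - 3 * C.ε * C.V1 x ∧ 0 ≤ 1 - 2 * C.ε * C.V1 x ∧
    0 ≤ 1 - C.ε * C.V1 x ∧ 1 - C.ε * C.V1 x ≤ 2 := by
  have h1 := abs_le.1 (C.bd x hx).1
  have h2 := εC_le (C := C)
  have h3 := η_le (C := C)
  have h4 := C.pε
  refine ⟨?_, ?_, ?_, ?_⟩ <;> nlinarith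

theorem step_exists {P s Q q : ℝ → ℝ} (h : C.Good P s) (hQ : C.Good Q q) (hE : C.Extra Q) :
    ∃ P' s', C.Good P' s' ∧ C.Step Q P P' := by
  obtain ⟨hmono, hmaps, g, hgm, hRg, hgR, hgd⟩ := h.Rinv
  have hε := C.pε
  have hη := C.pη
  have hC := C.pC
  set T : ℝ → ℝ := fun z => P z + C.ε * C.Kf z (P z) with hT
  set σ : ℝ → ℝ := fun z => s z + C.ε *
    sgf C.ε (C.Hx z (P z)) (C.Hw z (P z)) (C.Kx z (P z)) (C.Kw z (P z)) (s z) with hσ
  set P' : ℝ → ℝ := fun y => (T (g y) - C.ε * (C.c (-y) * Q (-y))) / (1 + C.ε * C.c y) with hP'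
  set s' : ℝ → ℝ := fun y => (σ (g y) + C.ε * (C.c1 (-y) * Q (-y) - C.c1 y * P' y)
    + C.ε * (C.c (-y) * q (-y))) / (1 + C.ε * C.c y) with hs'
  have hden : ∀ y ∈ II, 0 < 1 + C.ε * C.c y := fun y hy => by linarith [den_pos (C := C) hy]
  have hstep : C.Step Q P P' := by
    intro x hx
    refine ⟨hmaps hx, ?_⟩
    simp only [hP', hgR x hx, hT]
    rw [div_mul_cancel₀ _ (hden _ (hmaps hx)).ne']
  have hs'e : ∀ x ∈ II, s' (C.R P x) * (1 + C.ε * C.c (C.R P x)) = σ x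
      + C.ε * (C.c1 (-C.R P x) * Q (-C.R P x) - C.c1 (C.R P x) * P' (C.R P x))
      + C.ε * (C.c (-C.R P x) * q (-C.R P x)) := by
    intro x hx
    simp only [hs', hgR x hx]
    rw [div_mul_cancel₀ _ (hden _ (hmaps hx)).ne']
  have hR' : ∀ x ∈ II, 19 / 20 ≤ 1 + C.ε * (C.Hx x (P x) + C.Hw x (P x) * s x) ∧
      1 + C.ε * (C.Hx x (P x) + C.Hw x (P x) * s x) ≤ 2 := fun x hx => by
    have := abs_le.1 (h.rho_abs hx)
    have := η_le (C := C)
    constructor <;> linarith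
  have hder : ∀ y ∈ II, HasDerivWithinAt P' (s' y) II y := by
    intro y hy
    obtain ⟨x, hx, rfl⟩ := h.surj hy
    have h1 : HasDerivWithinAt T (s x + C.ε * (C.Kx x (P x) + C.Kw x (P x) * s x)) II
        (g (C.R P x)) := by
      rw [hgR x hx]
      exact (h.deriv hx).fun_add ((chain2 (C.dK x hx _ (h.box0 hx)) (h.deriv hx)).const_mul C.ε)
    have h2 := h1.comp (C.R P x) (hgd x hx) hgm
    have h3 := deriv_neg_II ((C.dc _ (neg_mem_II hy)).fun_mul (hQ.deriv (neg_mem_II hy)))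
    have h4 := (h2.fun_sub (h3.const_mul C.ε)).fun_div
      (((C.dc _ hy).const_mul C.ε).const_add 1) (hden _ hy).ne'
    refine h4.congr_deriv ?_
    have h5 := (hR' x hx).1
    have h6 : 1 + C.ε * (C.Hx x (P x) + C.Hw x (P x) * s x) ≠ 0 := by linarith
    have h7 := (hden _ hy).ne'
    have h8 : (s x + C.ε * (C.Kx x (P x) + C.Kw x (P x) * s x)) *
        (1 + C.ε * (C.Hx x (P x) + C.Hw x (P x) * s x))⁻¹ = σ x := by
      simp only [hσ, sgf]
      generalize C.Hx x (P x) + C.Hw x (P x) * s x = r at h6 ⊢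
      field_simp
      ring
    rw [h8]
    simp only [hs', hP', Function.comp, hgR x hx]
    field_simp
    ring
  have hb0 : ∀ y ∈ II, |P' y| ≤ C.m0 * C.om y := by
    intro y hy
    obtain ⟨x, hx, rfl⟩ := h.surj hy
    have h1 := (hstep x hx).2
    have h2 := h.kf hx
    have h3 := hE.bound (neg_mem_II hy)
    have h4 := (C.disc x hx _ (h.box0 hx) _ hy rfl).1
    have h5 := (one_sub_nonneg (C := C) hx).2.2.1
    have h6 := mul_le_mul_of_nonneg_left (h.b0 x hx) h5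
    have h7 : |P' (C.R P x)| * (1 + C.ε * C.c (C.R P x)) ≤ (1 - C.ε * C.V1 x) * |P x|
        + C.ε * (2 * C.η * C.m0 * C.Cb) + C.ε * (C.Cb ^ 2 * (C.K + C.S)) := by
      rw [← abs_of_pos (hden _ hy), ← abs_mul, h1]
      have e : P x + C.ε * C.Kf x (P x) - C.ε * (C.c (-C.R P x) * Q (-C.R P x)) =
        (1 - C.ε * C.V1 x) * P x + C.ε * (C.Kf x (P x) + C.V1 x * P x)
          - C.ε * (C.c (-C.R P x) * Q (-C.R P x)) := by ring
      rw [e]
      refine (abs_sub _ _).trans (add_le_add ((abs_add_le _ _).trans (add_le_add ?_ ?_)) ?_)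
      · rw [abs_mul, abs_of_nonneg h5]
      · exact abs_mul_le' (abs_of_pos hε).le h2
      · exact abs_mul_le' (abs_of_pos hε).le h3
    have h8 := mul_le_mul_of_nonneg_left C.n5 hε.le
    have h9 := mul_le_mul_of_nonneg_left h4 C.pm0.le
    refine le_of_mul_le_mul_right ?_ (hden _ hy)
    linarith
  have hb0' : ∀ y ∈ II, |P' y| ≤ C.m0 * C.Cb := fun y hy =>
    (hb0 y hy).trans (mul_le_mul_of_nonneg_left (C.bd y hy).2.2.2.2.2.2.1 C.pm0.le)
  have hb1 : ∀ y ∈ II, |s' y| ≤ C.m1 * C.M1 y := by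
    intro y hy
    obtain ⟨x, hx, rfl⟩ := h.surj hy
    have hy' := neg_mem_II hy
    have h1 := hs'e x hx
    have h2 := h.sg hx
    have h4 := (C.disc x hx _ (h.box0 hx) _ hy rfl).2.2.1
    have h5 := (one_sub_nonneg (C := C) hx).2.1
    have h6 := mul_le_mul_of_nonneg_left (h.b1 x hx) h5
    have h3 : |C.c1 (-C.R P x) * Q (-C.R P x) - C.c1 (C.R P x) * P' (C.R P x)| ≤
        C.Cb * (C.m0 * C.Cb) + C.Cb * (C.m0 * C.Cb) :=
      (abs_sub _ _).trans (add_le_add (abs_mul_le' (C.bd _ hy').2.2.1 (hQ.box0 hy'))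
        (abs_mul_le' (C.bd _ hy).2.2.1 (hb0' _ hy)))
    have h7 : |s' (C.R P x)| * (1 + C.ε * C.c (C.R P x)) ≤ (1 - 2 * C.ε * C.V1 x) * |s x|
        + C.ε * (2 * C.η * C.m1 * C.Cb) + C.ε * (C.Cb * (C.m0 * C.Cb) + C.Cb * (C.m0 * C.Cb))
        + C.ε * (C.c (-C.R P x) * (C.m1 * C.M1 (-C.R P x))) := by
      rw [← abs_of_pos (hden _ hy), ← abs_mul, h1]
      have e : σ x = (1 - 2 * C.ε * C.V1 x) * s x + C.ε *
        (sgf C.ε (C.Hx x (P x)) (C.Hw x (P x)) (C.Kx x (P x)) (C.Kw x (P x)) (s x)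
          + 2 * C.V1 x * s x) := by simp only [hσ]; ring
      rw [e]
      refine (abs_add_le _ _).trans (add_le_add ((abs_add_le _ _).trans (add_le_add
        ((abs_add_le _ _).trans (add_le_add ?_ ?_)) ?_)) ?_)
      · rw [abs_mul, abs_of_nonneg h5]
      · exact abs_mul_le' (abs_of_pos hε).le h2
      · exact abs_mul_le' (abs_of_pos hε).le h3
      · exact abs_mul_le' (abs_of_pos hε).le
          (abs_mul_le' (abs_of_nonneg (C.c0 _ hy')).le (hQ.b1 _ hy'))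
    have h8 : 2 * C.η * C.m1 * C.Cb + (C.Cb * (C.m0 * C.Cb) + C.Cb * (C.m0 * C.Cb))
        ≤ C.m1 * C.μ := by
      have k1 := C.n3
      have k2 := mul_le_mul_of_nonneg_left C.n1 C.pm1.le
      have k3 : C.η * C.m1 * 1 ≤ C.η * C.m1 * C.Cb :=
        mul_le_mul_of_nonneg_left hC (mul_pos hη C.pm1).le
      have k4 : 0 < C.η * C.m1 := mul_pos hη C.pm1
      nlinarith
    have h8' := mul_le_mul_of_nonneg_left h8 hε.le
    have h9 := mul_le_mul_of_nonneg_left h4 C.pm1.le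
    refine le_of_mul_le_mul_right ?_ (hden _ hy)
    linarith
  have hb1' : ∀ y ∈ II, |s' y| ≤ C.m1 * C.Cb := fun y hy =>
    (hb1 y hy).trans (mul_le_mul_of_nonneg_left (C.bd y hy).2.2.2.2.2.2.2.1 C.pm1.le)
  have hdl : ∀ x ∈ II, DL (fun z => s' (C.R P z)) x
      (C.m2 * (C.M2 (C.R P x) * (1 + C.ε * (C.Hx x (P x) + C.Hw x (P x) * s x)))) := by
    intro x hx
    have hy := hmaps hx
    have hy' := neg_mem_II hy
    have hdR := h.dR hx
    set ρ := C.Hx x (P x) + C.Hw x (P x) * s x with hρ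
    have hA := (((deriv_neg_II ((C.dc1 _ hy').fun_mul (hQ.deriv hy'))).fun_sub
      ((C.dc1 _ hy).fun_mul (hder _ hy))).comp x hdR hmaps)
    have hc' := (deriv_neg_II (C.dc _ hy')).comp x hdR hmaps
    have hMM := ((deriv_neg_II (C.dMM _ hy')).comp x hdR hmaps).const_mul C.m2
    have hq : DL (fun z => q (-C.R P z)) x _ := DL.of_le
      (G := fun z => C.m2 * C.MM (-C.R P z))
      (fun z hz => hQ.lip' hy' (neg_mem_II (hmaps hz))) hMM
    have hb := ((((C.dc _ hy).comp x hdR hmaps).const_mul C.ε).const_add 1).fun_inv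
      (hden _ hy).ne'
    have hin := ((h.dl_sigma hx).add ((DL.of_deriv hA).const_mul C.ε)).add
      ((DL.mul_deriv hc' hq).const_mul C.ε)
    refine ((DL.mul_deriv hb hin).congr hx fun z hz => ?_).mono ?_
    · have := hs'e z hz
      have h7 := (hden _ (hmaps hz)).ne'
      simp only [Function.comp, hσ] at this ⊢
      rw [← this]
      field_simp
    · have e1 := hs'e x hx
      simp only [Function.comp, hσ] at e1 ⊢
      rw [← e1]
      obtain ⟨r1, r2⟩ := hR' x hx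
      rw [← hρ] at r1 r2
      have r0 : 0 < 1 + C.ε * ρ := by linarith
      have hM2 : 0 < C.M2 (-C.R P x) := C.pμ.trans_le (C.lb _ hy').2.2
      have hd := hden _ hy
      have hm2 := C.pm2
      rw [abs_of_pos hε, abs_of_nonneg (C.c0 _ hy'), abs_of_pos (inv_pos.2 hd), abs_div, abs_neg,
        abs_of_pos (pow_pos hd 2), abs_mul (s' _), abs_of_pos hd, abs_mul C.m2, abs_of_pos hm2,
        abs_mul (-C.M2 _), abs_neg, abs_of_pos hM2, abs_of_pos r0, abs_mul C.ε, abs_of_pos hε]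
      have j1 : |(-(C.c2 (-C.R P x) * Q (-C.R P x) + C.c1 (-C.R P x) * q (-C.R P x)) -
          (C.c2 (C.R P x) * P' (C.R P x) + C.c1 (C.R P x) * s' (C.R P x))) * (1 + C.ε * ρ)| ≤
          (C.Cb * (C.m0 * C.Cb) + C.Cb * (C.m1 * C.Cb) + (C.Cb * (C.m0 * C.Cb)
            + C.Cb * (C.m1 * C.Cb))) * 2 := by
        refine abs_mul_le' ((abs_sub _ _).trans (add_le_add ?_ ?_)) (by rwa [abs_of_pos r0])
        · rw [abs_neg]
          exact (abs_add_le _ _).trans (add_le_add (abs_mul_le' (C.bd _ hy').2.2.2.1 (hQ.box0 hy'))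
            (abs_mul_le' (C.bd _ hy').2.2.1 (hQ.box1 hy')))
        · exact (abs_add_le _ _).trans (add_le_add (abs_mul_le' (C.bd _ hy).2.2.2.1 (hb0' _ hy))
            (abs_mul_le' (C.bd _ hy).2.2.1 (hb1' _ hy)))
      have j2 : |q (-C.R P x)| * |-C.c1 (-C.R P x) * (1 + C.ε * ρ)| ≤ C.m1 * C.Cb * (C.Cb * 2) := by
        rw [← abs_mul]
        refine abs_mul_le' (hQ.box1 hy') (abs_mul_le' ?_ (by rwa [abs_of_pos r0]))
        rw [abs_neg]; exact (C.bd _ hy').2.2.1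
      have j3 : |s' (C.R P x)| * |C.c1 (C.R P x) * (1 + C.ε * ρ)| ≤ C.m1 * C.Cb * (C.Cb * 2) := by
        rw [← abs_mul]
        exact abs_mul_le' (hb1' _ hy) (abs_mul_le' (C.bd _ hy).2.2.1 (by rwa [abs_of_pos r0]))
      have key := k2_ineq hε hη hm2 hC C.n1 C.n4 η_le (C.bd x hx).1 (h.rho hx) (h.rho_abs hx)
        (C.pμ.trans_le (C.lb x hx).2.2).le (C.bd x hx).2.2.2.2.2.2.2.2
        (C.disc x hx _ (h.box0 hx) _ hy rfl).2.2.2
        (j := 2 * C.η * C.m2 + |(-(C.c2 (-C.R P x) * Q (-C.R P x) + C.c1 (-C.R P x) * q (-C.R P x)) -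
          (C.c2 (C.R P x) * P' (C.R P x) + C.c1 (C.R P x) * s' (C.R P x))) * (1 + C.ε * ρ)|
          + |q (-C.R P x)| * |-C.c1 (-C.R P x) * (1 + C.ε * ρ)|
          + |s' (C.R P x)| * |C.c1 (C.R P x) * (1 + C.ε * ρ)|) (by
          have k1 := C.n2
          have k2 := C.n3
          have k3 := η_le (C := C)
          have k4 := C.pm1
          have k5 : C.η * C.m1 ≤ C.m1 * C.Cb ^ 2 := by
            have : C.η ≤ C.Cb ^ 2 := by nlinarith
            nlinarith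
          nlinarith)
      rw [← hρ] at key
      refine le_of_mul_le_mul_left ?_ hd
      refine le_trans (le_of_eq ?_) key
      field_simp
      ring
  have hlip : ∀ x ∈ II, ∀ z ∈ II, x ≤ z → |s' z - s' x| ≤ C.m2 * (C.MM z - C.MM x) := by
    intro y hy w hw hyw
    obtain ⟨x, hx, rfl⟩ := h.surj hy
    obtain ⟨z, hz, rfl⟩ := h.surj hw
    have := fence (B := fun z => C.m2 * C.MM (C.R P z)) hdl
      (fun x hx => (((C.dMM _ (hmaps hx)).comp x (h.dR hx) hmaps).const_mul C.m2)) hx hz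
      ((hmono.le_iff_le hx hz).1 hyw)
    rwa [← mul_sub] at this
  have hl' : (-1 : ℝ) ∈ II := left_mem_Icc.2 II_le
  have hr' : (1 : ℝ) ∈ II := right_mem_Icc.2 II_le
  refine ⟨P', s', ⟨fun x hx z hz => taylor_of_deriv (mul_nonneg C.pm2.le (by linarith)) hder
    (fun x hx z hz => ?_) hx hz, hlip, hb0, hb1, ?_, ?_⟩, hstep⟩
  · have hM := mul_le_mul_of_nonneg_left (MM_le (C := C) hx hz) C.pm2.le
    rw [← mul_assoc] at hM
    refine le_trans ?_ hM
    rcases le_total x z with hxz | hxz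
    · exact (hlip x hx z hz hxz).trans (mul_le_mul_of_nonneg_left (le_abs_self _) C.pm2.le)
    · rw [abs_sub_comm, abs_sub_comm (C.MM z)]
      exact (hlip z hz x hx hxz).trans (mul_le_mul_of_nonneg_left (le_abs_self _) C.pm2.le)
  · have := (hstep _ hl').2
    have e : C.R P (-1) = -1 := by simp [R, h.tl, C.tipHl]
    rw [e, h.tl, C.tipKl, neg_neg, hQ.tr] at this
    simpa [(hden _ hl').ne'] using this
  · have := (hstep _ hr').2
    have e : C.R P 1 = 1 := by simp [R, h.tr, C.tipHr]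
    rw [e, h.tr, C.tipKr, hQ.tl] at this
    simpa [(hden _ hr').ne'] using this

end Ctx

end Pool.Agent.Lib.MP_9cddd8_gt
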