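import Mathlib

/-!
Explicit polynomial data and positivity certificates.
-/

set_option autoImplicit false
set_option linter.style.longLine false
set_option linter.unusedSimpArgs false

namespace Pool.Agent.Lib.MP_9cddd8_gt

/-- denominator of the central curve -/
noncomputable def Df (x : ℝ) : ℝ := 1 + x / 4 + x ^ 2 / 36
/-- speed -/
noncomputable def Vf (x : ℝ) : ℝ := (1 - x ^ 2) * Df x ^ 2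
/-- derivative of the speed -/
noncomputable def V1f (x : ℝ) : ℝ := -(2 * x) * Df x ^ 2 + (1 - x ^ 2) * (2 * Df x * (1 / 4 + x / 18))
/-- weight of order zero -/
noncomputable def omf (x : ℝ) : ℝ := 2 + x + x ^ 2
/-- its derivative -/
noncomputable def om1f (x : ℝ) : ℝ := 1 + 2 * x
/-- weight of order one -/
noncomputable def M1f (x : ℝ) : ℝ := 4 - 3 * x + 10 * x ^ 2 - 5 * x ^ 3 - 5 * x ^ 4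
/-- its derivative -/
noncomputable def M11f (x : ℝ) : ℝ := -3 + 20 * x - 15 * x ^ 2 - 20 * x ^ 3
/-- weight of order two -/
noncomputable def M2f (x : ℝ) : ℝ := 4 - 3 * x + 21 * x ^ 2 - 10 * x ^ 3 - 5 * x ^ 4
/-- its derivative -/
noncomputable def M21f (x : ℝ) : ℝ := -3 + 42 * x - 30 * x ^ 2 - 20 * x ^ 3

lemma om_a (x : ℝ) (h1 : (-1 : ℝ) ≤ x) (h2 : x ≤ (-1 / 2 : ℝ)) :
    0 < Vf x * om1f x + 1 * V1f x * omf x := by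
  obtain ⟨u, hu, hu'⟩ : ∃ u, 0 ≤ u ∧ u = x - (-1 : ℝ) := ⟨_, by linarith, rfl⟩
  obtain ⟨v, hv, hv'⟩ : ∃ v, 0 ≤ v ∧ v = (-1 / 2 : ℝ) - x := ⟨_, by linarith, rfl⟩
  have h : 0 < (187 / 100 : ℝ) + ((142496 / 2025 : ℝ) * u ^ 0 * v ^ 7 + (683872 / 2025 : ℝ) * u ^ 1 * v ^ 6 + (430472 / 675 : ℝ) * u ^ 2 * v ^ 5 + (237832 / 405 : ℝ) * u ^ 3 * v ^ 4 + (23311 / 90 : ℝ) * u ^ 4 * v ^ 3 + (28172 / 675 : ℝ) * u ^ 5 * v ^ 2 + (4951 / 16200 : ℝ) * u ^ 6 * v ^ 1 + (11743 / 16200 : ℝ) * u ^ 7 * v ^ 0) := by positivity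
  rw [hu', hv'] at h
  refine h.trans_le (le_of_eq ?_)
  simp only [Vf, V1f, Df, omf, om1f, M1f, M11f, M2f, M21f]
  ring

lemma om_b (x : ℝ) (h1 : (-1 / 2 : ℝ) ≤ x) (h2 : x ≤ (0 : ℝ)) :
    0 < Vf x * om1f x + 1 * V1f x * omf x := by
  obtain ⟨u, hu, hu'⟩ : ∃ u, 0 ≤ u ∧ u = x - (-1 / 2 : ℝ) := ⟨_, by linarith, rfl⟩
  obtain ⟨v, hv, hv'⟩ : ∃ v, 0 ≤ v ∧ v = (0 : ℝ) - x := ⟨_, by linarith, rfl⟩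
  have h : 0 < (187 / 100 : ℝ) + ((11743 / 16200 : ℝ) * u ^ 0 * v ^ 7 + (159451 / 16200 : ℝ) * u ^ 1 * v ^ 6 + (66797 / 675 : ℝ) * u ^ 2 * v ^ 5 + (138907 / 405 : ℝ) * u ^ 3 * v ^ 4 + (219362 / 405 : ℝ) * u ^ 4 * v ^ 3 + (31658 / 75 : ℝ) * u ^ 5 * v ^ 2 + (33808 / 225 : ℝ) * u ^ 6 * v ^ 1 + (416 / 25 : ℝ) * u ^ 7 * v ^ 0) := by positivity
  rw [hu', hv'] at h
  refine h.trans_le (le_of_eq ?_)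
  simp only [Vf, V1f, Df, omf, om1f, M1f, M11f, M2f, M21f]
  ring

lemma om_c (x : ℝ) (h1 : (0 : ℝ) ≤ x) (h2 : x ≤ (1 / 2 : ℝ)) :
    0 < Vf x * om1f x + 1 * V1f x * omf x + 10 * x ^ 3 * Df x ^ 2 * omf x := by
  obtain ⟨u, hu, hu'⟩ : ∃ u, 0 ≤ u ∧ u = x - (0 : ℝ) := ⟨_, by linarith, rfl⟩
  obtain ⟨v, hv, hv'⟩ : ∃ v, 0 ≤ v ∧ v = (1 / 2 : ℝ) - x := ⟨_, by linarith, rfl⟩
  have h : 0 < (9 / 5 : ℝ) + ((512 / 5 : ℝ) * u ^ 0 * v ^ 9 + (35392 / 45 : ℝ) * u ^ 1 * v ^ 8 + (93848 / 45 : ℝ) * u ^ 2 * v ^ 7 + (829528 / 405 : ℝ) * u ^ 3 * v ^ 6 + (70292 / 405 : ℝ) * u ^ 4 * v ^ 5 + (506512 / 405 : ℝ) * u ^ 5 * v ^ 4 + (1817387 / 270 : ℝ) * u ^ 6 * v ^ 3 + (3712802 / 405 : ℝ) * u ^ 7 * v ^ 2 + (8647157 / 1620 : ℝ) * u ^ 8 * v ^ 1 + (3815191 / 3240 : ℝ) * u ^ 9 * v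 ^ 0) := by positivity
  rw [hu', hv'] at h
  refine h.trans_le (le_of_eq ?_)
  simp only [Vf, V1f, Df, omf, om1f, M1f, M11f, M2f, M21f]
  ring

lemma om_d (x : ℝ) (h1 : (1 / 2 : ℝ) ≤ x) (h2 : x ≤ (1 : ℝ)) :
    0 < Vf x * om1f x + 1 * V1f x * omf x + 10 * x ^ 3 * Df x ^ 2 * omf x := by
  obtain ⟨u, hu, hu'⟩ : ∃ u, 0 ≤ u ∧ u = x - (1 / 2 : ℝ) := ⟨_, by linarith, rfl⟩
  obtain ⟨v, hv, hv'⟩ : ∃ v, 0 ≤ v ∧ v = (1 : ℝ) - x := ⟨_, by linarith, rfl⟩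
  have h : 0 < (409 / 100 : ℝ) + ((81779 / 16200 : ℝ) * u ^ 0 * v ^ 9 + (21487009 / 4050 : ℝ) * u ^ 1 * v ^ 8 + (34504756 / 675 : ℝ) * u ^ 2 * v ^ 7 + (877210259 / 4050 : ℝ) * u ^ 3 * v ^ 6 + (1063919038 / 2025 : ℝ) * u ^ 4 * v ^ 5 + (1614176038 / 2025 : ℝ) * u ^ 5 * v ^ 4 + (522530264 / 675 : ℝ) * u ^ 6 * v ^ 3 + (105688352 / 225 : ℝ) * u ^ 7 * v ^ 2 + (329614592 / 2025 : ℝ) * u ^ 8 * v ^ 1 + (49929088 / 2025 : ℝ) * u ^ 9 * v ^ 0) := by positivity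
  rw [hu', hv'] at h
  refine h.trans_le (le_of_eq ?_)
  simp only [Vf, V1f, Df, omf, om1f, M1f, M11f, M2f, M21f]
  ring

lemma om_pos (x : ℝ) (h1 : (-1 : ℝ) ≤ x) (h2 : x ≤ (1 : ℝ)) :
    0 < omf x := by
  obtain ⟨u, hu, hu'⟩ : ∃ u, 0 ≤ u ∧ u = x - (-1 : ℝ) := ⟨_, by linarith, rfl⟩
  obtain ⟨v, hv, hv'⟩ : ∃ v, 0 ≤ v ∧ v = (1 : ℝ) - x := ⟨_, by linarith, rfl⟩
  have h : 0 < (1 : ℝ) + ((1 / 4 : ℝ) * u ^ 0 * v ^ 2 + (3 / 4 : ℝ) * u ^ 2 * v ^ 0) := by positivity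
  rw [hu', hv'] at h
  refine h.trans_le (le_of_eq ?_)
  simp only [Vf, V1f, Df, omf, om1f, M1f, M11f, M2f, M21f]
  ring

lemma M1_a (x : ℝ) (h1 : (-1 : ℝ) ≤ x) (h2 : x ≤ (-1 / 2 : ℝ)) :
    0 < Vf x * M11f x + 2 * V1f x * M1f x - 10 * (-x) ^ 3 * Df (-x) ^ 2 * M1f (-x) := by
  obtain ⟨u, hu, hu'⟩ : ∃ u, 0 ≤ u ∧ u = x - (-1 : ℝ) := ⟨_, by linarith, rfl⟩
  obtain ⟨v, hv, hv'⟩ : ∃ v, 0 ≤ v ∧ v = (-1 / 2 : ℝ) - x := ⟨_, by linarith, rfl⟩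
  have h : 0 < (27 / 100 : ℝ) + ((101766656 / 2025 : ℝ) * u ^ 0 * v ^ 11 + (492310016 / 2025 : ℝ) * u ^ 1 * v ^ 10 + (172307776 / 405 : ℝ) * u ^ 2 * v ^ 9 + (35579296 / 135 : ℝ) * u ^ 3 * v ^ 8 + (615872 / 135 : ℝ) * u ^ 4 * v ^ 7 + (609043072 / 2025 : ℝ) * u ^ 5 * v ^ 6 + (656003474 / 675 : ℝ) * u ^ 6 * v ^ 5 + (480149056 / 405 : ℝ) * u ^ 7 * v ^ 4 + (634210501 / 810 : ℝ) * u ^ 8 * v ^ 3 + (242298697 / 810 : ℝ) * u ^ 9 * v ^ 2 + (126772841 / 2025 : ℝ) * u ^ 10 * v ^ 1 + (90548023 / 16200 : ℝ) * u ^ 11 * v ^ 0) := by positivity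
  rw [hu', hv'] at h
  refine h.trans_le (le_of_eq ?_)
  simp only [Vf, V1f, Df, omf, om1f, M1f, M11f, M2f, M21f]
  ring

lemma M1_b (x : ℝ) (h1 : (-1 / 2 : ℝ) ≤ x) (h2 : x ≤ (0 : ℝ)) :
    0 < Vf x * M11f x + 2 * V1f x * M1f x - 10 * (-x) ^ 3 * Df (-x) ^ 2 * M1f (-x) := by
  obtain ⟨u, hu, hu'⟩ : ∃ u, 0 ≤ u ∧ u = x - (-1 / 2 : ℝ) := ⟨_, by linarith, rfl⟩
  obtain ⟨v, hv, hv'⟩ : ∃ v, 0 ≤ v ∧ v = (0 : ℝ) - x := ⟨_, by linarith, rfl⟩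
  have h : 0 < (9 / 10 : ℝ) + ((13929227 / 3240 : ℝ) * u ^ 0 * v ^ 11 + (8310589 / 180 : ℝ) * u ^ 1 * v ^ 10 + (16666403 / 81 : ℝ) * u ^ 2 * v ^ 9 + (80650087 / 162 : ℝ) * u ^ 3 * v ^ 8 + (58296844 / 81 : ℝ) * u ^ 4 * v ^ 7 + (28760242 / 45 : ℝ) * u ^ 5 * v ^ 6 + (5091944 / 15 : ℝ) * u ^ 6 * v ^ 5 + (7803368 / 81 : ℝ) * u ^ 7 * v ^ 4 + (810496 / 81 : ℝ) * u ^ 8 * v ^ 3 + (3616 / 9 : ℝ) * u ^ 9 * v ^ 2 + (37376 / 45 : ℝ) * u ^ 10 * v ^ 1 + (1024 / 5 : ℝ) * u ^ 11 * v ^ 0) := by positivity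
  rw [hu', hv'] at h
  refine h.trans_le (le_of_eq ?_)
  simp only [Vf, V1f, Df, omf, om1f, M1f, M11f, M2f, M21f]
  ring

lemma M1_c (x : ℝ) (h1 : (0 : ℝ) ≤ x) (h2 : x ≤ (1 / 2 : ℝ)) :
    0 < Vf x * M11f x + 2 * V1f x * M1f x + 10 * x ^ 3 * Df x ^ 2 * M1f x := by
  obtain ⟨u, hu, hu'⟩ : ∃ u, 0 ≤ u ∧ u = x - (0 : ℝ) := ⟨_, by linarith, rfl⟩
  obtain ⟨v, hv, hv'⟩ : ∃ v, 0 ≤ v ∧ v = (1 / 2 : ℝ) - x := ⟨_, by linarith, rfl⟩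
  have h : 0 < (13 / 25 : ℝ) + ((24576 / 25 : ℝ) * u ^ 0 * v ^ 11 + (2753024 / 225 : ℝ) * u ^ 1 * v ^ 10 + (3224224 / 45 : ℝ) * u ^ 2 * v ^ 9 + (99819328 / 405 : ℝ) * u ^ 3 * v ^ 8 + (215599496 / 405 : ℝ) * u ^ 4 * v ^ 7 + (165875608 / 225 : ℝ) * u ^ 5 * v ^ 6 + (1313266322 / 2025 : ℝ) * u ^ 6 * v ^ 5 + (46634432 / 135 : ℝ) * u ^ 7 * v ^ 4 + (26572177 / 270 : ℝ) * u ^ 8 * v ^ 3 + (1411622 / 135 : ℝ) * u ^ 9 * v ^ 2 + (1375339 / 8100 : ℝ) * u ^ 10 * v ^ 1 + (475097 / 1800 : ℝ) * u ^ 11 * v ^ 0) := by positivity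
  rw [hu', hv'] at h
  refine h.trans_le (le_of_eq ?_)
  simp only [Vf, V1f, Df, omf, om1f, M1f, M11f, M2f, M21f]
  ring

lemma M1_d (x : ℝ) (h1 : (1 / 2 : ℝ) ≤ x) (h2 : x ≤ (1 : ℝ)) :
    0 < Vf x * M11f x + 2 * V1f x * M1f x + 10 * x ^ 3 * Df x ^ 2 * M1f x := by
  obtain ⟨u, hu, hu'⟩ : ∃ u, 0 ≤ u ∧ u = x - (1 / 2 : ℝ) := ⟨_, by linarith, rfl⟩
  obtain ⟨v, hv, hv'⟩ : ∃ v, 0 ≤ v ∧ v = (1 : ℝ) - x := ⟨_, by linarith, rfl⟩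
  have h : 0 < (16 / 25 : ℝ) + ((32729 / 1800 : ℝ) * u ^ 0 * v ^ 11 + (5940512 / 2025 : ℝ) * u ^ 1 * v ^ 10 + (41805049 / 810 : ℝ) * u ^ 2 * v ^ 9 + (99114779 / 270 : ℝ) * u ^ 3 * v ^ 8 + (192514964 / 135 : ℝ) * u ^ 4 * v ^ 7 + (6905093254 / 2025 : ℝ) * u ^ 5 * v ^ 6 + (1188780656 / 225 : ℝ) * u ^ 6 * v ^ 5 + (2175859072 / 405 : ℝ) * u ^ 7 * v ^ 4 + (1422657056 / 405 : ℝ) * u ^ 8 * v ^ 3 + (62291648 / 45 : ℝ) * u ^ 9 * v ^ 2 + (570202112 / 2025 : ℝ) * u ^ 10 * v ^ 1 + (12657664 / 675 : ℝ) * u ^ 11 * v ^ 0) := by positivity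
  rw [hu', hv'] at h
  refine h.trans_le (le_of_eq ?_)
  simp only [Vf, V1f, Df, omf, om1f, M1f, M11f, M2f, M21f]
  ring

lemma M1_pos (x : ℝ) (h1 : (-1 : ℝ) ≤ x) (h2 : x ≤ (1 : ℝ)) :
    0 < M1f x := by
  obtain ⟨u, hu, hu'⟩ : ∃ u, 0 ≤ u ∧ u = x - (-1 : ℝ) := ⟨_, by linarith, rfl⟩
  obtain ⟨v, hv, hv'⟩ : ∃ v, 0 ≤ v ∧ v = (1 : ℝ) - x := ⟨_, by linarith, rfl⟩
  have h : 0 < (3 / 5 : ℝ) + ((41 / 80 : ℝ) * u ^ 0 * v ^ 5 + (23 / 16 : ℝ) * u ^ 1 * v ^ 4 + (1 / 4 : ℝ) * u ^ 3 * v ^ 2 + (19 / 16 : ℝ) * u ^ 4 * v ^ 1 + (1 / 80 : ℝ) * u ^ 5 * v ^ 0) := by positivity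
  rw [hu', hv'] at h
  refine h.trans_le (le_of_eq ?_)
  simp only [Vf, V1f, Df, omf, om1f, M1f, M11f, M2f, M21f]
  ring

lemma M2_a (x : ℝ) (h1 : (-1 : ℝ) ≤ x) (h2 : x ≤ (-1 / 2 : ℝ)) :
    0 < Vf x * M21f x + 3 * V1f x * M2f x - 10 * (-x) ^ 3 * Df (-x) ^ 2 * M2f (-x) := by
  obtain ⟨u, hu, hu'⟩ : ∃ u, 0 ≤ u ∧ u = x - (-1 : ℝ) := ⟨_, by linarith, rfl⟩
  obtain ⟨v, hv, hv'⟩ : ∃ v, 0 ≤ v ∧ v = (-1 / 2 : ℝ) - x := ⟨_, by linarith, rfl⟩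
  have h : 0 < (329 / 100 : ℝ) + ((9114112 / 2025 : ℝ) * u ^ 0 * v ^ 11 + (223232 / 2025 : ℝ) * u ^ 1 * v ^ 10 + (71972992 / 405 : ℝ) * u ^ 2 * v ^ 9 + (627291776 / 405 : ℝ) * u ^ 3 * v ^ 8 + (232472488 / 45 : ℝ) * u ^ 4 * v ^ 7 + (19228690544 / 2025 : ℝ) * u ^ 5 * v ^ 6 + (21975893194 / 2025 : ℝ) * u ^ 6 * v ^ 5 + (1088135984 / 135 : ℝ) * u ^ 7 * v ^ 4 + (1579427101 / 405 : ℝ) * u ^ 8 * v ^ 3 + (159975119 / 135 : ℝ) * u ^ 9 * v ^ 2 + (1658872003 / 8100 : ℝ) * u ^ 10 * v ^ 1 + (82529207 / 5400 : ℝ) * u ^ 11 * v ^ 0) := by positivity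
  rw [hu', hv'] at h
  refine h.trans_le (le_of_eq ?_)
  simp only [Vf, V1f, Df, omf, om1f, M1f, M11f, M2f, M21f]
  ring

lemma M2_b (x : ℝ) (h1 : (-1 / 2 : ℝ) ≤ x) (h2 : x ≤ (0 : ℝ)) :
    0 < Vf x * M21f x + 3 * V1f x * M2f x - 10 * (-x) ^ 3 * Df (-x) ^ 2 * M2f (-x) := by
  obtain ⟨u, hu, hu'⟩ : ∃ u, 0 ≤ u ∧ u = x - (-1 / 2 : ℝ) := ⟨_, by linarith, rfl⟩
  obtain ⟨v, hv, hv'⟩ : ∃ v, 0 ≤ v ∧ v = (0 : ℝ) - x := ⟨_, by linarith, rfl⟩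
  have h : 0 < (69 / 50 : ℝ) + ((103652279 / 5400 : ℝ) * u ^ 0 * v ^ 11 + (353280629 / 2025 : ℝ) * u ^ 1 * v ^ 10 + (539835883 / 810 : ℝ) * u ^ 2 * v ^ 9 + (561170807 / 405 : ℝ) * u ^ 3 * v ^ 8 + (681331604 / 405 : ℝ) * u ^ 4 * v ^ 7 + (783899906 / 675 : ℝ) * u ^ 5 * v ^ 6 + (252555256 / 675 : ℝ) * u ^ 6 * v ^ 5 + (887008 / 135 : ℝ) * u ^ 7 * v ^ 4 + (1416544 / 135 : ℝ) * u ^ 8 * v ^ 3 + (639392 / 15 : ℝ) * u ^ 9 * v ^ 2 + (1597952 / 75 : ℝ) * u ^ 10 * v ^ 1 + (82944 / 25 : ℝ) * u ^ 11 * v ^ 0) := by positivity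
  rw [hu', hv'] at h
  refine h.trans_le (le_of_eq ?_)
  simp only [Vf, V1f, Df, omf, om1f, M1f, M11f, M2f, M21f]
  ring

lemma M2_c (x : ℝ) (h1 : (0 : ℝ) ≤ x) (h2 : x ≤ (1 / 2 : ℝ)) :
    0 < Vf x * M21f x + 3 * V1f x * M2f x + 10 * x ^ 3 * Df x ^ 2 * M2f x := by
  obtain ⟨u, hu, hu'⟩ : ∃ u, 0 ≤ u ∧ u = x - (0 : ℝ) := ⟨_, by linarith, rfl⟩
  obtain ⟨v, hv, hv'⟩ : ∃ v, 0 ≤ v ∧ v = (1 / 2 : ℝ) - x := ⟨_, by linarith, rfl⟩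
  have h : 0 < (64 / 25 : ℝ) + ((22528 / 25 : ℝ) * u ^ 0 * v ^ 11 + (1882624 / 75 : ℝ) * u ^ 1 * v ^ 10 + (1067488 / 5 : ℝ) * u ^ 2 * v ^ 9 + (121822688 / 135 : ℝ) * u ^ 3 * v ^ 8 + (33611744 / 15 : ℝ) * u ^ 4 * v ^ 7 + (2372281672 / 675 : ℝ) * u ^ 5 * v ^ 6 + (804250174 / 225 : ℝ) * u ^ 6 * v ^ 5 + (947956768 / 405 : ℝ) * u ^ 7 * v ^ 4 + (382247089 / 405 : ℝ) * u ^ 8 * v ^ 3 + (170200421 / 810 : ℝ) * u ^ 9 * v ^ 2 + (39107023 / 2025 : ℝ) * u ^ 10 * v ^ 1 + (95273 / 5400 : ℝ) * u ^ 11 * v ^ 0) := by positivity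
  rw [hu', hv'] at h
  refine h.trans_le (le_of_eq ?_)
  simp only [Vf, V1f, Df, omf, om1f, M1f, M11f, M2f, M21f]
  ring

lemma M2_d (x : ℝ) (h1 : (1 / 2 : ℝ) ≤ x) (h2 : x ≤ (1 : ℝ)) :
    0 < Vf x * M21f x + 3 * V1f x * M2f x + 10 * x ^ 3 * Df x ^ 2 * M2f x := by
  obtain ⟨u, hu, hu'⟩ : ∃ u, 0 ≤ u ∧ u = x - (1 / 2 : ℝ) := ⟨_, by linarith, rfl⟩
  obtain ⟨v, hv, hv'⟩ : ∃ v, 0 ≤ v ∧ v = (1 : ℝ) - x := ⟨_, by linarith, rfl⟩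
  have h : 0 < (37 / 50 : ℝ) + ((20223017 / 5400 : ℝ) * u ^ 0 * v ^ 11 + (178823693 / 8100 : ℝ) * u ^ 1 * v ^ 10 + (491521 / 15 : ℝ) * u ^ 2 * v ^ 9 + (216731 / 405 : ℝ) * u ^ 3 * v ^ 8 + (12641668 / 45 : ℝ) * u ^ 4 * v ^ 7 + (3612787514 / 2025 : ℝ) * u ^ 5 * v ^ 6 + (9160796464 / 2025 : ℝ) * u ^ 6 * v ^ 5 + (860888984 / 135 : ℝ) * u ^ 7 * v ^ 4 + (2197910656 / 405 : ℝ) * u ^ 8 * v ^ 3 + (1122973952 / 405 : ℝ) * u ^ 9 * v ^ 2 + (1580142592 / 2025 : ℝ) * u ^ 10 * v ^ 1 + (186524672 / 2025 : ℝ) * u ^ 11 * v ^ 0) := by positivity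
  rw [hu', hv'] at h
  refine h.trans_le (le_of_eq ?_)
  simp only [Vf, V1f, Df, omf, om1f, M1f, M11f, M2f, M21f]
  ring

lemma M2_pos (x : ℝ) (h1 : (-1 : ℝ) ≤ x) (h2 : x ≤ (1 : ℝ)) :
    0 < M2f x := by
  obtain ⟨u, hu, hu'⟩ : ∃ u, 0 ≤ u ∧ u = x - (-1 : ℝ) := ⟨_, by linarith, rfl⟩
  obtain ⟨v, hv, hv'⟩ : ∃ v, 0 ≤ v ∧ v = (1 : ℝ) - x := ⟨_, by linarith, rfl⟩
  have h : 0 < (7 / 50 : ℝ) + ((1643 / 6400 : ℝ) * u ^ 0 * v ^ 7 + (6001 / 6400 : ℝ) * u ^ 1 * v ^ 6 + (5703 / 6400 : ℝ) * u ^ 2 * v ^ 5 + (1 / 1280 : ℝ) * u ^ 3 * v ^ 4 + (301 / 1280 : ℝ) * u ^ 4 * v ^ 3 + (6003 / 6400 : ℝ) * u ^ 5 * v ^ 2 + (3501 / 6400 : ℝ) * u ^ 6 * v ^ 1 + (343 / 6400 : ℝ) * u ^ 7 * v ^ 0) := by positivity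
  rw [hu', hv'] at h
  refine h.trans_le (le_of_eq ?_)
  simp only [Vf, V1f, Df, omf, om1f, M1f, M11f, M2f, M21f]
  ring

end Pool.Agent.Lib.MP_9cddd8_gt
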