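import Mathlib
import Pool.Agent.Lib.MP_9cddd8_gt.Inv
import Pool.Agent.Lib.MP_9cddd8_gt.Poly

/-!
Convex arcs close to the central conic and their support lines.
-/

set_option autoImplicit false

namespace Pool.Agent.Lib.MP_9cddd8_gt

open Set Filter Topology

/-- the central curve -/
noncomputable def ps (x : ℝ) : ℝ := (1 + x / 12) / Df x

/-- its derivative -/
noncomputable def ps1 (x : ℝ) : ℝ := -(72 + 24 * x + x ^ 2) / 432 / Df x ^ 2

lemma Df_pos (x : ℝ) : 0 < Df x := by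
  unfold Df; nlinarith [sq_nonneg (x + 9 / 2)]

lemma Df_ps (x : ℝ) : Df x * ps x = 1 + x / 12 := by
  unfold ps; field_simp [(Df_pos x).ne']

lemma Df_ps1 (x : ℝ) : (1 / 4 + x / 18) * ps x + Df x * ps1 x = 1 / 12 := by
  have := (Df_pos x).ne'
  unfold ps ps1
  field_simp
  unfold Df
  ring

lemma hasDerivAt_Df (x : ℝ) : HasDerivAt Df (1 / 4 + x / 18) x := by
  have := (((hasDerivAt_id x).div_const 4).const_add 1).fun_add
    (((hasDerivAt_id x).fun_pow 2).div_const 36)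
  exact this.congr_deriv (by simp; ring)

lemma hasDerivAt_ps (x : ℝ) : HasDerivAt ps (ps1 x) x := by
  have h := (Df_pos x).ne'
  have := (((hasDerivAt_id x).div_const 12).const_add 1).fun_div (hasDerivAt_Df x) h
  refine this.congr_deriv ?_
  unfold ps1
  simp only [id]
  field_simp
  unfold Df
  ring

lemma ps_bounds {x : ℝ} (hx : x ∈ II) : 21 / 25 ≤ ps x ∧ ps x ≤ 59 / 50 ∧ -(19 / 100) ≤ ps1 x ∧
    ps1 x ≤ -(13 / 100) ∧ 3 / 10 ≤ 3 * ps1 x + ps x ^ 2 ∧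
    1 / 50 ≤ 1 / 3 + ps1 x * (1 - x ^ 2 / 9) - 2 / 9 * x * ps x := by
  have h := Df_pos x
  have h1 := hx.1
  have h2 := hx.2
  have h3 : 0 ≤ (1 - x) * (1 + x) := mul_nonneg (by linarith) (by linarith)
  have hD : Df x ≤ 23 / 18 := by unfold Df; nlinarith
  have hD2 : Df x ^ 2 ≤ (23 / 18) ^ 2 := pow_le_pow_left₀ h.le hD 2
  refine ⟨?_, ?_, ?_, ?_, ?_, ?_⟩
  · unfold ps; rw [le_div_iff₀ h]; unfold Df; nlinarith
  · unfold ps; rw [div_le_iff₀ h]; unfold Df; nlinarith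
  · unfold ps1; rw [le_div_iff₀ (by positivity)]; unfold Df
    nlinarith [sq_nonneg (x ^ 2), mul_nonneg (sq_nonneg x) (show 0 ≤ 1 + x by linarith),
      sq_nonneg (x + 1)]
  · unfold ps1; rw [div_le_iff₀ (by positivity)]; unfold Df
    nlinarith [mul_nonneg (sq_nonneg x) h3, mul_nonneg (sq_nonneg x) (show 0 ≤ 1 - x by linarith)]
  · have e : 3 * ps1 x + ps x ^ 2 = 1 / 2 / Df x ^ 2 := by
      unfold ps ps1; field_simp; ring
    rw [e, le_div_iff₀ (by positivity)]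
    nlinarith
  · have e : 1 / 3 + ps1 x * (1 - x ^ 2 / 9) - 2 / 9 * x * ps x
        = (1 - 2 * x / 3 - x ^ 2 / 9) / 6 / Df x ^ 2 := by
      unfold ps ps1; field_simp; unfold Df; ring
    rw [e, le_div_iff₀ (by positivity)]
    nlinarith

/-- a small perturbation of the central curve -/
structure Arc where
  (w s : ℝ → ℝ)
  der : ∀ x ∈ II, HasDerivWithinAt w (s x) II x
  bw : ∀ x ∈ II, |w x| ≤ 1 / 1000
  bs : ∀ x ∈ II, |s x| ≤ 1 / 1000
  lip : ∀ x ∈ II, ∀ z ∈ II, |s z - s x| ≤ 1 / 1000 * |z - x|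
  tl : w (-1) = 0
  tr : w 1 = 0

namespace Arc

variable (A : Arc)

/-- vertical coordinate -/
noncomputable def p (x : ℝ) : ℝ := ps x + A.w x
/-- its derivative -/
noncomputable def p1 (x : ℝ) : ℝ := ps1 x + A.s x
/-- first coordinate of the point -/
noncomputable def zx (x : ℝ) : ℝ := 1 - 2 * (x / 3) * A.p x
/-- second coordinate of the point -/
noncomputable def zy (x : ℝ) : ℝ := x / 3 + A.p x * (1 - (x / 3) ^ 2)
/-- first coordinate of the normal -/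
noncomputable def n1 (x : ℝ) : ℝ := 1 / 3 + A.p1 x * (1 - x ^ 2 / 9) - 2 / 9 * x * A.p x
/-- second coordinate of the normal -/
noncomputable def n2 (x : ℝ) : ℝ := 2 / 3 * A.p x + 2 / 3 * x * A.p1 x
/-- support number -/
noncomputable def cc (x : ℝ) : ℝ := A.n1 x * A.zx x + A.n2 x * A.zy x

lemma p_bounds {x : ℝ} (hx : x ∈ II) : 83 / 100 ≤ A.p x ∧ A.p x ≤ 119 / 100 ∧
    -(1 / 5) ≤ A.p1 x ∧ A.p1 x ≤ 0 ∧ 29 / 100 ≤ 3 * A.p1 x + A.p x ^ 2 ∧ 0 < A.n1 x := by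
  obtain ⟨h1, h2, h3, h4, h5, h6⟩ := ps_bounds hx
  have hw := abs_le.1 (A.bw x hx)
  have hs := abs_le.1 (A.bs x hx)
  have a1 := hx.1
  have a2 := hx.2
  unfold n1 p p1
  refine ⟨by linarith, by linarith, by linarith, by linarith, by nlinarith, ?_⟩
  have a3 : x ^ 2 ≤ 1 := by nlinarith
  have a4 : -(1 / 1000) ≤ A.s x * (1 - x ^ 2 / 9) := by nlinarith [sq_nonneg x]
  have a5 : x * A.w x ≤ 1 / 1000 := by nlinarith
  nlinarith

lemma dp {x : ℝ} (hx : x ∈ II) : HasDerivWithinAt A.p (A.p1 x) II x :=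
  (hasDerivAt_ps x).hasDerivWithinAt.fun_add (A.der x hx)

lemma n_bounds {x : ℝ} (hx : x ∈ II) : 0 < A.n1 x ∧ 0 < A.n2 x ∧ 0 < A.cc x ∧
    (101 / 100) ^ 2 * (A.n1 x ^ 2 + A.n2 x ^ 2) ≤ A.cc x ^ 2 := by
  obtain ⟨h1, h2, h3, h4, h5, h6⟩ := A.p_bounds hx
  have a1 := hx.1
  have a2 := hx.2
  have a3 : x ^ 2 ≤ 1 := by nlinarith
  have b1 : |x * A.p1 x| ≤ 1 * (1 / 5) :=
    abs_mul_le' (abs_le.2 ⟨a1, a2⟩) (abs_le.2 ⟨h3, by linarith⟩)
  have b2 : |x * A.p x| ≤ 1 * (119 / 100) :=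
    abs_mul_le' (abs_le.2 ⟨a1, a2⟩) (abs_le.2 ⟨by linarith, h2⟩)
  rw [abs_le] at b1 b2
  have hn2 : 0 < A.n2 x := by unfold n2; linarith
  have hn2' : A.n2 x ≤ 93 / 100 := by unfold n2; linarith
  have hn1' : A.n1 x ≤ 3 / 5 := by
    have : A.p1 x * (1 - x ^ 2 / 9) ≤ 0 := by nlinarith
    unfold n1; linarith
  have e1 : A.cc x ^ 2 = A.n1 x ^ 2 + A.n2 x ^ 2 + 4 / 9 * (3 * A.p1 x + A.p x ^ 2) *
      (A.p x * (1 + x ^ 2 / 9) - x / 3) ^ 2 := by
    unfold cc zx zy n1 n2; ring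
  have e2 : A.cc x = 1 / 3 + A.p1 x * (1 + x ^ 2 / 9) - 2 / 9 * (x * A.p x)
      + 2 / 3 * A.p x ^ 2 * (1 + x ^ 2 / 9) := by
    unfold cc zx zy n1 n2; ring
  have b3 : 49 / 100 ≤ A.p x * (1 + x ^ 2 / 9) - x / 3 := by nlinarith [sq_nonneg x]
  have b4 : (49 / 100) ^ 2 ≤ (A.p x * (1 + x ^ 2 / 9) - x / 3) ^ 2 :=
    pow_le_pow_left₀ (by norm_num) b3 2
  have b5 := mul_le_mul h5 b4 (by norm_num) (by linarith)
  refine ⟨h6, hn2, ?_, ?_⟩
  · have c1 : -(1 / 5 * (10 / 9)) ≤ A.p1 x * (1 + x ^ 2 / 9) := by nlinarith [sq_nonneg x]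
    have c2 : (83 / 100) ^ 2 ≤ A.p x ^ 2 := pow_le_pow_left₀ (by norm_num) h1 2
    have c3 : A.p x ^ 2 ≤ A.p x ^ 2 * (1 + x ^ 2 / 9) := by nlinarith [sq_nonneg x]
    rw [e2]; linarith
  · have c1 : A.n1 x ^ 2 ≤ (3 / 5) ^ 2 := pow_le_pow_left₀ h6.le hn1' 2
    have c2 : A.n2 x ^ 2 ≤ (93 / 100) ^ 2 := pow_le_pow_left₀ hn2.le hn2' 2
    rw [e1]; linarith

lemma support {x z : ℝ} (hx : x ∈ II) (hz : z ∈ II) :
    A.n1 x * A.zx z + A.n2 x * A.zy z ≤ A.cc x := by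
  obtain ⟨h1, h2, h3, -⟩ := A.n_bounds hx
  have hT := taylor_of_deriv (by norm_num) A.der A.lip hx hz
  set T := A.w z - A.w x - A.s x * (z - x) with hTd
  have hw := A.bw x hx
  have hs := A.bs x hx
  have ax : |x| ≤ 1 := abs_le.2 hx
  have az : |z| ≤ 1 := abs_le.2 hz
  have e : Df z * (A.cc x - (A.n1 x * A.zx z + A.n2 x * A.zy z)) =
      (z - x) ^ 2 * (A.cc x / 36) +
      A.n1 x * ((z - x) ^ 2 * (1 / 36 + (2 / 3 + (z + x) / 6 + (z ^ 2 + z * x + x ^ 2) / 54) * A.s x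
        + (1 / 6 + (z + 2 * x) / 54) * A.w x) + (2 * z / 3 * Df z) * T) +
      A.n2 x * ((z - x) ^ 2 * (1 / 36 + (-(1 / 4) + (z + x) / 12 + (z ^ 2 + z * x + x ^ 2) / 36
        + (z ^ 3 + z ^ 2 * x + z * x ^ 2 + x ^ 3) / 324) * A.s x
        + (1 / 12 + (z + 2 * x) / 36 + (z ^ 2 + 2 * z * x + 3 * x ^ 2) / 324) * A.w x)
        - ((1 - z ^ 2 / 9) * Df z) * T) := by
    have k1 := Df_ps x
    have k2 := Df_ps1 x
    have k3 := Df_ps z
    have hc : A.cc x = A.n1 x * A.zx x + A.n2 x * A.zy x := rfl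
    have hn : A.n1 x * (2 / 3 * A.p x + 2 / 3 * x * A.p1 x) =
      A.n2 x * (1 / 3 + A.p1 x * (1 - x ^ 2 / 9) - 2 / 9 * x * A.p x) := mul_comm _ _
    generalize A.cc x = c at *
    generalize A.n1 x = n1 at *
    generalize A.n2 x = n2 at *
    simp only [zx, zy, p, p1, hTd] at hc hn ⊢
    simp only [Df] at k1 k2 k3 ⊢
    linear_combination (2 * n1 * z / 3 - n2 * (1 - z ^ 2 / 9)) * k3
      + ((1 + x / 4 + x ^ 2 / 36) + (1 / 4 + x / 18) * (z - x)) * hc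
      + (1 + x / 4 + x ^ 2 / 36) * (z - x) * hn
      - ((2 * n1 * x / 3 - n2 * (1 - x ^ 2 / 9)) + (2 * n1 / 3 + 2 * n2 * x / 9) * (z - x)) * k1
      - (2 * n1 * x / 3 - n2 * (1 - x ^ 2 / 9)) * (z - x) * k2
  have hDz : |Df z| ≤ 2 := by
    rw [abs_of_pos (Df_pos z)]; unfold Df; nlinarith [hz.1, hz.2]
  have m2 : ∀ a b : ℝ, |a| ≤ 1 → |b| ≤ 1 → -1 ≤ a * b ∧ a * b ≤ 1 := fun a b ha hb =>
    abs_le.1 (by simpa using abs_mul_le' ha hb)
  have zz := m2 z z az az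
  have zx := m2 z x az ax
  have xx := m2 x x ax ax
  have zzz := m2 _ z (abs_le.2 zz) az
  have zzx := m2 _ x (abs_le.2 zz) ax
  have zxx := m2 _ x (abs_le.2 zx) ax
  have xxx := m2 _ x (abs_le.2 xx) ax
  have q1 : |2 / 3 + (z + x) / 6 + (z ^ 2 + z * x + x ^ 2) / 54| ≤ 2 := by
    rw [abs_le]; constructor <;> nlinarith [hx.1, hx.2, hz.1, hz.2]
  have q2 : |1 / 6 + (z + 2 * x) / 54| ≤ 2 := by
    rw [abs_le]; constructor <;> linarith [hx.1, hx.2, hz.1, hz.2]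
  have q3 : |-(1 / 4) + (z + x) / 12 + (z ^ 2 + z * x + x ^ 2) / 36
      + (z ^ 3 + z ^ 2 * x + z * x ^ 2 + x ^ 3) / 324| ≤ 2 := by
    rw [abs_le]; constructor <;> nlinarith [hx.1, hx.2, hz.1, hz.2]
  have q4 : |1 / 12 + (z + 2 * x) / 36 + (z ^ 2 + 2 * z * x + 3 * x ^ 2) / 324| ≤ 2 := by
    rw [abs_le]; constructor <;> nlinarith [hx.1, hx.2, hz.1, hz.2]
  have q5 : |2 * z / 3| ≤ 1 := by
    rw [abs_le]; constructor <;> linarith [hz.1, hz.2]
  have q6 : |1 - z ^ 2 / 9| ≤ 1 := by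
    rw [abs_le]; constructor <;> nlinarith
  have r1 := (abs_le.1 (abs_mul_le' q1 hs)).1
  have r2 := (abs_le.1 (abs_mul_le' q2 hw)).1
  have r3 := (abs_le.1 (abs_mul_le' q3 hs)).1
  have r4 := (abs_le.1 (abs_mul_le' q4 hw)).1
  have r5 := (abs_le.1 (abs_mul_le' (abs_mul_le' q5 hDz) hT)).1
  have r6 := (abs_le.1 (abs_mul_le' (abs_mul_le' q6 hDz) hT)).2
  have hd := sq_nonneg (z - x)
  have : 0 ≤ Df z * (A.cc x - (A.n1 x * A.zx z + A.n2 x * A.zy z)) := by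
    rw [e]
    refine add_nonneg (add_nonneg (by positivity) (mul_nonneg h1.le ?_)) (mul_nonneg h2.le ?_)
    · have := mul_le_mul_of_nonneg_left (show 1 / 100 ≤ 1 / 36 + (2 / 3 + (z + x) / 6 +
        (z ^ 2 + z * x + x ^ 2) / 54) * A.s x + (1 / 6 + (z + 2 * x) / 54) * A.w x by linarith) hd
      linarith
    · have := mul_le_mul_of_nonneg_left (show 1 / 100 ≤ 1 / 36 + (-(1 / 4) + (z + x) / 12 +
        (z ^ 2 + z * x + x ^ 2) / 36 + (z ^ 3 + z ^ 2 * x + z * x ^ 2 + x ^ 3) / 324) * A.s x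
        + (1 / 12 + (z + 2 * x) / 36 + (z ^ 2 + 2 * z * x + 3 * x ^ 2) / 324) * A.w x by
          linarith) hd
      linarith
  have := nonneg_of_mul_nonneg_right this (Df_pos z)
  linarith

lemma p_l : A.p (-1) = 33 / 28 := by unfold p ps Df; rw [A.tl]; norm_num
lemma p_r : A.p 1 = 39 / 46 := by unfold p ps Df; rw [A.tr]; norm_num
lemma zx_l : A.zx (-1) = 25 / 14 := by unfold zx; rw [p_l]; norm_num
lemma zy_l : A.zy (-1) = 5 / 7 := by unfold zy; rw [p_l]; norm_num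
lemma zx_r : A.zx 1 = 10 / 23 := by unfold zx; rw [p_r]; norm_num
lemma zy_r : A.zy 1 = 25 / 23 := by unfold zy; rw [p_r]; norm_num

lemma box {x : ℝ} (hx : x ∈ II) : 10 / 23 ≤ A.zx x ∧ A.zx x ≤ 25 / 14 ∧ 5 / 7 ≤ A.zy x ∧
    A.zy x ≤ 25 / 23 := by
  have hl' : (-1 : ℝ) ∈ II := left_mem_Icc.2 II_le
  have hr' : (1 : ℝ) ∈ II := right_mem_Icc.2 II_le
  have d1 : ∀ x ∈ II, HasDerivWithinAt (fun x => -A.zx x) (A.n2 x) II x := fun x hx => by
    have := (((((hasDerivWithinAt_id x II).div_const 3).const_mul 2).fun_mul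
      (A.dp hx)).const_sub 1).fun_neg
    exact this.congr_deriv (by simp only [n2, id]; ring)
  have d2 : ∀ x ∈ II, HasDerivWithinAt A.zy (A.n1 x) II x := fun x hx => by
    have := ((hasDerivWithinAt_id x II).div_const 3).fun_add ((A.dp hx).fun_mul
      ((((hasDerivWithinAt_id x II).div_const 3).fun_pow 2).const_sub 1))
    exact this.congr_deriv (by simp only [n1, id]; norm_num; ring)
  have m1 := monotoneOn_of_hasDerivWithinAt_nonneg (convex_Icc _ _)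
    (fun x hx => (d1 x hx).continuousWithinAt)
    (fun x hx => (d1 x (interior_subset hx)).mono interior_subset)
    (fun x hx => (A.n_bounds (interior_subset hx)).2.1.le)
  have m2 := monotoneOn_of_hasDerivWithinAt_nonneg (convex_Icc _ _)
    (fun x hx => (d2 x hx).continuousWithinAt)
    (fun x hx => (d2 x (interior_subset hx)).mono interior_subset)
    (fun x hx => (A.n_bounds (interior_subset hx)).1.le)
  have a1 := m1 hl' hx hx.1
  have a2 := m1 hx hr' hx.2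
  have a3 := m2 hl' hx hx.1
  have a4 := m2 hx hr' hx.2
  simp only [zx_l, zx_r, zy_l, zy_r] at a1 a2 a3 a4
  exact ⟨by linarith, by linarith, a3, a4⟩

lemma exists_a {a : ℝ} (h1 : 11 / 13 ≤ a) (h2 : a ≤ 13 / 11) :
    ∃ x ∈ II, 1 / A.p x - x / 3 = a := by
  have hc : ContinuousOn (fun x => 1 / A.p x - x / 3) II :=
    (continuousOn_const.div (fun x hx => (A.dp hx).continuousWithinAt)
      fun x hx => by linarith [(A.p_bounds hx).1]).sub (by fun_prop)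
  have := intermediate_value_Icc' II_le hc (show a ∈ _ by
    simp only [p_l, p_r]
    constructor <;> linarith)
  exact this

end Arc

end Pool.Agent.Lib.MP_9cddd8_gt
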