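import Mathlib
import Pool.Agent.Lib.MP_9cddd8_gt.Inv

/-!
Difference estimates, barriers and the nested fixed point argument.
-/

set_option autoImplicit false

namespace Pool.Agent.Lib.MP_9cddd8_gt

open Set Filter Topology Asymptotics

namespace Ctx

variable {C : Ctx}

lemma diff {P1 s1 P2 s2 Q1 Q2 P1' P2' : ℝ → ℝ} (h1 : C.Good P1 s1) (h2 : C.Good P2 s2)
    (t1 : C.Step Q1 P1 P1') (t2 : C.Step Q2 P2 P2') {d : ℝ} (hd : ∀ x ∈ II, |Q1 x - Q2 x| ≤ d)
    {x1 : ℝ} (hx1 : x1 ∈ II) :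
    (1 + C.ε * C.c (C.R P1 x1)) * |P1' (C.R P1 x1) - P2' (C.R P1 x1)| ≤
      (1 - C.ε * C.V1 x1 + 9 * C.ε * C.η) * |P1 x1 - P2 x1| + C.ε * (C.Cb * d) := by
  obtain ⟨hy, e1⟩ := t1 x1 hx1
  obtain ⟨x2, hx2, hR⟩ := h2.surj hy
  have e2 := (t2 x2 hx2).2
  rw [hR] at e2
  have hε := C.pε
  have hη := C.pη
  have hC := C.pC
  have hεC := εC_le (C := C)
  have hη1 := η_le (C := C)
  have hm1 := m1C_le (C := C)
  set y := C.R P1 x1 with hyd
  set δ := |P1 x1 - P2 x1| with hδ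
  have hδ0 : 0 ≤ δ := abs_nonneg _
  have hx : x1 - x2 = C.ε * (C.H x2 (P2 x2) - C.H x1 (P1 x1)) := by
    simp only [hyd, R] at hR; linarith
  have b1 := h1.box0 hx1
  have b2 := h2.box0 hx2
  have hx0 : |x2 - x1| ≤ 2 * C.ε * C.Cb := by
    rw [abs_sub_comm, hx]
    have := abs_mul_le' (abs_of_pos hε).le ((abs_sub _ _).trans
      (add_le_add (C.bHK x2 hx2 _ b2).1 (C.bHK x1 hx1 _ b1).1))
    linarith
  have hH := seg C.dH hx1 hx2 b1 b2 (A := 2 * C.Cb) (B := C.Cb) (b := 0) fun x hx _ w hw => by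
    obtain ⟨-, k1, k2, -⟩ := C.bHK x hx w hw
    have k3 := (C.bd x hx).1
    refine ⟨?_, by rwa [sub_zero]⟩
    rw [abs_le] at k1 k3 ⊢
    constructor <;> linarith
  have hK := seg C.dK hx1 hx2 b1 b2 (A := C.η) (B := 2 * C.η) (b := - C.V1 x1)
    fun x hx hxx w hw => by
      obtain ⟨-, -, -, k1, k2⟩ := C.bHK x hx w hw
      have k3 := C.uV1 x hx x1 hx1 (hxx.trans hx0)
      refine ⟨k1, ?_⟩
      rw [abs_le] at k2 k3 ⊢
      constructor <;> linarith
  have hP := h2.lip1 hx1 hx2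
  set X := |x2 - x1| with hX
  have hX0 : 0 ≤ X := abs_nonneg _
  have hm1C : C.m1 * C.Cb ≤ 1 := by
    have := C.pm1
    nlinarith
  have hP' : |P2 x2 - P2 x1| ≤ X := hP.trans (mul_le_of_le_one_left hX0 hm1C)
  have hW : |P2 x2 - P1 x1| ≤ δ + X := by
    have : P2 x2 - P1 x1 = (P2 x2 - P2 x1) - (P1 x1 - P2 x1) := by ring
    rw [this]
    exact (abs_sub _ _).trans (by linarith)
  have hXδ : X ≤ 2 * C.ε * C.Cb * δ := by
    have k1 : X ≤ C.ε * (2 * C.Cb * X + C.Cb * |P2 x2 - P1 x1|) := by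
      rw [zero_mul, sub_zero] at hH
      have := abs_mul_le' (abs_of_pos hε).le hH
      rwa [← hx, abs_sub_comm x1] at this
    have k2 := mul_le_mul_of_nonneg_left hW (show 0 ≤ C.ε * C.Cb by positivity)
    have k3 := mul_le_mul_of_nonneg_right (show C.ε * C.Cb ≤ 1 / 40 by linarith) hX0
    have k4 : 0 ≤ C.ε * C.Cb * δ := by positivity
    nlinarith
  have hXδ' : X ≤ δ := by
    have := mul_le_mul_of_nonneg_right (show 2 * C.ε * C.Cb ≤ 1 by linarith) hδ0
    linarith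
  obtain ⟨-, -, o1, o2⟩ := one_sub_nonneg (C := C) hx1
  have hden : 0 < 1 + C.ε * C.c y := by linarith [den_pos (C := C) hy]
  have e : (1 + C.ε * C.c y) * (P1' y - P2' y) = (1 - C.ε * C.V1 x1) * (P1 x1 - P2 x1)
      - (1 - C.ε * C.V1 x1) * (P2 x2 - P2 x1)
      - C.ε * (C.Kf x2 (P2 x2) - C.Kf x1 (P1 x1) - -C.V1 x1 * (P2 x2 - P1 x1))
      - C.ε * (C.c (-y) * (Q1 (-y) - Q2 (-y))) := by linear_combination e1 - e2
  rw [← abs_of_pos hden, ← abs_mul, e]
  have a1 : |(1 - C.ε * C.V1 x1) * (P1 x1 - P2 x1)| = (1 - C.ε * C.V1 x1) * δ := by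
    rw [abs_mul, abs_of_nonneg o1]
  have a2 : |(1 - C.ε * C.V1 x1) * (P2 x2 - P2 x1)| ≤ 4 * C.ε * C.η * δ := by
    refine (abs_mul_le' (show |1 - C.ε * C.V1 x1| ≤ 2 by rwa [abs_of_nonneg o1]) hP).trans ?_
    have k1 := mul_le_mul_of_nonneg_left hXδ (show 0 ≤ C.m1 * C.Cb by have := C.pm1; positivity)
    have k2 := mul_le_mul_of_nonneg_right hm1 (show 0 ≤ C.ε * δ by positivity)
    nlinarith
  have a3 : |C.ε * (C.Kf x2 (P2 x2) - C.Kf x1 (P1 x1) - -C.V1 x1 * (P2 x2 - P1 x1))|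
      ≤ C.ε * (5 * C.η * δ) := by
    refine abs_mul_le' (abs_of_pos hε).le (hK.trans ?_)
    nlinarith
  have a4 : |C.ε * (C.c (-y) * (Q1 (-y) - Q2 (-y)))| ≤ C.ε * (C.Cb * d) :=
    abs_mul_le' (abs_of_pos hε).le (abs_mul_le' (C.bd _ (neg_mem_II hy)).2.1
      (hd _ (neg_mem_II hy)))
  refine (abs_sub _ _).trans ?_
  refine (add_le_add ((abs_sub _ _).trans (add_le_add (abs_sub _ _) a3)) a4).trans ?_
  rw [a1]
  linarith

lemma good_closed : IsClosed {a : (ℝ → ℝ) × (ℝ → ℝ) | C.Good a.1 a.2} := by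
  have e : {a : (ℝ → ℝ) × (ℝ → ℝ) | C.Good a.1 a.2} =
      (⋂ x ∈ II, ⋂ z ∈ II, {a | |a.1 z - a.1 x - a.2 x * (z - x)| ≤ C.m2 * C.Cb * (z - x) ^ 2}) ∩
      (⋂ x ∈ II, ⋂ z ∈ II, ⋂ _ : x ≤ z, {a | |a.2 z - a.2 x| ≤ C.m2 * (C.MM z - C.MM x)}) ∩
      (⋂ x ∈ II, {a | |a.1 x| ≤ C.m0 * C.om x}) ∩ (⋂ x ∈ II, {a | |a.2 x| ≤ C.m1 * C.M1 x}) ∩
      {a | a.1 (-1) = 0} ∩ {a | a.1 1 = 0} := by
    ext a
    simp only [mem_inter_iff, mem_iInter, mem_ofPred_eq]
    exact ⟨fun h => ⟨⟨⟨⟨⟨h.tay, h.lip⟩, h.b0⟩, h.b1⟩, h.tl⟩, h.tr⟩,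
      fun h => ⟨h.1.1.1.1.1, h.1.1.1.1.2, h.1.1.1.2, h.1.1.2, h.1.2, h.2⟩⟩
  rw [e]
  refine IsClosed.inter (IsClosed.inter (IsClosed.inter (IsClosed.inter (IsClosed.inter ?_ ?_) ?_)
    ?_) ?_) ?_
  · exact isClosed_biInter fun x _ => isClosed_biInter fun z _ =>
      isClosed_le (by fun_prop) (by fun_prop)
  · exact isClosed_biInter fun x _ => isClosed_biInter fun z _ => isClosed_iInter fun _ =>
      isClosed_le (by fun_prop) (by fun_prop)
  · exact isClosed_biInter fun x _ => isClosed_le (by fun_prop) (by fun_prop)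
  · exact isClosed_biInter fun x _ => isClosed_le (by fun_prop) (by fun_prop)
  · exact isClosed_eq (by fun_prop) (by fun_prop)
  · exact isClosed_eq (by fun_prop) (by fun_prop)

lemma abs_comb {a b u v B : ℝ} (ha : 0 ≤ a) (hb : 0 ≤ b) (hab : a + b = 1) (hu : |u| ≤ B)
    (hv : |v| ≤ B) : |a * u + b * v| ≤ B := by
  have h1 := abs_mul_le' (abs_of_nonneg ha).le hu
  have h2 := abs_mul_le' (abs_of_nonneg hb).le hv
  have h3 : a * B + b * B = B := by rw [← add_mul, hab, one_mul]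
  exact (abs_add_le _ _).trans (by linarith)

lemma good_convex : Convex ℝ {a : (ℝ → ℝ) × (ℝ → ℝ) | C.Good a.1 a.2} := by
  intro p hp q hq a b ha hb hab
  refine ⟨fun x hx z hz => ?_, fun x hx z hz hxz => ?_, fun x hx => ?_, fun x hx => ?_, ?_, ?_⟩
  · have := abs_comb ha hb hab (hp.tay x hx z hz) (hq.tay x hx z hz)
    convert this using 2
    simp; ring
  · have := abs_comb ha hb hab (hp.lip x hx z hz hxz) (hq.lip x hx z hz hxz)
    convert this using 2
    simp; ring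
  · simpa using abs_comb ha hb hab (hp.b0 x hx) (hq.b0 x hx)
  · simpa using abs_comb ha hb hab (hp.b1 x hx) (hq.b1 x hx)
  · simp [hp.tl, hq.tl]
  · simp [hp.tr, hq.tr]

lemma Good.congr {P s P' s' : ℝ → ℝ} (h : C.Good P s) (h1 : EqOn P P' II) (h2 : EqOn s s' II) :
    C.Good P' s' := by
  refine ⟨fun x hx z hz => ?_, fun x hx z hz hxz => ?_, fun x hx => ?_, fun x hx => ?_, ?_, ?_⟩
  · rw [← h1 hx, ← h1 hz, ← h2 hx]; exact h.tay x hx z hz
  · rw [← h2 hx, ← h2 hz]; exact h.lip x hx z hz hxz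
  · rw [← h1 hx]; exact h.b0 x hx
  · rw [← h2 hx]; exact h.b1 x hx
  · rw [← h1 (left_mem_Icc.2 II_le)]; exact h.tl
  · rw [← h1 (right_mem_Icc.2 II_le)]; exact h.tr

lemma good_zero : C.Good 0 0 := by
  have hC := C.pC
  have h0 := C.pm0
  have h1 := C.pm1
  have h2 := C.pm2
  refine ⟨fun x hx z hz => ?_, fun x hx z hz hxz => ?_, fun x hx => ?_, fun x hx => ?_, rfl, rfl⟩
  · simp only [Pi.zero_apply, sub_self, zero_mul, abs_zero]; positivity
  · simp only [Pi.zero_apply, sub_self, abs_zero]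
    have := monotoneOn_of_hasDerivWithinAt_nonneg (convex_Icc _ _)
      (fun x hx => (C.dMM x hx).continuousWithinAt)
      (fun x hx => (C.dMM x (interior_subset hx)).mono interior_subset)
      (fun x hx => (C.pμ.trans_le (C.lb x (interior_subset hx)).2.2).le) hx hz hxz
    exact mul_nonneg h2.le (sub_nonneg.2 this)
  · simp only [Pi.zero_apply, abs_zero]
    exact (mul_pos h0 (C.pμ.trans_le (C.lb x hx).1)).le
  · simp only [Pi.zero_apply, abs_zero]
    exact (mul_pos h1 (C.pμ.trans_le (C.lb x hx).2.1)).le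

lemma Good.bounds {P s : ℝ → ℝ} (h : C.Good P s) :
    (∀ x ∈ II, ∀ z ∈ II, |P x - P z| ≤ (C.m0 + C.m1 + C.m2) * C.Cb * |x - z| ∧
      |s x - s z| ≤ (C.m0 + C.m1 + C.m2) * C.Cb * |x - z|) ∧
    ∀ x ∈ II, |P x| ≤ (C.m0 + C.m1 + C.m2) * C.Cb ∧ |s x| ≤ (C.m0 + C.m1 + C.m2) * C.Cb := by
  have hC := C.pC
  have h0 : 0 < C.m0 * C.Cb := by have := C.pm0; positivity
  have h1 : 0 < C.m1 * C.Cb := by have := C.pm1; positivity
  have h2 : 0 < C.m2 * C.Cb := by have := C.pm2; positivity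
  refine ⟨fun x hx z hz => ⟨(h.lip1 hz hx).trans ?_, (h.lip2 hz hx).trans ?_⟩,
    fun x hx => ⟨(h.box0 hx).trans (by linarith), (h.box1 hx).trans (by linarith)⟩⟩
  · exact mul_le_mul_of_nonneg_right (by linarith) (abs_nonneg _)
  · exact mul_le_mul_of_nonneg_right (by linarith) (abs_nonneg _)

lemma Step.congr {Q P P' P'' : ℝ → ℝ} (he : EqOn P' P'' II) (h : C.Step Q P P') :
    C.Step Q P P'' := fun x hx => ⟨(h x hx).1, by rw [← he (h x hx).1]; exact (h x hx).2⟩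

theorem inner_exists {Q q : ℝ → ℝ} (hQ : C.Good Q q) (hE : C.Extra Q) :
    ∃ P s, C.Good P s ∧ C.Step Q P P := by
  obtain ⟨a, ha, h⟩ := fix_fun {a : (ℝ → ℝ) × (ℝ → ℝ) | C.Good a.1 a.2} good_closed good_convex
    ⟨(0, 0), good_zero⟩ (fun a ha b h1 h2 => Good.congr ha h1 h2) ((C.m0 + C.m1 + C.m2) * C.Cb)
    (fun a ha => (Good.bounds ha).1) (fun a ha => (Good.bounds ha).2) (C.Step Q)
    (fun _ _ _ he h => Step.congr he h)
    (fun a ha => by
      obtain ⟨P', s', h1, h2⟩ := step_exists ha hQ hE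
      exact ⟨(P', s'), h1, h2⟩) 3
    (fun a ha a' ha' b _ b' _ t1 t2 d hd y hy => by
      obtain ⟨x, hx, rfl⟩ := Good.surj ha hy
      have h1 := diff ha ha' t1 t2 (d := 0) (by simp) hx
      have h2 := den_pos (C := C) hy
      obtain ⟨-, -, o1, o2⟩ := one_sub_nonneg (C := C) hx
      have h3 : 9 * C.ε * C.η ≤ 1 := by
        have := εC_le (C := C)
        have := η_le (C := C)
        have := C.pC
        have := C.pε
        have := C.pη
        have : C.ε ≤ 1 / 40 := by nlinarith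
        nlinarith
      have h4 := hd x hx
      have h5 := abs_nonneg (a.1 x - a'.1 x)
      have h6 := abs_nonneg (b.1 (C.R a.1 x) - b'.1 (C.R a.1 x))
      nlinarith)
  exact ⟨a.1, a.2, ha, h⟩

theorem inner_lip {P1 s1 P2 s2 Q1 Q2 : ℝ → ℝ} (h1 : C.Good P1 s1) (h2 : C.Good P2 s2)
    (t1 : C.Step Q1 P1 P1) (t2 : C.Step Q2 P2 P2) {d : ℝ} (hd : ∀ x ∈ II, |Q1 x - Q2 x| ≤ d)
    {y : ℝ} (hy : y ∈ II) : |P1 y - P2 y| ≤ 2 * C.Cb / C.μ * C.Cb * d := by
  have hμ := C.pμ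
  have hε := C.pε
  have hη := C.pη
  have hC := C.pC
  have hd0 : 0 ≤ d := (abs_nonneg _).trans (hd y hy)
  have := maxp isCompact_Icc (W := fun y => P1 y - P2 y) (h1.cont.sub h2.cont) C.com
    (fun x hx => hμ.trans_le (C.lb x hx).1) (S := 2 * C.Cb / C.μ * d) (by
      intro y hy
      right
      obtain ⟨x, hx, rfl⟩ := h1.surj hy
      obtain ⟨-, -, o1, -⟩ := one_sub_nonneg (C := C) hx
      refine ⟨x, hx, 1 + C.ε * C.c (C.R P1 x), 1 - C.ε * C.V1 x + 9 * C.ε * C.η, C.ε * C.μ / 2,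
        by positivity, by positivity, ?_, ?_⟩
      · refine (diff h1 h2 t1 t2 hd hx).trans (le_of_eq ?_)
        field_simp
      · have k1 := (C.disc x hx _ (h1.box0 hx) _ hy rfl).1
        have k2 := mul_le_mul_of_nonneg_left (C.bd x hx).2.2.2.2.2.2.1
          (show 0 ≤ C.ε * C.η by positivity)
        have k3 := mul_le_mul_of_nonneg_left C.n1 hε.le
        have k4 : 0 < C.ε * C.η * C.Cb := by positivity
        nlinarith) y hy
  refine this.trans ?_
  have := mul_le_mul_of_nonneg_left (C.bd y hy).2.2.2.2.2.2.1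
    (show 0 ≤ 2 * C.Cb / C.μ * d by positivity)
  linarith

theorem barrier_right {P s Q : ℝ → ℝ} (h : C.Good P s) (t : C.Step Q P P) :
    ∀ x ∈ Icc (0 : ℝ) 1, |P x - P 0 * C.φ x| ≤ C.S * C.om x := by
  have hμ := C.pμ
  have hε := C.pε
  have hη := C.pη
  have hC := C.pC
  have hsub : Icc (0 : ℝ) 1 ⊆ II := Icc_subset_Icc_left (by norm_num)
  have h0 : (0 : ℝ) ∈ II := by simp
  have hφc : ContinuousOn C.φ II := fun x hx => (C.dφ x hx).continuousWithinAt
  refine maxp isCompact_Icc (W := fun x => P x - P 0 * C.φ x)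
    ((h.cont.sub (continuousOn_const.mul hφc)).mono hsub) (C.com.mono hsub)
    (fun x hx => hμ.trans_le (C.lb x (hsub hx)).1) ?_
  intro y hy
  have hy' := hsub hy
  obtain ⟨x, hx, rfl⟩ := h.surj hy'
  have hB := h.box0 h0
  rcases le_total 0 x with hx0 | hx0
  · right
    obtain ⟨-, -, o1, -⟩ := one_sub_nonneg (C := C) hx
    obtain ⟨k1, k2, -⟩ := C.disc x hx _ (h.box0 hx) _ hy' rfl
    refine ⟨x, ⟨hx0, hx.2⟩, 1 + C.ε * C.c (C.R P x), 1 - C.ε * C.V1 x, C.ε * C.μ,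
      o1, by positivity, ?_, k1⟩
    have hc : C.c (-C.R P x) = 0 := C.cl _ (neg_mem_II hy') (by linarith [hy.1])
    have e1 := (t x hx).2
    rw [hc] at e1 k2
    have hden : 0 < 1 + C.ε * C.c (C.R P x) := by linarith [den_pos (C := C) hy']
    have e : (1 + C.ε * C.c (C.R P x)) * (P (C.R P x) - P 0 * C.φ (C.R P x)) =
        (1 - C.ε * C.V1 x) * (P x - P 0 * C.φ x) + C.ε * (C.Kf x (P x) + C.V1 x * P x)
        - P 0 * ((1 + C.ε * C.c (C.R P x)) * C.φ (C.R P x) - (1 - C.ε * C.V1 x) * C.φ x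
          - C.ε * (0 * C.φ (-C.R P x))) := by linear_combination e1
    rw [← abs_of_pos hden, ← abs_mul, e]
    have a1 := abs_mul_le' (abs_of_pos hε).le (h.kf hx)
    have a2 := abs_mul_le' hB k2
    refine (abs_sub _ _).trans ((add_le_add ((abs_add_le _ _).trans (add_le_add le_rfl a1))
      a2).trans ?_)
    rw [abs_mul, abs_of_nonneg o1]
    have := mul_le_mul_of_nonneg_left C.n6 hε.le
    linarith
  · left
    have hy1 : C.R P x ≤ C.ε * C.Cb := by
      refine (h.Rinv.1.monotoneOn hx h0 hx0).trans ?_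
      have := (le_abs_self _).trans (C.bHK 0 h0 _ hB).1
      simp only [R, zero_add]
      exact mul_le_mul_of_nonneg_left this hε.le
    set y := C.R P x
    have k1 := h.lip1 h0 hy'
    have k2 := mvt_frozen C.dφ h0 hy' (a := 0) (C := C.Cb) fun w hw _ => by
      rw [sub_zero]; exact (C.bd w hw).2.2.2.2.2.1
    rw [sub_zero, abs_of_nonneg hy.1] at k1
    rw [sub_zero, abs_of_nonneg hy.1, zero_mul, sub_zero, C.φ0] at k2
    have e : P y - P 0 * C.φ y = (P y - P 0) - P 0 * (C.φ y - 1) := by ring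
    simp only [e]
    refine (abs_sub _ _).trans ((add_le_add k1 (abs_mul_le' hB k2)).trans ?_)
    have k3 := mul_le_mul_of_nonneg_left hy1 (show 0 ≤ C.m1 * C.Cb + C.m0 * C.Cb * C.Cb by
      have := C.pm0; have := C.pm1; positivity)
    have k4 := mul_le_mul_of_nonneg_left (C.lb y hy').1 C.pS
    have k5 := C.n7
    linarith

theorem barrier_left {P s Q : ℝ → ℝ} (h : C.Good P s) (hE : C.Extra Q) (t : C.Step Q P P) :
    |P 0 + Q 0| ≤ 2 * C.K := by
  have hμ := C.pμ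
  have hε := C.pε
  have hη := C.pη
  have hC := C.pC
  have hsub : Icc (-1 : ℝ) 0 ⊆ II := Icc_subset_Icc_right (by norm_num)
  have h0 : (0 : ℝ) ∈ II := by simp
  have hφc : ContinuousOn C.φ II := fun x hx => (C.dφ x hx).continuousWithinAt
  set E := 2 * C.η * C.m0 * C.Cb + C.Cb ^ 2 * C.S + C.K * C.η with hE'
  have hE0 : 0 ≤ E := by
    have := C.pm0; have := C.pS; have := C.pK
    positivity
  have := maxp isCompact_Icc (W := fun x => P x + Q 0 * C.φ x)
    ((h.cont.add (continuousOn_const.mul hφc)).mono hsub) (C.com.mono hsub)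
    (fun x hx => hμ.trans_le (C.lb x (hsub hx)).1) (S := E / C.μ) (by
      intro y hy
      have hy' := hsub hy
      obtain ⟨x, hx, rfl⟩ := h.surj hy'
      right
      have hx0 : x ≤ 0 := by
        refine (h.Rinv.1.le_iff_le hx h0).1 (hy.2.trans ?_)
        simp only [R, zero_add]
        exact mul_nonneg hε.le (C.H0 _ (h.box0 h0))
      obtain ⟨-, -, o1, -⟩ := one_sub_nonneg (C := C) hx
      obtain ⟨k1, k2, -⟩ := C.disc x hx _ (h.box0 hx) _ hy' rfl
      refine ⟨x, ⟨hx.1, hx0⟩, 1 + C.ε * C.c (C.R P x), 1 - C.ε * C.V1 x, C.ε * C.μ,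
        o1, by positivity, ?_, k1⟩
      have e1 := (t x hx).2
      have hden : 0 < 1 + C.ε * C.c (C.R P x) := by linarith [den_pos (C := C) hy']
      have e : (1 + C.ε * C.c (C.R P x)) * (P (C.R P x) + Q 0 * C.φ (C.R P x)) =
          (1 - C.ε * C.V1 x) * (P x + Q 0 * C.φ x) + C.ε * (C.Kf x (P x) + C.V1 x * P x)
          + Q 0 * ((1 + C.ε * C.c (C.R P x)) * C.φ (C.R P x) - (1 - C.ε * C.V1 x) * C.φ x
            - C.ε * (C.c (-C.R P x) * C.φ (-C.R P x)))
          - C.ε * (C.c (-C.R P x) * (Q (-C.R P x) - Q 0 * C.φ (-C.R P x))) := by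
        linear_combination e1
      rw [← abs_of_pos hden, ← abs_mul, e]
      have a1 := abs_mul_le' (abs_of_pos hε).le (h.kf hx)
      have a2 := abs_mul_le' hE.1 k2
      have hn := neg_mem_II hy'
      have a3 := abs_mul_le' (abs_of_pos hε).le (abs_mul_le' (C.bd _ hn).2.1
        ((hE.2 _ ⟨by linarith [hy.2], hn.2⟩).trans
          (mul_le_mul_of_nonneg_left (C.bd _ hn).2.2.2.2.2.2.1 C.pS)))
      refine (abs_sub _ _).trans ((add_le_add ((abs_add_le _ _).trans (add_le_add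
        ((abs_add_le _ _).trans (add_le_add le_rfl a1)) a2)) a3).trans ?_)
      rw [abs_mul, abs_of_nonneg o1]
      have : E / C.μ * (C.ε * C.μ) = C.ε * E := by field_simp
      rw [this, hE']
      linarith) 0 (by simp)
  simp only [C.φ0, mul_one] at this
  refine this.trans ((mul_le_mul_of_nonneg_left (C.bd 0 h0).2.2.2.2.2.2.1 (by positivity)).trans ?_)
  rw [div_mul_eq_mul_div, div_le_iff₀ hμ]
  exact C.n8

theorem exists_fixed (C : Ctx) : ∃ P s, C.Good P s ∧ C.Step P P P := by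
  have hsub : Icc (0 : ℝ) 1 ⊆ II := Icc_subset_Icc_left (by norm_num)
  have h0 : (0 : ℝ) ∈ II := by simp
  obtain ⟨a, ha, P, s, h1, h2, h3⟩ := fix_fun
    ({a : (ℝ → ℝ) × (ℝ → ℝ) | C.Good a.1 a.2} ∩ {a | C.Extra a.1})
    (good_closed.inter (by
      have e : {a : (ℝ → ℝ) × (ℝ → ℝ) | C.Extra a.1} = {a | |a.1 0| ≤ C.K} ∩
          ⋂ x ∈ Icc (0 : ℝ) 1, {a | |a.1 x - a.1 0 * C.φ x| ≤ C.S * C.om x} := by
        ext a
        simp only [mem_inter_iff, mem_iInter, mem_ofPred_eq, Extra]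
      rw [e]
      exact (isClosed_le (by fun_prop) (by fun_prop)).inter
        (isClosed_biInter fun x _ => isClosed_le (by fun_prop) (by fun_prop))))
    (good_convex.inter (by
      intro p hp q hq a b ha hb hab
      refine ⟨by simpa using abs_comb ha hb hab hp.1 hq.1, fun x hx => ?_⟩
      have := abs_comb ha hb hab (hp.2 x hx) (hq.2 x hx)
      convert this using 2
      simp; ring))
    ⟨(0, 0), good_zero, by simpa using C.pK, fun x hx => by
      simpa using mul_nonneg C.pS (C.pμ.trans_le (C.lb x (hsub hx)).1).le⟩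
    (fun a ha b h1 h2 => ⟨Good.congr ha.1 h1 h2, by rw [← h1 h0]; exact ha.2.1, fun x hx => by
      rw [← h1 h0, ← h1 (hsub hx)]; exact ha.2.2 x hx⟩)
    ((C.m0 + C.m1 + C.m2) * C.Cb)
    (fun a ha => (Good.bounds ha.1).1) (fun a ha => (Good.bounds ha.1).2)
    (fun Q Q' => ∃ P s, C.Good P s ∧ C.Step Q P P ∧ ∀ x ∈ II, Q' x = 1 / 2 * Q x + 1 / 2 * P x)
    (fun _ _ _ he ⟨P, s, h1, h2, h3⟩ => ⟨P, s, h1, h2, fun x hx => by rw [← he hx]; exact h3 x hx⟩)
    (fun a ha => by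
      obtain ⟨P, s, h1, h2⟩ := inner_exists ha.1 ha.2
      refine ⟨(1 / 2 : ℝ) • a + (1 / 2 : ℝ) • (P, s), ⟨good_convex ha.1 (show (P, s) ∈ _ from h1)
        (by norm_num) (by norm_num) (by norm_num), ?_, fun x hx => ?_⟩,
        P, s, h1, h2, fun x _ => by simp⟩
      · have := barrier_left h1 ha.2 h2
        simp only [Prod.fst_add, Prod.smul_fst, Pi.add_apply, Pi.smul_apply, smul_eq_mul]
        rw [abs_le] at this ⊢
        constructor <;> linarith
      · have := abs_comb (a := 1 / 2) (b := 1 / 2) (by norm_num) (by norm_num) (by norm_num)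
          (ha.2.2 x hx) (barrier_right h1 h2 x hx)
        convert this using 2
        simp; ring)
    (1 / 2 + 1 / 2 * (2 * C.Cb / C.μ * C.Cb))
    (fun a _ a' _ b _ b' _ ⟨P1, s1, g1, t1, e1⟩ ⟨P2, s2, g2, t2, e2⟩ d hd y hy => by
      have k1 := inner_lip g1 g2 t1 t2 hd hy
      have k2 := hd y hy
      rw [e1 y hy, e2 y hy]
      rw [abs_le] at k1 k2 ⊢
      constructor <;> linarith)
  refine ⟨P, s, h1, fun x hx => ⟨(h2 x hx).1, ?_⟩⟩
  have := h3 _ (neg_mem_II (h2 x hx).1)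
  rw [(h2 x hx).2, show a.1 (-C.R P x) = P (-C.R P x) by linarith]

end Ctx

end Pool.Agent.Lib.MP_9cddd8_gt
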