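import Mathlib
import Pool.Agent.Lib.MP_9cddd8_gt.Fixed

/-!
From smooth data and supersolutions to an invariant curve.
-/

set_option autoImplicit false

namespace Pool.Agent.Lib.MP_9cddd8_gt

open Set Filter Topology Asymptotics

/-- derivative in the base variable -/
noncomputable def dX (F : (ℝ × ℝ) × ℝ → ℝ) (p : (ℝ × ℝ) × ℝ) : ℝ := fderiv ℝ F p ((0, 0), 1)

/-- derivative in the deviation -/
noncomputable def dW (F : (ℝ × ℝ) × ℝ → ℝ) (p : (ℝ × ℝ) × ℝ) : ℝ := fderiv ℝ F p ((0, 1), 0)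

/-- directional derivative -/
noncomputable def dD (G : ((ℝ × ℝ) × ℝ) × ℝ → ℝ) (v p : ((ℝ × ℝ) × ℝ) × ℝ) : ℝ := fderiv ℝ G p v

lemma has2 {F : (ℝ × ℝ) × ℝ → ℝ} {ε w x : ℝ} (h : DifferentiableAt ℝ F ((ε, w), x)) :
    HasFDerivAt (fun p : ℝ × ℝ => F ((ε, p.2), p.1))
      (L2 (dX F ((ε, w), x)) (dW F ((ε, w), x))) (x, w) := by
  have h1 : HasFDerivAt (fun p : ℝ × ℝ => (((ε, p.2), p.1) : (ℝ × ℝ) × ℝ)) _ (x, w) :=
    ((hasFDerivAt_const (𝕜 := ℝ) ε (x, w)).prodMk hasFDerivAt_snd).prodMk hasFDerivAt_fst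
  have := h.hasFDerivAt.comp (x, w) h1
  refine this.congr_fderiv ?_
  ext <;> simp [dX, dW]

lemma has3 {G : ((ℝ × ℝ) × ℝ) × ℝ → ℝ} {ε w s x : ℝ}
    (h : DifferentiableAt ℝ G (((ε, w), s), x)) :
    HasFDerivAt (fun p : ℝ × ℝ × ℝ => G (((ε, p.2.1), p.2.2), p.1))
      (L3 (dD G (((0, 0), 0), 1) (((ε, w), s), x)) (dD G (((0, 1), 0), 0) (((ε, w), s), x))
        (dD G (((0, 0), 1), 0) (((ε, w), s), x))) (x, w, s) := by
  have h1 : HasFDerivAt (fun p : ℝ × ℝ × ℝ => ((((ε, p.2.1), p.2.2), p.1) : ((ℝ × ℝ) × ℝ) × ℝ)) _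
      (x, w, s) :=
    (((hasFDerivAt_const (𝕜 := ℝ) ε (x, w, s)).prodMk (hasFDerivAt_snd.fst)).prodMk
      (hasFDerivAt_snd.snd)).prodMk hasFDerivAt_fst
  have := h.hasFDerivAt.comp (x, w, s) h1
  refine this.congr_fderiv ?_
  ext <;> simp [dD]

lemma cd_dX {F : (ℝ × ℝ) × ℝ → ℝ} {p : (ℝ × ℝ) × ℝ} (h : ContDiffAt ℝ 2 F p) :
    ContDiffAt ℝ 1 (dX F) p :=
  (h.fderiv_right (m := 1) (by norm_num)).clm_apply contDiffAt_const

lemma cd_dW {F : (ℝ × ℝ) × ℝ → ℝ} {p : (ℝ × ℝ) × ℝ} (h : ContDiffAt ℝ 2 F p) :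
    ContDiffAt ℝ 1 (dW F) p :=
  (h.fderiv_right (m := 1) (by norm_num)).clm_apply contDiffAt_const

lemma cont_dD {G : ((ℝ × ℝ) × ℝ) × ℝ → ℝ} {p : ((ℝ × ℝ) × ℝ) × ℝ} (h : ContDiffAt ℝ 1 G p)
    (v : ((ℝ × ℝ) × ℝ) × ℝ) : ContinuousAt (dD G v) p :=
  ((h.fderiv_right (m := 0) (by norm_num)).clm_apply contDiffAt_const).continuousAt

/-- slope increment as a function of all parameters -/
noncomputable def Sg (h k : (ℝ × ℝ) × ℝ → ℝ) (q : ((ℝ × ℝ) × ℝ) × ℝ) : ℝ :=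
  sgf q.1.1.1 (dX h (q.1.1, q.2)) (dW h (q.1.1, q.2)) (dX k (q.1.1, q.2)) (dW k (q.1.1, q.2)) q.1.2

lemma cd_Sg {h k : (ℝ × ℝ) × ℝ → ℝ} {x : ℝ} (hh : ContDiffAt ℝ 2 h ((0, 0), x))
    (hk : ContDiffAt ℝ 2 k ((0, 0), x)) : ContDiffAt ℝ 1 (Sg h k) (((0, 0), 0), x) := by
  have hπ : ContDiffAt ℝ 1 (fun q : ((ℝ × ℝ) × ℝ) × ℝ => (q.1.1, q.2)) (((0, 0), 0), x) := by
    fun_prop
  have h1 := ContDiffAt.comp (((0, 0), 0), x) (g := dX h) (cd_dX hh) hπ
  have h2 := ContDiffAt.comp (((0, 0), 0), x) (g := dW h) (cd_dW hh) hπ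
  have h3 := ContDiffAt.comp (((0, 0), 0), x) (g := dX k) (cd_dX hk) hπ
  have h4 := ContDiffAt.comp (((0, 0), 0), x) (g := dW k) (cd_dW hk) hπ
  have h5 : ContDiffAt ℝ 1 (fun q : ((ℝ × ℝ) × ℝ) × ℝ => q.1.2) (((0, 0), 0), x) := by fun_prop
  have h6 : ContDiffAt ℝ 1 (fun q : ((ℝ × ℝ) × ℝ) × ℝ => q.1.1.1) (((0, 0), 0), x) := by fun_prop
  exact ((h3.add (h4.mul h5)).sub (h5.mul (h1.add (h2.mul h5)))).div
    (contDiffAt_const.add (h6.mul (h1.add (h2.mul h5)))) (by simp)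

lemma ev_box2 {P : ℝ × ℝ → Prop} (h : ∀ᶠ y in 𝓝 ((0, 0) : ℝ × ℝ), P y) :
    ∀ᶠ r in 𝓝[>] (0 : ℝ), ∀ ε w, |ε| ≤ r → |w| ≤ r → P (ε, w) := by
  obtain ⟨δ, hδ, h⟩ := Metric.eventually_nhds_iff.1 h
  filter_upwards [Ioo_mem_nhdsGT hδ] with r hr ε w h1 h2
  apply h
  simp only [Prod.dist_eq, Real.dist_eq, sub_zero]
  exact max_lt (h1.trans_lt hr.2) (h2.trans_lt hr.2)

lemma ev_box3 {P : (ℝ × ℝ) × ℝ → Prop} (h : ∀ᶠ y in 𝓝 (((0, 0), 0) : (ℝ × ℝ) × ℝ), P y) :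
    ∀ᶠ r in 𝓝[>] (0 : ℝ), ∀ ε w s, |ε| ≤ r → |w| ≤ r → |s| ≤ r → P ((ε, w), s) := by
  obtain ⟨δ, hδ, h⟩ := Metric.eventually_nhds_iff.1 h
  filter_upwards [Ioo_mem_nhdsGT hδ] with r hr ε w s h1 h2 h3
  apply h
  simp only [Prod.dist_eq, Real.dist_eq, sub_zero]
  exact max_lt (max_lt (h1.trans_lt hr.2) (h2.trans_lt hr.2)) (h3.trans_lt hr.2)

lemma pick {P : ℝ → Prop} (h : ∀ᶠ t in 𝓝[>] (0 : ℝ), P t) : ∃ t, 0 < t ∧ P t := by
  have h0 : ∀ᶠ t in 𝓝[>] (0 : ℝ), 0 < t := self_mem_nhdsWithin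
  exact (h0.and h).exists

theorem abstract_main (h k : (ℝ × ℝ) × ℝ → ℝ)
    (V V1 c c1 c2 φ φ1 om om1 M1 M11 M2 M21 MM : ℝ → ℝ)
    (hh : ∀ x, |x| < 2 → ContDiffAt ℝ 2 h ((0, 0), x))
    (hk : ∀ x, |x| < 2 → ContDiffAt ℝ 2 k ((0, 0), x))
    (hV : ∀ x, |x| < 2 → h ((0, 0), x) = V x) (dV : ∀ x ∈ II, HasDerivAt V (V1 x) x)
    (k0 : ∀ x, |x| < 2 → k ((0, 0), x) = 0)
    (kw : ∀ x ∈ II, HasDerivAt (fun w => k ((0, w), x)) (-V1 x) 0)
    (thl : ∀ ε, h ((ε, 0), -1) = 0) (thr : ∀ ε, h ((ε, 0), 1) = 0)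
    (tkl : ∀ ε, k ((ε, 0), -1) = 0) (tkr : ∀ ε, k ((ε, 0), 1) = 0) (V0 : 0 < V 0)
    (dc : ∀ x ∈ II, HasDerivWithinAt c (c1 x) II x)
    (dc1 : ∀ x ∈ II, HasDerivWithinAt c1 (c2 x) II x) (cc2 : ContinuousOn c2 II)
    (c0 : ∀ x ∈ II, 0 ≤ c x) (cl : ∀ x ∈ II, x ≤ 0 → c x = 0)
    (dφ : ∀ x ∈ II, HasDerivWithinAt φ (φ1 x) II x) (cφ1 : ContinuousOn φ1 II) (φ0 : φ 0 = 1)
    (dom : ∀ x ∈ II, HasDerivWithinAt om (om1 x) II x) (com1 : ContinuousOn om1 II)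
    (dM1 : ∀ x ∈ II, HasDerivWithinAt M1 (M11 x) II x) (cM11 : ContinuousOn M11 II)
    (dM2 : ∀ x ∈ II, HasDerivWithinAt M2 (M21 x) II x) (cM21 : ContinuousOn M21 II)
    (dMM : ∀ x ∈ II, HasDerivWithinAt MM (M2 x) II x)
    (pom : ∀ x ∈ II, 0 < om x) (pM1 : ∀ x ∈ II, 0 < M1 x) (pM2 : ∀ x ∈ II, 0 < M2 x)
    (eφ : ∀ x ∈ II, V x * φ1 x + 1 * V1 x * φ x + c x * φ x = c (-x) * φ (-x))
    (iom : ∀ x ∈ II, 0 < V x * om1 x + 1 * V1 x * om x + c x * om x)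
    (iM1 : ∀ x ∈ II, 0 < V x * M11 x + 2 * V1 x * M1 x + c x * M1 x - c (-x) * M1 (-x))
    (iM2 : ∀ x ∈ II, 0 < V x * M21 x + 3 * V1 x * M2 x + c x * M2 x - c (-x) * M2 (-x))
    {m : ℝ} (hm : 0 < m) :
    ∃ ε, 0 < ε ∧ ε ≤ m ∧ ∃ P s : ℝ → ℝ, (∀ x ∈ II, HasDerivWithinAt P (s x) II x) ∧
      (∀ x ∈ II, |P x| ≤ m ∧ |s x| ≤ m) ∧ (∀ x ∈ II, ∀ z ∈ II, |s z - s x| ≤ m * |z - x|) ∧
      P (-1) = 0 ∧ P 1 = 0 ∧ ∀ x ∈ II, ∃ y ∈ II, y = x + ε * h ((ε, P x), x) ∧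
        P y * (1 + ε * c y) = P x + ε * k ((ε, P x), x) - ε * (c (-y) * P (-y)) := by
  have hI : ∀ x ∈ II, |x| < 2 := fun x hx => by
    rw [abs_lt]; constructor <;> linarith [hx.1, hx.2]
  have hO : ∀ x : ℝ, |x| < 2 → ∀ᶠ z in 𝓝 x, |z| < 2 := fun x hx =>
    (continuous_abs.continuousAt).eventually_lt_const hx
  have line : ∀ {F : (ℝ × ℝ) × ℝ → ℝ} {x : ℝ}, ContDiffAt ℝ 2 F ((0, 0), x) →
      HasDerivAt (fun z => F ((0, 0), z)) (dX F ((0, 0), x)) x ∧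
      HasDerivAt (fun w => F ((0, w), x)) (dW F ((0, 0), x)) 0 := by
    intro F x hF
    have h1 := has2 (hF.differentiableAt (by norm_num))
    constructor
    · have := h1.comp_hasDerivAt x ((hasDerivAt_id x).prodMk (hasDerivAt_const x (0 : ℝ)))
      exact this.congr_deriv (by simp)
    · have := h1.comp_hasDerivAt (0 : ℝ) ((hasDerivAt_const (0 : ℝ) x).prodMk (hasDerivAt_id 0))
      exact this.congr_deriv (by simp)
  have vhx : ∀ x ∈ II, dX h ((0, 0), x) = V1 x := fun x hx =>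
    (line (hh x (hI x hx))).1.unique ((dV x hx).congr_of_eventuallyEq
      ((hO x (hI x hx)).mono fun z hz => hV z hz))
  have vkx : ∀ x, |x| < 2 → dX k ((0, 0), x) = 0 := fun x hx =>
    (line (hk x hx)).1.unique ((hasDerivAt_const x (0 : ℝ)).congr_of_eventuallyEq
      ((hO x hx).mono fun z hz => k0 z hz))
  have vkw : ∀ x ∈ II, dW k ((0, 0), x) = -V1 x := fun x hx =>
    (line (hk x (hI x hx))).2.unique (kw x hx)
  have hS : ∀ x ∈ II, ContDiffAt ℝ 1 (Sg h k) (((0, 0), 0), x) := fun x hx =>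
    cd_Sg (hh x (hI x hx)) (hk x (hI x hx))
  have vS0 : ∀ x, |x| < 2 → Sg h k (((0, 0), 0), x) = 0 := fun x hx => by
    simp [Sg, sgf, vkx x hx]
  have vSx : ∀ x ∈ II, dD (Sg h k) (((0, 0), 0), 1) (((0, 0), 0), x) = 0 := fun x hx => by
    have h1 := (has3 ((hS x hx).differentiableAt (by norm_num))).comp_hasDerivAt x
      ((hasDerivAt_id x).prodMk (hasDerivAt_const x ((0 : ℝ), (0 : ℝ))))
    have h2 := h1.unique ((hasDerivAt_const x (0 : ℝ)).congr_of_eventuallyEq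
      ((hO x (hI x hx)).mono fun z hz => vS0 z hz))
    simpa using h2
  have vSs : ∀ x ∈ II, dD (Sg h k) (((0, 0), 1), 0) (((0, 0), 0), x) = -(2 * V1 x) :=
    fun x hx => by
    have h1 := (has3 ((hS x hx).differentiableAt (by norm_num))).comp_hasDerivAt (0 : ℝ)
      ((hasDerivAt_const (0 : ℝ) x).prodMk
        ((hasDerivAt_const (0 : ℝ) (0 : ℝ)).prodMk (hasDerivAt_id (0 : ℝ))))
    have h3 := ((((hasDerivAt_id (0 : ℝ)).const_mul (dW k ((0, 0), x))).const_add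
      (dX k ((0, 0), x))).fun_sub ((hasDerivAt_id (0 : ℝ)).fun_mul
        (((hasDerivAt_id (0 : ℝ)).const_mul (dW h ((0, 0), x))).const_add (dX h ((0, 0), x)))))
    have h2 := h1.unique (h3.congr_of_eventuallyEq (Eventually.of_forall fun t => by
      simp [Sg, sgf]))
    simp only [L3_apply, mul_zero, mul_one, zero_add, id, vkw x hx, vhx x hx] at h2
    linarith
  have onI : ∀ {Y : Type} [TopologicalSpace Y] {G : Y × ℝ → ℝ} {y : Y},
      (∀ x ∈ II, ContinuousAt G (y, x)) → ContinuousOn (fun x => G (y, x)) II := by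
    intro Y _ G y hG x hx
    exact (ContinuousAt.comp (g := G) (f := fun x => (y, x)) (hG x hx)
      (by fun_prop)).continuousWithinAt
  have ch : ∀ x ∈ II, ContinuousAt h ((0, 0), x) := fun x hx => (hh x (hI x hx)).continuousAt
  have ck : ∀ x ∈ II, ContinuousAt k ((0, 0), x) := fun x hx => (hk x (hI x hx)).continuousAt
  have chx : ∀ x ∈ II, ContinuousAt (dX h) ((0, 0), x) := fun x hx =>
    (cd_dX (hh x (hI x hx))).continuousAt
  have chw : ∀ x ∈ II, ContinuousAt (dW h) ((0, 0), x) := fun x hx =>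
    (cd_dW (hh x (hI x hx))).continuousAt
  have ckx : ∀ x ∈ II, ContinuousAt (dX k) ((0, 0), x) := fun x hx =>
    (cd_dX (hk x (hI x hx))).continuousAt
  have ckw : ∀ x ∈ II, ContinuousAt (dW k) ((0, 0), x) := fun x hx =>
    (cd_dW (hk x (hI x hx))).continuousAt
  have cV : ContinuousOn V II := fun x hx => (dV x hx).continuousAt.continuousWithinAt
  have cV1 : ContinuousOn V1 II := (onI chx).congr fun x hx => (vhx x hx).symm
  have cw : ∀ {f f' : ℝ → ℝ}, (∀ x ∈ II, HasDerivWithinAt f (f' x) II x) → ContinuousOn f II :=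
    fun hf x hx => (hf x hx).continuousWithinAt
  have cn : ∀ {f : ℝ → ℝ}, ContinuousOn f II → ContinuousOn (fun x => f (-x)) II :=
    fun hf => hf.comp continuous_neg.continuousOn fun x hx => neg_mem_II hx
  -- the big constant
  obtain ⟨C0, ⟨⟨⟨⟨⟨⟨⟨⟨⟨⟨⟨⟨B1, B2⟩, B3⟩, B4⟩, B5⟩, B6⟩, B7⟩, B8⟩, B9⟩, B10⟩, B11⟩, B12⟩, B0⟩⟩ :=
    (((((((((((((bdd cV).and (bdd cV1)).and (bdd (cw dc))).and (bdd (cw dc1))).and (bdd cc2)).and
      (bdd (cw dφ))).and (bdd cφ1)).and (bdd (cw dom))).and (bdd (cw dM1))).and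
      (bdd (cw dM2))).and (bdd (onI chw))).and
      (bdd (onI fun x hx => cont_dD (hS x hx) (((0, 1), 0), 0)))).and
      (eventually_ge_atTop 0)).exists
  set Cb := C0 + 1 with hCb
  have pC : 1 ≤ Cb := by linarith
  -- the margin
  obtain ⟨μ2, pμ2, ⟨⟨⟨⟨⟨L1, L2'⟩, L3'⟩, L4⟩, L5⟩, L6⟩⟩ := pick ((((((lowb (cw dom) pom).and
    (lowb (cw dM1) pM1)).and (lowb (cw dM2) pM2)).and
    (lowb (((cV.mul com1).add ((continuousOn_const.mul cV1).mul (cw dom))).add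
      ((cw dc).mul (cw dom))) iom)).and
    (lowb ((((cV.mul cM11).add ((continuousOn_const.mul cV1).mul (cw dM1))).add
      ((cw dc).mul (cw dM1))).sub ((cn (cw dc)).mul (cn (cw dM1)))) iM1)).and
    (lowb ((((cV.mul cM21).add ((continuousOn_const.mul cV1).mul (cw dM2))).add
      ((cw dc).mul (cw dM2))).sub ((cn (cw dc)).mul (cn (cw dM2)))) iM2))
  set μ := μ2 / 2 with hμ
  have pμ : 0 < μ := by positivity
  obtain ⟨m2, pm2, q1, q2⟩ := pick ((small_ev 1 one_pos).and (small_ev Cb hm))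
  obtain ⟨θ1, pθ1, q3⟩ := pick (small_ev (Cb ^ 2) (show 0 < μ / 4 by positivity))
  obtain ⟨θ2, pθ2, q4, q5⟩ := pick ((small_ev (Cb ^ 2) (show 0 < μ / 4 by positivity)).and
    (small_ev (Cb ^ 3) (show 0 < θ1 * μ by positivity)))
  obtain ⟨η, pη, ⟨⟨q6, q7⟩, q8⟩, q8'⟩ := pick ((((small_ev (40 * Cb) pμ).and
    (small_ev (3 * Cb) (show 0 < θ2 * μ by positivity))).and
    (small_ev (2 * Cb ^ 2) (show 0 < θ1 * μ / 2 by positivity))).and (small_ev 1 one_pos))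
  have hημ : η ≤ μ := by nlinarith
  obtain ⟨ζ, pζ, ⟨⟨⟨⟨D1, D2⟩, D3⟩, D4⟩, q9⟩, q10⟩ := pick ((((((consistency (c := c) 1 cV cV1 dom com1 pη).and
    (consistency (c := c) 1 cV cV1 dφ cφ1 pη)).and (consistency (c := c) 2 cV cV1 dM1 cM11 pη)).and
    (consistency (c := c) 3 cV cV1 dM2 cM21 pη)).and (small_ev 1 V0)).and (small_ev 1 one_pos))
  have evd : ∀ {F : (ℝ × ℝ) × ℝ → ℝ}, (∀ x, |x| < 2 → ContDiffAt ℝ 2 F ((0, 0), x)) →
      ∀ᶠ y in 𝓝 ((0, 0) : ℝ × ℝ), ∀ x ∈ II, DifferentiableAt ℝ F (y, x) := fun hF =>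
    tube_ev (P := fun p => DifferentiableAt ℝ _ p) fun x hx =>
      ((hF x (hI x hx)).eventually (by simp)).mono fun p hp => hp.differentiableAt (by norm_num)
  have evS : ∀ᶠ y in 𝓝 (((0, 0), 0) : (ℝ × ℝ) × ℝ), ∀ x ∈ II,
      DifferentiableAt ℝ (Sg h k) (y, x) :=
    tube_ev (P := fun p => DifferentiableAt ℝ _ p) fun x hx =>
      ((hS x hx).eventually (by simp)).mono fun p hp => hp.differentiableAt (by norm_num)
  obtain ⟨r1, pr1, T1, T2⟩ := pick ((ev_box2 (((((((evd hh).and (evd hk)).and (tube ch pζ)).and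
    (tube chx pη)).and (tube chw one_pos)).and (tube ckx pη)).and (tube ckw pη))).and
    (ev_box3 (((evS.and (tube (fun x hx => cont_dD (hS x hx) (((0, 0), 0), 1))
      (show 0 < η * m2 by positivity))).and
      (tube (fun x hx => cont_dD (hS x hx) (((0, 1), 0), 0)) one_pos)).and
      (tube (fun x hx => cont_dD (hS x hx) (((0, 0), 1), 0)) pη))))
  obtain ⟨m1, pm1, ⟨q11, q12⟩, q13⟩ := pick (((small_ev Cb pr1).and
    (small_ev (Cb ^ 2) (show 0 < η * m2 by positivity))).and (small_ev Cb hm))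
  obtain ⟨r2, pr2, T3⟩ := pick (ev_box3 (tube (fun x hx => (hS x hx).continuousAt)
    (show 0 < η * m1 by positivity)))
  obtain ⟨m0, pm0, ⟨⟨q14, q15⟩, q16⟩, q17⟩ := pick ((((small_ev Cb pr1).and (small_ev Cb pr2)).and
    (small_ev (Cb ^ 2) (show 0 < η * m1 by positivity))).and (small_ev Cb hm))
  obtain ⟨r3, pr3, T4⟩ := pick (ev_box2 (tube ck (show 0 < η * m0 by positivity)))
  obtain ⟨δ, pδ, U1⟩ := unif cV1 pη
  obtain ⟨ε, pε, ⟨⟨⟨⟨⟨⟨⟨q18, q19⟩, q20⟩, q21⟩, q22⟩, q23⟩, q24⟩, q25⟩⟩ := pick ((((((((small_ev 1 pr1).and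
    (small_ev 1 pr2)).and (small_ev 1 pr3)).and (small_ev 1 pζ)).and (small_ev 1 hm)).and
    (small_ev (Cb ^ 2) pη)).and (small_ev (2 * Cb) pδ)).and
    (small_ev (Cb * (m1 * Cb + m0 * Cb * Cb)) (show 0 < θ2 * m0 * μ by positivity)))
  rw [mul_one] at q1 q8' q9 q10 q18 q19 q20 q21 q22
  have e1 : |ε| ≤ r1 := by rwa [abs_of_pos pε]
  have e2 : |ε| ≤ r2 := by rwa [abs_of_pos pε]
  have e3 : |ε| ≤ r3 := by rwa [abs_of_pos pε]
  have hHV : ∀ x ∈ II, ∀ w, |w| ≤ m0 * Cb → |h ((ε, w), x) - V x| ≤ ζ := fun x hx w hw => by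
    have := (T1 ε w e1 (hw.trans q14)).1.1.1.1.2 x hx
    rwa [hV x (hI x hx)] at this
  let C : Ctx :=
    { ε := ε, η := η, μ := μ, Cb := Cb, m0 := m0, m1 := m1, m2 := m2, K := θ1 * m0, S := θ2 * m0
      H := fun x w => h ((ε, w), x)
      Kf := fun x w => k ((ε, w), x)
      Hx := fun x w => dX h ((ε, w), x)
      Hw := fun x w => dW h ((ε, w), x)
      Kx := fun x w => dX k ((ε, w), x)
      Kw := fun x w => dW k ((ε, w), x)
      Sx := fun x w s => dD (Sg h k) (((0, 0), 0), 1) (((ε, w), s), x)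
      Sw := fun x w s => dD (Sg h k) (((0, 1), 0), 0) (((ε, w), s), x)
      Ss := fun x w s => dD (Sg h k) (((0, 0), 1), 0) (((ε, w), s), x)
      V1 := V1, c := c, c1 := c1, c2 := c2, φ := φ, φ1 := φ1, om := om, M1 := M1, M2 := M2, MM := MM
      dH := fun x hx w hw => has2 ((T1 ε w e1 (hw.trans q14)).1.1.1.1.1.1 x hx)
      dK := fun x hx w hw => has2 ((T1 ε w e1 (hw.trans q14)).1.1.1.1.1.2 x hx)
      dS := fun x hx w hw s hs =>
        has3 ((T2 ε w s e1 (hw.trans q14) (hs.trans q11)).1.1.1 x hx)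
      bHK := fun x hx w hw => by
        obtain ⟨⟨⟨⟨-, a2⟩, a3⟩, a4⟩, a5⟩ := T1 ε w e1 (hw.trans q14)
        have a1 := hHV x hx w hw
        have a2 := a2 x hx
        have a3 := a3 x hx
        have a4 := a4 x hx
        have a5 := a5 x hx
        have b1 := B1 x hx
        have b2 := B11 x hx
        rw [vhx x hx] at a2
        rw [vkx x (hI x hx), sub_zero] at a4
        rw [vkw x hx, sub_neg_eq_add] at a5
        refine ⟨?_, a2, ?_, a4, a5⟩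
        · rw [abs_le] at a1 b1 ⊢
          constructor <;> linarith
        · rw [abs_le] at a3 b2 ⊢
          constructor <;> linarith
      bS := fun x hx w hw s hs => by
        obtain ⟨⟨⟨-, a1⟩, a2⟩, a3⟩ := T2 ε w s e1 (hw.trans q14) (hs.trans q11)
        have a1 := a1 x hx
        have a2 := a2 x hx
        have a3 := a3 x hx
        have b1 := B12 x hx
        rw [vSx x hx, sub_zero] at a1
        rw [vSs x hx, sub_neg_eq_add] at a3
        refine ⟨a1, ?_, a3⟩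
        rw [abs_le] at a2 b1 ⊢
        constructor <;> linarith
      bK0 := fun x hx => by
        have := T4 ε 0 e3 (by simpa using pr3.le) x hx
        rwa [k0 x (hI x hx), sub_zero] at this
      bS0 := fun x hx w hw => by
        have := T3 ε w 0 e2 (hw.trans q15) (by simpa using pr2.le) x hx
        rwa [vS0 x (hI x hx), sub_zero] at this
      tipHl := thl ε
      tipHr := thr ε
      tipKl := tkl ε
      tipKr := tkr ε
      H0 := fun w hw => by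
        have := (abs_le.1 (hHV 0 (by simp) w hw)).1
        linarith
      uV1 := fun x hx z hz hxz => U1 x hx z hz (hxz.trans (by linarith))
      dc := dc
      dc1 := dc1
      dφ := dφ
      dMM := dMM
      com := cw dom
      bd := fun x hx => ⟨by linarith [B2 x hx], by linarith [B3 x hx], by linarith [B4 x hx],
        by linarith [B5 x hx], by linarith [B6 x hx], by linarith [B7 x hx],
        by linarith [B8 x hx, le_abs_self (om x)], by linarith [B9 x hx, le_abs_self (M1 x)],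
        by linarith [B10 x hx, le_abs_self (M2 x)]⟩
      lb := fun x hx => ⟨by linarith [L1 x hx], by linarith [L2' x hx], by linarith [L3' x hx]⟩
      c0 := c0
      cl := cl
      φ0 := φ0
      disc := fun x hx w hw y hy hyx => by
        subst hyx
        have a1 := abs_le.1 (D1 ε ⟨pε, q21⟩ x hx _ hy (hHV x hx w hw))
        have a2 := D2 ε ⟨pε, q21⟩ x hx _ hy (hHV x hx w hw)
        have a3 := abs_le.1 (D3 ε ⟨pε, q21⟩ x hx _ hy (hHV x hx w hw))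
        have a4 := abs_le.1 (D4 ε ⟨pε, q21⟩ x hx _ hy (hHV x hx w hw))
        have b1 := mul_le_mul_of_nonneg_left (L4 _ hy) pε.le
        have b3 := mul_le_mul_of_nonneg_left (L5 _ hy) pε.le
        have b4 := mul_le_mul_of_nonneg_left (L6 _ hy) pε.le
        have b5 := mul_le_mul_of_nonneg_left hημ pε.le
        have b6 : ε * μ2 = 2 * (ε * μ) := by rw [hμ]; ring
        simp only [Pi.add_apply, Pi.mul_apply, Pi.sub_apply] at b1 b3 b4
        rw [eφ _ hy, mul_one] at a2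
        refine ⟨by linarith [a1.1], a2, by linarith [a3.1], by linarith [a4.1]⟩
      pε := pε
      pη := pη
      pμ := pμ
      pm0 := pm0
      pm1 := pm1
      pm2 := pm2
      pK := by positivity
      pS := by positivity
      pC := pC
      n0 := q1
      n1 := by linarith
      n2 := q12
      n3 := q16
      n4 := q23
      n5 := by nlinarith
      n6 := by nlinarith
      n7 := by linarith
      n8 := by
        have a1 := mul_le_mul_of_nonneg_left q8 pm0.le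
        have a2 := mul_le_mul_of_nonneg_left q5 pm0.le
        have a3 := mul_le_mul_of_nonneg_left q6 (show 0 ≤ θ1 * m0 by positivity)
        have a4 : 0 < θ1 * m0 * μ := by positivity
        linarith }
  obtain ⟨P, s, hG, hSt⟩ := C.exists_fixed
  refine ⟨ε, pε, q22, P, s, fun x hx => hG.deriv hx,
    fun x hx => ⟨(hG.box0 hx).trans q17, (hG.box1 hx).trans q13⟩, fun x hx z hz =>
      (hG.lip2 hx hz).trans (mul_le_mul_of_nonneg_right q2 (abs_nonneg _)), hG.tl, hG.tr,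
    fun x hx => ⟨_, (hSt x hx).1, rfl, (hSt x hx).2⟩⟩

end Pool.Agent.Lib.MP_9cddd8_gt
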