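import Mathlib
import Pool.Agent.Lib.MP_9cddd8_gt.Arc

/-!
The convex bodies built from two arcs and their chords on the tangent lines of the unit circle.
-/

set_option autoImplicit false

namespace Pool.Agent.Lib.MP_9cddd8_gt

open Set Filter Topology

/-- inside all support half-planes of the arc -/
def Arc.In (A : Arc) (x y : ℝ) : Prop := ∀ ξ ∈ II, A.n1 ξ * x + A.n2 ξ * y ≤ A.cc ξ

/-- the body with arc `A` in the first and third quadrants and `B` in the other two -/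
def Kp (A B : Arc) (x y : ℝ) : Prop :=
  A.In x y ∧ A.In (-x) (-y) ∧ B.In (-x) y ∧ B.In x (-y) ∧
    x ≤ 25 / 14 ∧ -x ≤ 25 / 14 ∧ y ≤ 25 / 23 ∧ -y ≤ 25 / 23

lemma Kp.flipx {A B : Arc} {x y : ℝ} (h : Kp A B x y) : Kp B A (-x) y := by
  obtain ⟨h1, h2, h3, h4, h5, h6, h7, h8⟩ := h
  refine ⟨h3, ?_, ?_, h2, h6, ?_, h7, h8⟩ <;> rwa [neg_neg]

lemma Kp.flipy {A B : Arc} {x y : ℝ} (h : Kp A B x y) : Kp B A x (-y) := by
  obtain ⟨h1, h2, h3, h4, h5, h6, h7, h8⟩ := h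
  refine ⟨h4, ?_, h2, ?_, h5, h6, h8, ?_⟩ <;> rwa [neg_neg]

lemma Kp_flipx {A B : Arc} {x y : ℝ} : Kp B A (-x) y ↔ Kp A B x y :=
  ⟨fun h => by simpa using h.flipx, Kp.flipx⟩

lemma Kp_flipy {A B : Arc} {x y : ℝ} : Kp B A x (-y) ↔ Kp A B x y :=
  ⟨fun h => by simpa using h.flipy, Kp.flipy⟩

lemma Arc.in_top (A : Arc) {x y : ℝ} (hx : x ≤ 10 / 23) (hy : y ≤ 25 / 23) : A.In x y := by
  intro ξ hξ
  obtain ⟨h1, h2, -⟩ := A.n_bounds hξ
  have := A.support hξ (right_mem_Icc.2 II_le)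
  rw [A.zx_r, A.zy_r] at this
  nlinarith

lemma Arc.in_right (A : Arc) {x y : ℝ} (hx : x ≤ 25 / 14) (hy : y ≤ 5 / 7) : A.In x y := by
  intro ξ hξ
  obtain ⟨h1, h2, -⟩ := A.n_bounds hξ
  have := A.support hξ (left_mem_Icc.2 II_le)
  rw [A.zx_l, A.zy_l] at this
  nlinarith

lemma Kp_arc (A B : Arc) {ξ : ℝ} (hξ : ξ ∈ II) : Kp A B (A.zx ξ) (A.zy ξ) := by
  obtain ⟨h1, h2, h3, h4⟩ := A.box hξ
  exact ⟨fun x hx => A.support hx hξ, A.in_top (by linarith) (by linarith),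
    B.in_top (by linarith) h4, B.in_right h2 (by linarith), h2, by linarith, h4, by linarith⟩

lemma Kp_top (A B : Arc) {x : ℝ} (h1 : x ≤ 10 / 23) (h2 : -x ≤ 10 / 23) : Kp A B x (25 / 23) :=
  ⟨A.in_top h1 le_rfl, A.in_top h2 (by norm_num), B.in_top h2 le_rfl, B.in_top h1 (by norm_num),
    by linarith, by linarith, le_rfl, by norm_num⟩

lemma Kp_right (A B : Arc) {y : ℝ} (h1 : y ≤ 5 / 7) (h2 : -y ≤ 5 / 7) : Kp A B (25 / 14) y :=
  ⟨A.in_right le_rfl h1, A.in_right (by norm_num) h2, B.in_right (by norm_num) h1,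
    B.in_right le_rfl h2, le_rfl, by norm_num, by linarith, by linarith⟩

lemma Arc.In.comb {A : Arc} {x y x' y' a b : ℝ} (h : A.In x y) (h' : A.In x' y') (ha : 0 ≤ a)
    (hb : 0 ≤ b) (hab : a + b = 1) : A.In (a * x + b * x') (a * y + b * y') := by
  intro ξ hξ
  have h1 := mul_le_mul_of_nonneg_left (h ξ hξ) ha
  have h2 := mul_le_mul_of_nonneg_left (h' ξ hξ) hb
  have h3 : a * A.cc ξ + b * A.cc ξ = A.cc ξ := by rw [← add_mul, hab, one_mul]
  linarith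

lemma Kp.comb {A B : Arc} {x y x' y' a b : ℝ} (h : Kp A B x y) (h' : Kp A B x' y') (ha : 0 ≤ a)
    (hb : 0 ≤ b) (hab : a + b = 1) : Kp A B (a * x + b * x') (a * y + b * y') := by
  obtain ⟨h1, h2, h3, h4, h5, h6, h7, h8⟩ := h
  obtain ⟨k1, k2, k3, k4, k5, k6, k7, k8⟩ := h'
  have e1 : -(a * x + b * x') = a * -x + b * -x' := by ring
  have e2 : -(a * y + b * y') = a * -y + b * -y' := by ring
  refine ⟨h1.comb k1 ha hb hab, ?_, ?_, ?_, ?_, ?_, ?_, ?_⟩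
  · rw [e1, e2]; exact h2.comb k2 ha hb hab
  · rw [e1]; exact h3.comb k3 ha hb hab
  · rw [e2]; exact h4.comb k4 ha hb hab
  all_goals nlinarith

lemma Arc.in_ball (A : Arc) {x y : ℝ} (h : x ^ 2 + y ^ 2 ≤ (101 / 100) ^ 2) : A.In x y := by
  intro ξ hξ
  obtain ⟨-, -, h3, h4⟩ := A.n_bounds hξ
  refine le_trans (le_abs_self _) (abs_le_of_sq_le_sq' ?_ h3.le |> fun h => abs_le.2 h)
  have h5 : (A.n1 ξ * x + A.n2 ξ * y) ^ 2 ≤ (A.n1 ξ ^ 2 + A.n2 ξ ^ 2) * (x ^ 2 + y ^ 2) := by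
    nlinarith [sq_nonneg (A.n1 ξ * y - A.n2 ξ * x)]
  have h6 := mul_le_mul_of_nonneg_left h (show 0 ≤ A.n1 ξ ^ 2 + A.n2 ξ ^ 2 by positivity)
  linarith

lemma Kp_ball (A B : Arc) {x y : ℝ} (h : x ^ 2 + y ^ 2 ≤ (101 / 100) ^ 2) : Kp A B x y := by
  have hx := abs_le_of_sq_le_sq' (show x ^ 2 ≤ (101 / 100) ^ 2 by nlinarith [sq_nonneg y])
    (by norm_num)
  have hy := abs_le_of_sq_le_sq' (show y ^ 2 ≤ (101 / 100) ^ 2 by nlinarith [sq_nonneg x])
    (by norm_num)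
  refine ⟨A.in_ball h, A.in_ball (by simpa using h), B.in_ball (by simpa using h),
    B.in_ball (by simpa using h), ?_, ?_, ?_, ?_⟩ <;> linarith [hx.1, hx.2, hy.1, hy.2]

lemma pos_of_mul_pos_right_of_nonneg_aux {a b : ℝ} (h : 0 < a * b) (hb : 0 < b) : 0 < a := by
  by_contra h1
  have := mul_nonneg (neg_nonneg.2 (not_lt.1 h1)) hb.le
  linarith

/-- the slope of a support functional along the tangent line has the sign of the side -/
lemma side {n1 n2 c u t t' : ℝ} (hc : 0 < c) (hn : n1 ^ 2 + n2 ^ 2 < c ^ 2)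
    (he : n1 * (1 - 2 * u * t) + n2 * (u + t * (1 - u ^ 2)) = c)
    (hle : n1 * (1 - 2 * u * t') + n2 * (u + t' * (1 - u ^ 2)) ≤ c) :
    (u < t * (1 + u ^ 2) → t' ≤ t) ∧ (t * (1 + u ^ 2) < u → t ≤ t') := by
  have hu : 0 < 1 + u ^ 2 := by positivity
  have h1 : n1 * (1 - u ^ 2) + n2 * (2 * u) < c * (1 + u ^ 2) := by
    refine lt_of_le_of_lt (le_abs_self _) (abs_lt_of_sq_lt_sq ?_ (by positivity))
    have h2 : (n1 * (1 - u ^ 2) + n2 * (2 * u)) ^ 2 ≤ (n1 ^ 2 + n2 ^ 2) * (1 + u ^ 2) ^ 2 := by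
      nlinarith [sq_nonneg (n1 * (2 * u) - n2 * (1 - u ^ 2))]
    have h3 := mul_lt_mul_of_pos_right hn (pow_pos hu 2)
    rw [mul_pow]
    linarith
  set σ := -2 * u * n1 + (1 - u ^ 2) * n2 with hσ
  have h2 : 0 < σ * (t * (1 + u ^ 2) - u) := by
    have : σ * (t * (1 + u ^ 2) - u) = c * (1 + u ^ 2) - (n1 * (1 - u ^ 2) + n2 * (2 * u)) := by
      rw [← he, hσ]; ring
    linarith
  have h3 : σ * (t' - t) ≤ 0 := by
    have : σ * (t' - t) = n1 * (1 - 2 * u * t') + n2 * (u + t' * (1 - u ^ 2)) - c := by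
      rw [← he, hσ]; ring
    linarith
  constructor
  · intro h
    have h4 : 0 < σ := pos_of_mul_pos_right_of_nonneg_aux h2 (by linarith)
    by_contra h5
    have := mul_pos h4 (sub_pos.2 (not_le.1 h5))
    linarith
  · intro h
    have h4 : σ < 0 := by
      by_contra h4
      have := mul_nonneg (not_lt.1 h4) (show 0 ≤ u - t * (1 + u ^ 2) by linarith)
      linarith
    by_contra h5
    have := mul_pos_of_neg_of_neg h4 (sub_neg.2 (not_le.1 h5))
    linarith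

/-- the chord on the tangent line with parameter `u` -/
def Chord (K : ℝ → ℝ → Prop) (u tb tf : ℝ) : Prop :=
  tb ≤ tf ∧ ∀ t, K (1 - 2 * u * t) (u + t * (1 - u ^ 2)) ↔ tb ≤ t ∧ t ≤ tf

/-- a boundary point with a support line missing the disc -/
def Bd (K : ℝ → ℝ → Prop) (x y : ℝ) : Prop :=
  K x y ∧ ∃ n1 n2 c : ℝ, 0 < c ∧ n1 ^ 2 + n2 ^ 2 < c ^ 2 ∧ n1 * x + n2 * y = c ∧
    ∀ x' y', K x' y' → n1 * x' + n2 * y' ≤ c

lemma chord_of {A B : Arc} {u tb tf : ℝ}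
    (hb : Bd (Kp A B) (1 - 2 * u * tb) (u + tb * (1 - u ^ 2)))
    (hf : Bd (Kp A B) (1 - 2 * u * tf) (u + tf * (1 - u ^ 2)))
    (h1 : tb * (1 + u ^ 2) < u) (h2 : u < tf * (1 + u ^ 2)) : Chord (Kp A B) u tb tf := by
  obtain ⟨kb, n1, n2, c, a1, a2, a3, a4⟩ := hb
  obtain ⟨kf, n1', n2', c', b1, b2, b3, b4⟩ := hf
  have hlt : tb < tf := lt_of_mul_lt_mul_right (h1.trans h2) (by positivity)
  refine ⟨hlt.le, fun t => ⟨fun h => ⟨(side a1 a2 a3 (a4 _ _ h)).2 h1,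
    (side b1 b2 b3 (b4 _ _ h)).1 h2⟩, fun h => ?_⟩⟩
  have hd : 0 < tf - tb := by linarith
  have := kb.comb kf (a := (tf - t) / (tf - tb)) (b := (t - tb) / (tf - tb))
    (div_nonneg (by linarith [h.2]) hd.le) (div_nonneg (by linarith [h.1]) hd.le)
    (by field_simp; ring)
  convert this using 1 <;> field_simp <;> ring

lemma Bd_arc (A B : Arc) {ξ : ℝ} (hξ : ξ ∈ II) : Bd (Kp A B) (A.zx ξ) (A.zy ξ) := by
  obtain ⟨h1, h2, h3, h4⟩ := A.n_bounds hξ
  refine ⟨Kp_arc A B hξ, A.n1 ξ, A.n2 ξ, A.cc ξ, h3, ?_, rfl, fun x y h => h.1 ξ hξ⟩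
  have : 0 < A.n1 ξ ^ 2 + A.n2 ξ ^ 2 := by positivity
  linarith

lemma Bd.flipx {A B : Arc} {x y : ℝ} (h : Bd (Kp A B) x y) : Bd (Kp B A) (-x) y := by
  obtain ⟨k, n1, n2, c, a1, a2, a3, a4⟩ := h
  refine ⟨k.flipx, -n1, n2, c, a1, by simpa using a2, by linarith, fun x' y' h => ?_⟩
  have := a4 _ _ h.flipx
  linarith

lemma Bd.flipy {A B : Arc} {x y : ℝ} (h : Bd (Kp A B) x y) : Bd (Kp B A) x (-y) := by
  obtain ⟨k, n1, n2, c, a1, a2, a3, a4⟩ := h
  refine ⟨k.flipy, n1, -n2, c, a1, by simpa using a2, by linarith, fun x' y' h => ?_⟩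
  have := a4 _ _ h.flipy
  linarith

lemma chord1 (A B : Arc) {u : ℝ} (h0 : 0 ≤ u) (h1 : u ≤ 1 / 3) :
    Chord (Kp A B) u (-B.p (-(3 * u))) (A.p (3 * u)) := by
  have hξ : 3 * u ∈ II := ⟨by linarith, by linarith⟩
  have hξ' := neg_mem_II hξ
  have a1 := (A.p_bounds hξ).1
  have a2 := (B.p_bounds hξ').1
  refine chord_of ?_ ?_ (by nlinarith [sq_nonneg u]) (by nlinarith [sq_nonneg u])
  · convert (Bd_arc B A hξ').flipy using 1 <;> simp only [Arc.zx, Arc.zy] <;> ring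
  · convert Bd_arc A B hξ using 1 <;> simp only [Arc.zx, Arc.zy] <;> ring

lemma chord2 (A B : Arc) {u : ℝ} (h0 : 1 / 3 ≤ u) (h1 : u ≤ 11 / 13) :
    Chord (Kp A B) u (-(11 / (28 * u))) ((25 / 23 - u) / (1 - u ^ 2)) := by
  have hu : 0 < u := by linarith
  have hu2 : 0 < 1 - u ^ 2 := by nlinarith
  refine chord_of ?_ ?_ ?_ ?_
  · have e : 1 - 2 * u * -(11 / (28 * u)) = 25 / 14 := by field_simp; norm_num
    have e2 : u + -(11 / (28 * u)) * (1 - u ^ 2) = (39 * u ^ 2 - 11) / (28 * u) := by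
      field_simp; ring
    rw [e, e2]
    refine ⟨Kp_right A B ?_ ?_, 1, 0, 25 / 14, by norm_num, by norm_num, by ring, fun x y h => ?_⟩
    · rw [div_le_iff₀ (by positivity)]; nlinarith
    · rw [← neg_div, div_le_iff₀ (by positivity)]; nlinarith
    · linarith [h.2.2.2.2.1]
  · have e : u + (25 / 23 - u) / (1 - u ^ 2) * (1 - u ^ 2) = 25 / 23 := by field_simp; ring
    have e2 : 1 - 2 * u * ((25 / 23 - u) / (1 - u ^ 2)) = (1 + u ^ 2 - 50 / 23 * u) / (1 - u ^ 2) := by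
      field_simp; ring
    rw [e, e2]
    refine ⟨Kp_top A B ?_ ?_, 0, 1, 25 / 23, by norm_num, by norm_num, by ring, fun x y h => ?_⟩
    · rw [div_le_iff₀ hu2]; nlinarith
    · rw [← neg_div, div_le_iff₀ hu2]; nlinarith
    · linarith [h.2.2.2.2.2.2.1]
  · have : 0 < 11 / (28 * u) * (1 + u ^ 2) := by positivity
    linarith
  · rw [div_mul_eq_mul_div, lt_div_iff₀ hu2]
    nlinarith [sq_nonneg (u - 1)]

lemma chord3 (A B : Arc) {u ξ ζ : ℝ} (h0 : 0 < u) (hξ : ξ ∈ II) (hζ : ζ ∈ II)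
    (e1 : 1 / A.p ξ - ξ / 3 = 1 / u) (e2 : 1 / B.p ζ - ζ / 3 = u) :
    Chord (Kp A B) u (1 / u * (1 - 1 / u * A.p ξ)) (B.p ζ) := by
  have a1 := (A.p_bounds hξ).1
  have a2 := (B.p_bounds hζ).1
  have a3 : A.p ξ ≠ 0 := by linarith
  have a4 : B.p ζ ≠ 0 := by linarith
  have e1' : ξ / 3 = 1 / A.p ξ - 1 / u := by linarith
  have e2' : ζ / 3 = 1 / B.p ζ - u := by linarith
  refine chord_of ?_ ?_ ?_ (by nlinarith [sq_nonneg (u - 1)])
  · convert Bd_arc A B hξ using 1 <;> simp only [Arc.zx, Arc.zy, e1'] <;> field_simp <;> ring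
  · convert (Bd_arc B A hζ).flipx using 1 <;> simp only [Arc.zx, Arc.zy, e2'] <;> field_simp <;> ring
  · have e : 1 / u * (1 - 1 / u * A.p ξ) * (1 + u ^ 2) = u + (u - A.p ξ * (1 + u ^ 2)) / u ^ 2 := by
      field_simp; ring
    rw [e]
    have : (u - A.p ξ * (1 + u ^ 2)) / u ^ 2 < 0 :=
      div_neg_of_neg_of_pos (by nlinarith [sq_nonneg (u - 1)]) (by positivity)
    linarith

/-- the body as a subset of the Euclidean plane -/
def body (A B : Arc) : Set (EuclideanSpace ℝ (Fin 2)) := {z | Kp A B (z 0) (z 1)}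

lemma norm_sq2 (z : EuclideanSpace ℝ (Fin 2)) : ‖z‖ ^ 2 = z 0 ^ 2 + z 1 ^ 2 := by
  rw [EuclideanSpace.norm_sq_eq, Fin.sum_univ_two]
  simp

lemma body_convex (A B : Arc) : Convex ℝ (body A B) := by
  intro z hz w hw a b ha hb hab
  exact Kp.comb hz hw ha hb hab

lemma body_compact (A B : Arc) : IsCompact (body A B) := by
  have hin : ∀ (C : Arc) (f g : EuclideanSpace ℝ (Fin 2) → ℝ), Continuous f → Continuous g →
      IsClosed {z | C.In (f z) (g z)} := by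
    intro C f g hf hg
    have : {z | C.In (f z) (g z)} = ⋂ ξ ∈ II, {z | C.n1 ξ * f z + C.n2 ξ * g z ≤ C.cc ξ} := by
      ext z; simp only [Arc.In, mem_iInter, mem_ofPred_eq]
    rw [this]
    exact isClosed_biInter fun ξ _ => isClosed_le (by fun_prop) (by fun_prop)
  refine Metric.isCompact_of_isClosed_isBounded ?_ ?_
  · exact (hin A _ _ (by fun_prop) (by fun_prop)).and ((hin A _ _ (by fun_prop) (by fun_prop)).and
      ((hin B _ _ (by fun_prop) (by fun_prop)).and ((hin B _ _ (by fun_prop) (by fun_prop)).and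
      ((isClosed_le (by fun_prop) (by fun_prop)).and ((isClosed_le (by fun_prop) (by fun_prop)).and
      ((isClosed_le (by fun_prop) (by fun_prop)).and
        (isClosed_le (by fun_prop) (by fun_prop))))))))
  · refine (Metric.isBounded_closedBall (x := 0) (r := 3)).subset fun z hz => ?_
    obtain ⟨-, -, -, -, h1, h2, h3, h4⟩ := hz
    rw [mem_closedBall_zero_iff]
    refine le_of_sq_le_sq ?_ (by norm_num)
    rw [norm_sq2]
    nlinarith

lemma body_ball (A B : Arc) :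
    Metric.closedBall (0 : EuclideanSpace ℝ (Fin 2)) 1 ⊆ interior (body A B) := by
  refine (Metric.closedBall_subset_ball (show (1 : ℝ) < 101 / 100 by norm_num)).trans
    (interior_maximal (fun z hz => ?_) Metric.isOpen_ball)
  rw [mem_ball_zero_iff] at hz
  apply Kp_ball
  rw [← norm_sq2]
  exact pow_le_pow_left₀ (norm_nonneg _) hz.le 2

lemma diam_chord {K : ℝ → ℝ → Prop} {u tb tf σ1 σ2 : ℝ} (h1 : σ1 ^ 2 = 1) (h2 : σ2 ^ 2 = 1)
    {e : EuclideanSpace ℝ (Fin 2)} (e0 : e 0 = σ1 * ((1 - u ^ 2) / (1 + u ^ 2)))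
    (e1 : e 1 = σ2 * (2 * u / (1 + u ^ 2)))
    (h : Chord (fun x y => K (σ1 * x) (σ2 * y)) u tb tf) :
    Metric.diam ({z : EuclideanSpace ℝ (Fin 2) | K (z 0) (z 1)} ∩ {x | inner ℝ x e = (1 : ℝ)}) =
      (tf - tb) * (1 + u ^ 2) := by
  have hu : 0 < 1 + u ^ 2 := by positivity
  set f : ℝ → EuclideanSpace ℝ (Fin 2) := fun t =>
    !₂[σ1 * (1 - 2 * u * t), σ2 * (u + t * (1 - u ^ 2))] with hf
  have hin : ∀ z : EuclideanSpace ℝ (Fin 2), inner ℝ z e = z 0 * e 0 + z 1 * e 1 := by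
    intro z
    simp [PiLp.inner_apply, Fin.sum_univ_two, mul_comm]
  have hd : ∀ t t', dist (f t) (f t') = |t - t'| * (1 + u ^ 2) := by
    intro t t'
    rw [dist_eq_norm, ← sq_eq_sq₀ (norm_nonneg _) (by positivity), norm_sq2, mul_pow, sq_abs]
    simp only [hf, PiLp.sub_apply, Matrix.cons_val_zero, Matrix.cons_val_one]
    linear_combination (2 * u * (t - t')) ^ 2 * h1 + ((t - t') * (1 - u ^ 2)) ^ 2 * h2
  have hset : {z : EuclideanSpace ℝ (Fin 2) | K (z 0) (z 1)} ∩ {x | inner ℝ x e = (1 : ℝ)} =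
      f '' Icc tb tf := by
    ext z
    simp only [mem_inter_iff, mem_ofPred_eq, hin, e0, e1, mem_image, mem_Icc]
    constructor
    · rintro ⟨k1, k2⟩
      set t := (u - 2 * u / (1 + u ^ 2) * (σ1 * z 0) + (1 - u ^ 2) / (1 + u ^ 2) * (σ2 * z 1))
        / (1 + u ^ 2) with ht
      have k3 : z 0 * σ1 * (1 - u ^ 2) + z 1 * σ2 * (2 * u) = 1 + u ^ 2 := by
        field_simp at k2; linarith
      have q0 : σ1 * (1 - 2 * u * t) = z 0 := by
        rw [ht]; field_simp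
        linear_combination (-(1 - u ^ 2) * σ1) * k3 + (z 0 * (1 + u ^ 2) ^ 2) * h1
      have q1 : σ2 * (u + t * (1 - u ^ 2)) = z 1 := by
        rw [ht]; field_simp
        linear_combination (-(2 * u) * σ2) * k3 + (z 1 * (1 + u ^ 2) ^ 2) * h2
      refine ⟨t, (h.2 t).1 (by simp only [q0, q1]; exact k1), ?_⟩
      ext i
      fin_cases i
      · exact q0
      · exact q1
    · rintro ⟨t, ht, rfl⟩
      refine ⟨(h.2 t).2 ht, ?_⟩
      simp only [hf, Matrix.cons_val_zero, Matrix.cons_val_one]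
      field_simp
      linear_combination ((1 - 2 * u * t) * (1 - u ^ 2)) * h1
        + ((u + t * (1 - u ^ 2)) * (2 * u)) * h2
  have hbd : ∀ x ∈ f '' Icc tb tf, ∀ y ∈ f '' Icc tb tf, dist x y ≤ (tf - tb) * (1 + u ^ 2) := by
    rintro _ ⟨t, ht, rfl⟩ _ ⟨t', ht', rfl⟩
    rw [hd]
    refine mul_le_mul_of_nonneg_right (abs_le.2 ⟨?_, ?_⟩) hu.le <;>
      linarith [ht.1, ht.2, ht'.1, ht'.2]
  rw [hset]
  refine le_antisymm (Metric.diam_le_of_forall_dist_le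
    (mul_nonneg (sub_nonneg.2 h.1) hu.le) hbd) ?_
  have := Metric.dist_le_diam_of_mem (Metric.isBounded_iff.2 ⟨_, fun x hx y hy => hbd x hx y hy⟩)
    (mem_image_of_mem f (right_mem_Icc.2 h.1)) (mem_image_of_mem f (left_mem_Icc.2 h.1))
  rwa [hd, abs_of_nonneg (sub_nonneg.2 h.1)] at this

theorem geom (U L : Arc) (g : ℝ → ℝ)
    (heven : ∀ x ∈ II, U.p x - L.p x = U.p (-x) - L.p (-x)) (hne : L.p 0 < U.p 0)
    (hhor : ∀ x ∈ II, ∃ y ∈ II, 1 / L.p y - y / 3 = 1 / U.p x - x / 3 ∧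
      U.p x - L.p y = g (1 / U.p x - x / 3))
    (hg : ∀ u, 0 < u → g u = g (1 / u) / u ^ 2) :
    (∀ e : EuclideanSpace ℝ (Fin 2), ‖e‖ = 1 →
      Metric.diam (body U L ∩ {x | inner ℝ x e = (1 : ℝ)}) =
        Metric.diam (body L U ∩ {x | inner ℝ x e = (1 : ℝ)})) ∧ body U L ≠ body L U := by
  have key : ∀ u, 0 ≤ u → u ≤ 1 → ∃ tb tf tb' tf', Chord (Kp U L) u tb tf ∧
      Chord (Kp L U) u tb' tf' ∧ tf - tb = tf' - tb' := by
    intro u h0 h1
    rcases le_total u (1 / 3) with h2 | h2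
    · refine ⟨_, _, _, _, chord1 U L h0 h2, chord1 L U h0 h2, ?_⟩
      have := heven (3 * u) ⟨by linarith, by linarith⟩
      linarith
    rcases le_total u (11 / 13) with h3 | h3
    · exact ⟨_, _, _, _, chord2 U L h2 h3, chord2 L U h2 h3, rfl⟩
    have hu : 0 < u := by linarith
    obtain ⟨x1, hx1, e1⟩ := U.exists_a (a := u) h3 (by linarith)
    obtain ⟨x2, hx2, e2⟩ := U.exists_a (a := 1 / u)
      (by rw [le_div_iff₀ hu]; linarith) (by rw [div_le_iff₀ hu]; linarith)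
    obtain ⟨y1, hy1, f1, g1⟩ := hhor x1 hx1
    obtain ⟨y2, hy2, f2, g2⟩ := hhor x2 hx2
    rw [e1] at f1 g1
    rw [e2] at f2 g2
    refine ⟨_, _, _, _, chord3 U L hu hx2 hy1 e2 f1, chord3 L U hu hy2 hx1 f2 e1, ?_⟩
    have := hg u hu
    rw [← g1, ← g2] at this
    have h4 : (U.p x2 - L.p y2) / u ^ 2 = 1 / u * (1 / u * (U.p x2 - L.p y2)) := by
      field_simp
    rw [h4] at this
    linarith
  constructor
  · intro e he
    have hsq : e 0 ^ 2 + e 1 ^ 2 = 1 := by rw [← norm_sq2, he]; norm_num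
    have hs : ∀ a : ℝ, ∃ σ : ℝ, (σ = 1 ∨ σ = -1) ∧ a = σ * |a| := fun a => by
      rcases le_total 0 a with h | h
      · exact ⟨1, Or.inl rfl, by rw [abs_of_nonneg h, one_mul]⟩
      · exact ⟨-1, Or.inr rfl, by rw [abs_of_nonpos h]; ring⟩
    obtain ⟨σ1, s1, t1⟩ := hs (e 0)
    obtain ⟨σ2, s2, t2⟩ := hs (e 1)
    have a0 := abs_nonneg (e 0)
    have a1 := abs_nonneg (e 1)
    rw [← sq_abs (e 0), ← sq_abs (e 1)] at hsq
    set a := |e 0|
    set b := |e 1|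
    have ha : 0 < 1 + a := by linarith
    obtain ⟨tb, tf, tb', tf', c1, c2, c3⟩ := key (b / (1 + a)) (by positivity)
      (by rw [div_le_one ha]; nlinarith)
    have hden : 1 + (b / (1 + a)) ^ 2 = 2 / (1 + a) := by
      field_simp; nlinarith
    have e0 : e 0 = σ1 * ((1 - (b / (1 + a)) ^ 2) / (1 + (b / (1 + a)) ^ 2)) := by
      rw [hden, t1]
      congr 1
      field_simp; nlinarith
    have e1 : e 1 = σ2 * (2 * (b / (1 + a)) / (1 + (b / (1 + a)) ^ 2)) := by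
      rw [hden, t2]
      congr 1
      field_simp
    have q1 : σ1 ^ 2 = 1 := by rcases s1 with rfl | rfl <;> norm_num
    have q2 : σ2 ^ 2 = 1 := by rcases s2 with rfl | rfl <;> norm_num
    unfold body
    rcases s1 with rfl | rfl <;> rcases s2 with rfl | rfl
    · rw [diam_chord q1 q2 e0 e1 (by simpa using c1), diam_chord q1 q2 e0 e1 (by simpa using c2), c3]
    · rw [diam_chord q1 q2 e0 e1 (by simpa [Kp_flipy] using c2),
        diam_chord q1 q2 e0 e1 (by simpa [Kp_flipy] using c1), c3]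
    · rw [diam_chord q1 q2 e0 e1 (by simpa [Kp_flipx] using c2),
        diam_chord q1 q2 e0 e1 (by simpa [Kp_flipx] using c1), c3]
    · rw [diam_chord q1 q2 e0 e1 (by simpa [Kp_flipx, Kp_flipy] using c1),
        diam_chord q1 q2 e0 e1 (by simpa [Kp_flipx, Kp_flipy] using c2), c3]
  · intro h
    have c1 := chord1 U L le_rfl (by norm_num)
    have c2 := chord1 L U le_rfl (by norm_num)
    have k1 := (c1.2 _).2 ⟨c1.1, le_rfl⟩
    have k2 : (!₂[1 - 2 * 0 * U.p (3 * 0), 0 + U.p (3 * 0) * (1 - 0 ^ 2)] :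
      EuclideanSpace ℝ (Fin 2)) ∈ body U L := k1
    rw [h] at k2
    have := ((c2.2 _).1 k2).2
    simp only [mul_zero] at this
    linarith

end Pool.Agent.Lib.MP_9cddd8_gt
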