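import Mathlib
import Pool.Agent.Lib.MP_9cddd8_gt.Build
import Pool.Agent.Lib.MP_9cddd8_gt.Geom

/-!
The explicit staircase map and the two arcs.
-/

set_option autoImplicit false

namespace Pool.Agent.Lib.MP_9cddd8_gt

open Set Filter Topology Asymptotics

/-- horizontal marginal -/
noncomputable def gam (a : ℝ) : ℝ := 4 * (1 - 144 * (1 - a) ^ 2 / (1 + a) ^ 2) / (3 * (1 + a) ^ 2)

/-- vertical coordinate -/
noncomputable def pp (q : (ℝ × ℝ) × ℝ) : ℝ := ps q.2 + q.1.2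

/-- horizontal level -/
noncomputable def aa (q : (ℝ × ℝ) × ℝ) : ℝ := 1 / pp q - q.2 / 3

/-- horizontal step -/
noncomputable def hf (q : (ℝ × ℝ) × ℝ) : ℝ := 3 * gam (aa q) / (pp q * (pp q - q.1.1 * gam (aa q)))

/-- vertical step -/
noncomputable def kf (q : (ℝ × ℝ) × ℝ) : ℝ :=
  -gam (aa q) + hf q * ((72 + 12 * (q.2 + (q.2 + q.1.1 * hf q)) + q.2 * (q.2 + q.1.1 * hf q))
    / (432 * Df q.2 * Df (q.2 + q.1.1 * hf q))) + (1 - (q.2 + q.1.1 * hf q) ^ 2) / 6

/-- damping -/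
noncomputable def cf (x : ℝ) : ℝ := 10 * max x 0 ^ 3 * Df x ^ 2
/-- its derivative -/
noncomputable def c1f (x : ℝ) : ℝ :=
  30 * max x 0 ^ 2 * Df x ^ 2 + 10 * max x 0 ^ 3 * (2 * Df x * (1 / 4 + x / 18))
/-- its second derivative -/
noncomputable def c2f (x : ℝ) : ℝ :=
  60 * max x 0 * Df x ^ 2 + 60 * max x 0 ^ 2 * (2 * Df x * (1 / 4 + x / 18))
    + 10 * max x 0 ^ 3 * (2 * (1 / 4 + x / 18) ^ 2 + 2 * Df x / 18)
/-- neutral profile -/
noncomputable def φf (x : ℝ) : ℝ := Real.exp (5 * x ^ 2) * (1 - x ^ 2) ^ 4 / Df x ^ 2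
/-- its derivative -/
noncomputable def φ1f (x : ℝ) : ℝ := Real.exp (5 * x ^ 2) * (1 - x ^ 2) ^ 3 *
  ((10 * x * (1 - x ^ 2) - 8 * x) * Df x - 2 * (1 - x ^ 2) * (1 / 4 + x / 18)) / Df x ^ 3

lemma hasDerivAt_pos (n : ℕ) (x : ℝ) :
    HasDerivAt (fun x : ℝ => max x 0 ^ (n + 2)) ((n + 2) * max x 0 ^ (n + 1)) x := by
  rcases lt_trichotomy x 0 with h | rfl | h
  · rw [max_eq_right h.le]
    refine ((hasDerivAt_const x (0 : ℝ)).congr_of_eventuallyEq ?_).congr_deriv (by simp)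
    filter_upwards [Iio_mem_nhds h] with z hz
    rw [max_eq_right (le_of_lt hz)]; simp
  · rw [hasDerivAt_iff_isLittleO]
    have h1 := isLittleO_pow_sub_sub (0 : ℝ) (show 1 < n + 2 by omega)
    refine IsBigO.trans_isLittleO (IsBigO.of_bound 1 (Eventually.of_forall fun z => ?_)) h1
    have : |max z 0| ≤ |z| := by
      rcases le_total z 0 with hz | hz
      · rw [max_eq_right hz]; simp
      · rw [max_eq_left hz]
    simpa using pow_le_pow_left₀ (abs_nonneg _) this (n + 2)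
  · rw [max_eq_left h.le]
    refine ((hasDerivAt_pow (n + 2) x).congr_of_eventuallyEq ?_).congr_deriv (by simp)
    filter_upwards [Ioi_mem_nhds h] with z hz
    rw [max_eq_left (le_of_lt hz)]

lemma cd_Df : ContDiff ℝ 2 Df := by unfold Df; fun_prop

lemma cd_ps : ContDiff ℝ 2 ps := by
  unfold ps
  exact ContDiff.div (by fun_prop) cd_Df fun x => (Df_pos x).ne'

lemma pp0 (x : ℝ) : pp ((0, 0), x) = (1 + x / 12) / Df x := by simp [pp, ps]

lemma aa0 {x : ℝ} (hx : |x| < 2) : aa ((0, 0), x) = (12 - x) / (12 + x) := by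
  have h1 : 12 + x ≠ 0 := by linarith [(abs_lt.1 hx).1]
  have h2 := (Df_pos x).ne'
  unfold aa
  rw [pp0]
  field_simp
  unfold Df
  ring

lemma gam0 {x : ℝ} (hx : |x| < 2) : gam ((12 - x) / (12 + x)) = (1 - x ^ 2) * (12 + x) ^ 2 / 432 := by
  have h1 : 12 + x ≠ 0 := by linarith [(abs_lt.1 hx).1]
  have h2 : 1 + (12 - x) / (12 + x) = 24 / (12 + x) := by field_simp; ring
  unfold gam
  rw [h2]
  field_simp
  ring

lemma cd_all {x : ℝ} (hx : |x| < 2) :
    ContDiffAt ℝ 2 hf ((0, 0), x) ∧ ContDiffAt ℝ 2 kf ((0, 0), x) := by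
  have h1 : 0 < 12 + x := by linarith [(abs_lt.1 hx).1]
  have h2 := Df_pos x
  have hp0 : pp ((0, 0), x) ≠ 0 := by
    rw [pp0]; exact (div_pos (by linarith) h2).ne'
  have hp : ContDiffAt ℝ 2 pp ((0, 0), x) :=
    ((cd_ps.comp contDiff_snd).add (contDiff_snd.comp contDiff_fst)).contDiffAt
  have ha : ContDiffAt ℝ 2 aa ((0, 0), x) :=
    (contDiffAt_const.div hp hp0).sub (by fun_prop)
  have ha0 : 1 + aa ((0, 0), x) ≠ 0 := by
    rw [aa0 hx]
    have : 0 < (12 - x) / (12 + x) := div_pos (by linarith [(abs_lt.1 hx).2]) h1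
    linarith
  have hg : ContDiffAt ℝ 2 (fun q => gam (aa q)) ((0, 0), x) := by
    unfold gam
    exact (contDiffAt_const.mul (contDiffAt_const.sub ((contDiffAt_const.mul
      ((contDiffAt_const.sub ha).pow 2)).div ((contDiffAt_const.add ha).pow 2)
      (pow_ne_zero 2 ha0)))).div (contDiffAt_const.mul ((contDiffAt_const.add ha).pow 2))
      (mul_ne_zero (by norm_num) (pow_ne_zero 2 ha0))
  have hε : ContDiffAt ℝ 2 (fun q : (ℝ × ℝ) × ℝ => q.1.1) ((0, 0), x) := by fun_prop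
  have hx' : ContDiffAt ℝ 2 (fun q : (ℝ × ℝ) × ℝ => q.2) ((0, 0), x) := by fun_prop
  have hh : ContDiffAt ℝ 2 hf ((0, 0), x) :=
    (contDiffAt_const.mul hg).div (hp.mul (hp.sub (hε.mul hg))) (by simpa using hp0)
  have hy := hx'.add (hε.mul hh)
  refine ⟨hh, (hg.neg.add (hh.mul (((contDiffAt_const.add (contDiffAt_const.mul (hx'.add hy))).add
    (hx'.mul hy)).div ((contDiffAt_const.mul (cd_Df.contDiffAt.comp _ hx')).mul
      (cd_Df.contDiffAt.comp _ hy)) ?_))).add ((contDiffAt_const.sub (hy.pow 2)).div_const 6)⟩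
  exact mul_ne_zero (mul_ne_zero (by norm_num) (Df_pos _).ne') (Df_pos _).ne'

lemma hf0 {x : ℝ} (hx : |x| < 2) : hf ((0, 0), x) = Vf x := by
  have h1 : 12 + x ≠ 0 := by linarith [(abs_lt.1 hx).1]
  have h2 := (Df_pos x).ne'
  unfold hf Vf
  rw [aa0 hx, gam0 hx, pp0]
  field_simp
  ring

lemma kf0 {x : ℝ} (hx : |x| < 2) : kf ((0, 0), x) = 0 := by
  have h2 := (Df_pos x).ne'
  unfold kf
  rw [aa0 hx, gam0 hx, hf0 hx]
  simp only [zero_mul, add_zero, Vf]
  field_simp
  ring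

lemma hasDerivAt_gam {a : ℝ} (h : 1 + a ≠ 0) : HasDerivAt gam
    (4 / 3 * (-2 / (1 + a) ^ 3 + 288 * (1 - a) / (1 + a) ^ 4 + 576 * (1 - a) ^ 2 / (1 + a) ^ 5))
    a := by
  have h1 := ((hasDerivAt_id a).const_add 1).fun_pow 2
  have h2 := ((hasDerivAt_id a).const_sub 1).fun_pow 2
  have := ((((h2.const_mul 144).fun_div h1 (pow_ne_zero 2 h)).const_sub 1).const_mul 4).fun_div
    (h1.const_mul 3) (mul_ne_zero (by norm_num) (pow_ne_zero 2 h))
  refine this.congr_deriv ?_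
  simp only [id]
  norm_num
  field_simp
  ring

lemma kf_w {x : ℝ} (hx : |x| < 2) : HasDerivAt (fun w => kf ((0, w), x)) (-V1f x) 0 := by
  have h1 : 12 + x ≠ 0 := by linarith [(abs_lt.1 hx).1]
  have h2 := (Df_pos x).ne'
  have hp0 : pp ((0, 0), x) ≠ 0 := by
    rw [pp0]; exact div_ne_zero (by intro h; apply h1; linarith) h2
  have hp : HasDerivAt (fun w => pp ((0, w), x)) 1 0 :=
    (hasDerivAt_id (0 : ℝ)).const_add (ps x)
  have ha : HasDerivAt (fun w => aa ((0, w), x)) _ 0 :=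
    ((hasDerivAt_const (0 : ℝ) (1 : ℝ)).fun_div hp hp0).sub_const (x / 3)
  have h3 : 1 + (12 - x) / (12 + x) = 24 / (12 + x) := by field_simp; ring
  have ha0 : 1 + aa ((0, 0), x) ≠ 0 := by
    rw [aa0 hx, h3]; exact div_ne_zero (by norm_num) h1
  have hg := (hasDerivAt_gam ha0).comp (0 : ℝ) ha
  have hh := (hg.const_mul 3).fun_div (hp.fun_mul hp) (mul_ne_zero hp0 hp0)
  have := (hg.fun_neg.fun_add (hh.mul_const ((72 + 12 * (x + x) + x * x)
    / (432 * Df x * Df x)))).add_const ((1 - x ^ 2) / 6)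
  refine (this.congr_of_eventuallyEq (Eventually.of_forall fun w => ?_)).congr_deriv ?_
  · simp [kf, hf]
  · simp only [Function.comp]
    rw [aa0 hx, gam0 hx, pp0, h3]
    unfold V1f
    field_simp
    unfold Df
    ring

lemma tips (ε : ℝ) : hf ((ε, 0), -1) = 0 ∧ hf ((ε, 0), 1) = 0 ∧ kf ((ε, 0), -1) = 0 ∧
    kf ((ε, 0), 1) = 0 := by
  have g1 : gam (aa ((ε, 0), -1)) = 0 := by
    simp only [gam, aa, pp, ps, Df]; norm_num
  have g2 : gam (aa ((ε, 0), 1)) = 0 := by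
    simp only [gam, aa, pp, ps, Df]; norm_num
  have h1 : hf ((ε, 0), -1) = 0 := by simp [hf, g1]
  have h2 : hf ((ε, 0), 1) = 0 := by simp [hf, g2]
  exact ⟨h1, h2, by simp [kf, g1, h1], by simp [kf, g2, h2]⟩

lemma dcf (x : ℝ) : HasDerivAt cf (c1f x) x := by
  have := ((hasDerivAt_pos 1 x).const_mul 10).fun_mul ((hasDerivAt_Df x).fun_pow 2)
  refine this.congr_deriv ?_
  unfold c1f; push_cast; ring

lemma dc1f (x : ℝ) : HasDerivAt c1f (c2f x) x := by
  have := (((hasDerivAt_pos 0 x).const_mul 30).fun_mul ((hasDerivAt_Df x).fun_pow 2)).fun_add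
    (((hasDerivAt_pos 1 x).const_mul 10).fun_mul (((hasDerivAt_Df x).const_mul 2).fun_mul
      (((hasDerivAt_id x).div_const 18).const_add (1 / 4))))
  refine this.congr_deriv ?_
  unfold c2f; norm_num; ring

lemma dφf (x : ℝ) : HasDerivAt φf (φ1f x) x := by
  have h2 := (Df_pos x).ne'
  have := (((((hasDerivAt_id x).fun_pow 2).const_mul 5).exp).fun_mul
    ((((hasDerivAt_id x).fun_pow 2).const_sub 1).fun_pow 4)).fun_div
    ((hasDerivAt_Df x).fun_pow 2) (pow_ne_zero 2 h2)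
  refine this.congr_deriv ?_
  unfold φ1f
  simp only [id]
  norm_num
  field_simp
  ring

lemma cont_Df : Continuous Df := cd_Df.continuous

lemma cf_cases (x : ℝ) : (x ≤ 0 ∧ cf x = 0 ∧ cf (-x) = 10 * (-x) ^ 3 * Df (-x) ^ 2) ∨
    (0 ≤ x ∧ cf x = 10 * x ^ 3 * Df x ^ 2 ∧ cf (-x) = 0) := by
  rcases le_total x 0 with h | h
  · left
    refine ⟨h, ?_, ?_⟩
    · simp [cf, max_eq_right h]
    · rw [cf, max_eq_left (neg_nonneg.2 h)]
  · right
    refine ⟨h, ?_, ?_⟩
    · rw [cf, max_eq_left h]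
    · simp [cf, max_eq_right (neg_nonpos.2 h)]

theorem curve {m : ℝ} (hm : 0 < m) :
    ∃ ε, 0 < ε ∧ ε ≤ m ∧ ∃ P s : ℝ → ℝ, (∀ x ∈ II, HasDerivWithinAt P (s x) II x) ∧
      (∀ x ∈ II, |P x| ≤ m ∧ |s x| ≤ m) ∧ (∀ x ∈ II, ∀ z ∈ II, |s z - s x| ≤ m * |z - x|) ∧
      P (-1) = 0 ∧ P 1 = 0 ∧ ∀ x ∈ II, ∃ y ∈ II, y = x + ε * hf ((ε, P x), x) ∧
        P y * (1 + ε * cf y) = P x + ε * kf ((ε, P x), x) - ε * (cf (-y) * P (-y)) := by
  have hI : ∀ x ∈ II, |x| < 2 := fun x hx => by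
    rw [abs_lt]; constructor <;> linarith [hx.1, hx.2]
  have hD := cont_Df
  have pw : ∀ (n : ℕ) (x : ℝ), HasDerivAt (fun x : ℝ => x ^ n) (n * x ^ (n - 1)) x :=
    fun n x => hasDerivAt_pow n x
  refine abstract_main hf kf Vf V1f cf c1f c2f φf φ1f omf om1f M1f M11f M2f M21f
    (fun x => 4 * x - 3 / 2 * x ^ 2 + 7 * x ^ 3 - 5 / 2 * x ^ 4 - x ^ 5)
    (fun x hx => (cd_all hx).1) (fun x hx => (cd_all hx).2) (fun x hx => hf0 hx)
    (fun x _ => ?_) (fun x hx => kf0 hx) (fun x hx => kf_w (hI x hx))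
    (fun ε => (tips ε).1) (fun ε => (tips ε).2.1) (fun ε => (tips ε).2.2.1)
    (fun ε => (tips ε).2.2.2) (by simp [Vf, Df])
    (fun x _ => (dcf x).hasDerivWithinAt) (fun x _ => (dc1f x).hasDerivWithinAt)
    (by unfold c2f; fun_prop) (fun x _ => by unfold cf; positivity)
    (fun x _ h => by simp [cf, max_eq_right h])
    (fun x _ => (dφf x).hasDerivWithinAt) ?_ (by simp [φf, Df])
    (fun x _ => ?_) (by unfold om1f; fun_prop) (fun x _ => ?_) (by unfold M11f; fun_prop)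
    (fun x _ => ?_) (by unfold M21f; fun_prop) (fun x _ => ?_)
    (fun x hx => om_pos x hx.1 hx.2) (fun x hx => M1_pos x hx.1 hx.2)
    (fun x hx => M2_pos x hx.1 hx.2) (fun x _ => ?_) (fun x hx => ?_) (fun x hx => ?_)
    (fun x hx => ?_) hm
  · have := ((pw 2 x).const_sub 1).fun_mul ((hasDerivAt_Df x).fun_pow 2)
    refine this.congr_deriv ?_
    unfold V1f; norm_num
  · unfold φ1f
    exact ContinuousOn.div (by fun_prop) (by fun_prop) fun x _ => pow_ne_zero 3 (Df_pos x).ne'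
  · have := ((hasDerivAt_id x).const_add 2).fun_add (pw 2 x)
    exact (this.congr_deriv (by unfold om1f; norm_num)).hasDerivWithinAt
  · have := (((((hasDerivAt_id x).const_mul 3).const_sub 4).fun_add ((pw 2 x).const_mul 10)).fun_sub
      ((pw 3 x).const_mul 5)).fun_sub ((pw 4 x).const_mul 5)
    exact (this.congr_deriv (by unfold M11f; norm_num; ring)).hasDerivWithinAt
  · have := (((((hasDerivAt_id x).const_mul 3).const_sub 4).fun_add ((pw 2 x).const_mul 21)).fun_sub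
      ((pw 3 x).const_mul 10)).fun_sub ((pw 4 x).const_mul 5)
    exact (this.congr_deriv (by unfold M21f; norm_num; ring)).hasDerivWithinAt
  · have := (((((hasDerivAt_id x).const_mul 4).fun_sub ((pw 2 x).const_mul (3 / 2))).fun_add
      ((pw 3 x).const_mul 7)).fun_sub ((pw 4 x).const_mul (5 / 2))).fun_sub (pw 5 x)
    exact (this.congr_deriv (by unfold M2f; norm_num; ring)).hasDerivWithinAt
  · have h1 := (Df_pos x).ne'
    have h2 := (Df_pos (-x)).ne'
    rcases cf_cases x with ⟨-, e1, e2⟩ | ⟨-, e1, e2⟩ <;> rw [e1, e2] <;>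
      simp only [Vf, V1f, φf, φ1f, neg_sq] <;> field_simp <;> ring
  · rcases cf_cases x with ⟨h, e1, -⟩ | ⟨h, e1, -⟩ <;> rw [e1]
    · rcases le_total x (-1 / 2) with h2 | h2
      · simpa using om_a x hx.1 h2
      · simpa using om_b x h2 h
    · rcases le_total x (1 / 2) with h2 | h2
      · exact om_c x h h2
      · exact om_d x h2 hx.2
  · rcases cf_cases x with ⟨h, e1, e2⟩ | ⟨h, e1, e2⟩ <;> rw [e1, e2]
    · rcases le_total x (-1 / 2) with h2 | h2
      · linarith [M1_a x hx.1 h2]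
      · linarith [M1_b x h2 h]
    · rcases le_total x (1 / 2) with h2 | h2
      · linarith [M1_c x h h2]
      · linarith [M1_d x h2 hx.2]
  · rcases cf_cases x with ⟨h, e1, e2⟩ | ⟨h, e1, e2⟩ <;> rw [e1, e2]
    · rcases le_total x (-1 / 2) with h2 | h2
      · linarith [M2_a x hx.1 h2]
      · linarith [M2_b x h2 h]
    · rcases le_total x (1 / 2) with h2 | h2
      · linarith [M2_c x h h2]
      · linarith [M2_d x h2 hx.2]

lemma gam_inv {u : ℝ} (hu : 0 < u) : gam u = gam (1 / u) / u ^ 2 := by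
  have h1 : 1 + u ≠ 0 := by linarith
  have h2 : 1 + 1 / u = (1 + u) / u := by field_simp; ring
  unfold gam
  rw [h2]
  field_simp
  ring

lemma gam_le {a : ℝ} (ha : 0 ≤ a) : gam a ≤ 4 / 3 := by
  unfold gam
  rw [div_le_iff₀ (by positivity)]
  have : 0 ≤ 144 * (1 - a) ^ 2 / (1 + a) ^ 2 := by positivity
  nlinarith

theorem arcs : ∃ (U L : Arc) (g : ℝ → ℝ),
    (∀ x ∈ II, U.p x - L.p x = U.p (-x) - L.p (-x)) ∧ L.p 0 < U.p 0 ∧
    (∀ x ∈ II, ∃ y ∈ II, 1 / L.p y - y / 3 = 1 / U.p x - x / 3 ∧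
      U.p x - L.p y = g (1 / U.p x - x / 3)) ∧ ∀ u, 0 < u → g u = g (1 / u) / u ^ 2 := by
  obtain ⟨C, ⟨⟨B0, B1⟩, B2⟩, hC⟩ := ((((bdd (g := cf) fun x _ =>
    (dcf x).continuousAt.continuousWithinAt).and (bdd (g := c1f) fun x _ =>
    (dc1f x).continuousAt.continuousWithinAt)).and (bdd (g := c2f)
    (by have := cont_Df; unfold c2f; fun_prop))).and (eventually_ge_atTop 0)).exists
  obtain ⟨m, hm, q1⟩ := pick (small_ev (2 + 8 * C) (show (0 : ℝ) < 1 / 1000 by norm_num))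
  obtain ⟨ε, hε, hεm, P, s, hd, hb, hl, tl, tr, hst⟩ := curve hm
  have hmC : 0 ≤ m * C := by positivity
  have hm1 : m ≤ 1 / 2000 := by linarith
  set F : ℝ → ℝ := fun x => cf x * P x with hF
  set G : ℝ → ℝ := fun x => c1f x * P x + cf x * s x with hG
  have dF : ∀ x ∈ II, HasDerivWithinAt F (G x) II x := fun x hx =>
    (dcf x).hasDerivWithinAt.fun_mul (hd x hx)
  have bF : ∀ x ∈ II, |F x| ≤ C * m := fun x hx => abs_mul_le' (B0 x hx) (hb x hx).1
  have bG : ∀ x ∈ II, |G x| ≤ C * m + C * m := fun x hx => (abs_add_le _ _).trans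
    (add_le_add (abs_mul_le' (B1 x hx) (hb x hx).1) (abs_mul_le' (B0 x hx) (hb x hx).2))
  have lG : ∀ x ∈ II, ∀ z ∈ II, |G z - G x| ≤ 4 * (C * m) * |z - x| := by
    intro x hx z hz
    have h1 := mvt_frozen (f := fun x => c1f x * P x) (fun y hy =>
      (dc1f y).hasDerivWithinAt.fun_mul (hd y hy)) hx hz (a := 0) (C := C * m + C * m)
      fun y hy _ => by
        rw [sub_zero]
        exact (abs_add_le _ _).trans (add_le_add (abs_mul_le' (B2 y hy) (hb y hy).1)
          (abs_mul_le' (B1 y hy) (hb y hy).2))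
    have h2 := mvt_frozen (fun y _ => (dcf y).hasDerivWithinAt) hx hz (a := 0) (C := C)
      fun y hy _ => by rw [sub_zero]; exact B1 y hy
    rw [zero_mul, sub_zero] at h1 h2
    have h3 := abs_mul_le' (B0 z hz) (hl x hx z hz)
    have h4 := abs_mul_le' h2 (hb x hx).2
    have e : G z - G x = (c1f z * P z - c1f x * P x) + (cf z * (s z - s x)
      + (cf z - cf x) * s x) := by simp only [hG]; ring
    rw [e]
    refine (abs_add_le _ _).trans ((add_le_add h1 ((abs_add_le _ _).trans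
      (add_le_add h3 h4))).trans (le_of_eq (by ring)))
  have hεa : |ε| ≤ m := by rwa [abs_of_pos hε]
  let U : Arc := ⟨P, s, hd, fun x hx => by linarith [(hb x hx).1],
    fun x hx => by linarith [(hb x hx).2], fun x hx z hz => (hl x hx z hz).trans
      (mul_le_mul_of_nonneg_right (by linarith) (abs_nonneg _)), tl, tr⟩
  let L : Arc := ⟨fun x => P x - ε * ((1 - x ^ 2) / 6 - F x - F (-x)),
    fun x => s x - ε * (-(x / 3) - G x + G (-x)),
    fun x hx => by
      have := (hd x hx).fun_sub (((((((hasDerivAt_pow 2 x).const_sub 1).div_const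
        6).hasDerivWithinAt).fun_sub (dF x hx)).fun_sub
        (deriv_neg_II (dF _ (neg_mem_II hx)))).const_mul ε)
      exact this.congr_deriv (by norm_num; left; ring),
    fun x hx => by
      have h1 := abs_le.1 (bF x hx)
      have h2 := abs_le.1 (bF _ (neg_mem_II hx))
      have h3 : |(1 - x ^ 2) / 6 - F x - F (-x)| ≤ 1 := by
        have : x ^ 2 ≤ 1 := by nlinarith [hx.1, hx.2]
        rw [abs_le]; constructor <;> nlinarith [sq_nonneg x]
      exact (abs_sub _ _).trans ((add_le_add (hb x hx).1 (abs_mul_le' hεa h3)).trans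
        (by linarith)),
    fun x hx => by
      have h1 := abs_le.1 (bG x hx)
      have h2 := abs_le.1 (bG _ (neg_mem_II hx))
      have h3 : |-(x / 3) - G x + G (-x)| ≤ 1 := by
        rw [abs_le]; constructor <;> linarith [hx.1, hx.2]
      exact (abs_sub _ _).trans ((add_le_add (hb x hx).2 (abs_mul_le' hεa h3)).trans
        (by linarith)),
    fun x hx z hz => by
      have h1 := lG x hx z hz
      have h2 := lG _ (neg_mem_II hx) _ (neg_mem_II hz)
      rw [neg_sub_neg, abs_sub_comm x z] at h2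
      have h4 := abs_nonneg (z - x)
      have h5 := le_abs_self (z - x)
      have h6 := neg_abs_le (z - x)
      have h7 : C * m * |z - x| ≤ 1 / 1000 * |z - x| :=
        mul_le_mul_of_nonneg_right (by linarith) h4
      have h3 : |(-(z / 3) - G z + G (-z)) - (-(x / 3) - G x + G (-x))| ≤ |z - x| := by
        rw [abs_le] at h1 h2 ⊢
        constructor <;> linarith
      have e : s z - ε * (-(z / 3) - G z + G (-z)) - (s x - ε * (-(x / 3) - G x + G (-x))) =
        (s z - s x) - ε * ((-(z / 3) - G z + G (-z)) - (-(x / 3) - G x + G (-x))) := by ring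
      rw [e]
      refine (abs_sub _ _).trans ((add_le_add (hl x hx z hz) (abs_mul_le' hεa h3)).trans ?_)
      nlinarith,
    by simp [hF, tl, tr], by simp [hF, tl, tr]⟩
  have hUp : ∀ x, U.p x = ps x + P x := fun x => rfl
  have hLp : ∀ x, L.p x = ps x + (P x - ε * ((1 - x ^ 2) / 6 - cf x * P x - cf (-x) * P (-x))) :=
    fun x => rfl
  refine ⟨U, L, fun a => ε * gam a, fun x _ => ?_, ?_, fun x hx => ?_, fun u hu => ?_⟩
  · simp only [hUp, hLp, neg_neg]; ring
  · simp only [hUp, hLp]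
    have : cf 0 = 0 := by simp [cf]
    simp only [neg_zero, this]
    linarith
  · obtain ⟨y, hy, e1, e2⟩ := hst x hx
    obtain ⟨b1, b2, -⟩ := U.p_bounds hx
    have hpp : pp ((ε, P x), x) = U.p x := rfl
    have haa : aa ((ε, P x), x) = 1 / U.p x - x / 3 := rfl
    have ha : 0 ≤ 1 / U.p x - x / 3 := by
      have : 1 / 2 ≤ 1 / U.p x := one_div_le_one_div_of_le (by linarith) (by linarith)
      linarith [hx.2]
    have hg := mul_le_mul_of_nonneg_left (gam_le ha) hε.le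
    have hps : ps y - ps x = -(y - x) * ((72 + 12 * (x + y) + x * y) / (432 * Df x * Df y)) := by
      have := (Df_pos x).ne'
      have := (Df_pos y).ne'
      unfold ps
      field_simp
      unfold Df
      ring
    have e3 : L.p y = U.p x - ε * gam (1 / U.p x - x / 3) := by
      simp only [kf, haa, ← e1] at e2
      have e4 : y - x = ε * hf ((ε, P x), x) := by linarith
      rw [e4] at hps
      rw [hLp]
      rw [hUp] at e2 ⊢
      linear_combination e2 + hps
    refine ⟨y, hy, ?_, by rw [e3]; ring⟩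
    rw [e3, e1]
    simp only [hf, hpp, haa]
    have n1 : U.p x ≠ 0 := by linarith
    have n2 : U.p x - ε * gam (1 / U.p x - x / 3) ≠ 0 := by linarith
    generalize gam (1 / U.p x - x / 3) = γ at *
    field_simp
    ring
  · simp only
    rw [gam_inv hu]
    ring

theorem barker_larman :
    ∃ K₁ K₂ : Set (EuclideanSpace ℝ (Fin 2)),
      IsCompact K₁ ∧ Convex ℝ K₁ ∧ IsCompact K₂ ∧ Convex ℝ K₂ ∧
      Metric.closedBall (0 : EuclideanSpace ℝ (Fin 2)) 1 ⊆ interior K₁ ∧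
      Metric.closedBall (0 : EuclideanSpace ℝ (Fin 2)) 1 ⊆ interior K₂ ∧
      (∀ e : EuclideanSpace ℝ (Fin 2), ‖e‖ = 1 →
        Metric.diam (K₁ ∩ {x | inner ℝ x e = (1 : ℝ)}) =
          Metric.diam (K₂ ∩ {x | inner ℝ x e = (1 : ℝ)})) ∧
      K₁ ≠ K₂ := by
  obtain ⟨U, L, g, h1, h2, h3, h4⟩ := arcs
  obtain ⟨k1, k2⟩ := geom U L g h1 h2 h3 h4
  exact ⟨body U L, body L U, body_compact U L, body_convex U L, body_compact L U,
    body_convex L U, body_ball U L, body_ball L U, k1, k2⟩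

end Pool.Agent.Lib.MP_9cddd8_gt
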