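import Mathlib
import Pool.Agent.Lib.MP_9cddd8_gt.Inst

/-!
Two triangles glued on the vertical sides of both bodies: the chords still agree and the new
bodies are not congruent.
-/

namespace Pool.Agent.Lib.MP_9cddd8_gt

open Set

lemma Arc.n1_le (A : Arc) {x : ℝ} (hx : x ∈ II) : A.n1 x ≤ A.n2 x := by
  obtain ⟨h1, h2, h3, h4, -, -⟩ := A.p_bounds hx
  have a1 := hx.1
  have a2 := hx.2
  have a3 : x ^ 2 ≤ 1 := by nlinarith
  have b1 : 0 ≤ A.p1 x * (2 / 3 * x - 1 + x ^ 2 / 9) :=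
    mul_nonneg_of_nonpos_of_nonpos h4 (by linarith)
  have b2 : 83 / 100 * (4 / 9) ≤ A.p x * (2 / 3 + 2 / 9 * x) :=
    mul_le_mul h1 (by linarith) (by norm_num) (by linarith)
  unfold Arc.n1 Arc.n2
  nlinarith

lemma Arc.In.slope {A : Arc} {x y κ : ℝ} (hκ : 1 ≤ κ) (h : A.In x y) (hx : x ≤ 25 / 14) :
    y - 5 / 7 ≤ κ * (25 / 14 - x) := by
  have hl : (-1 : ℝ) ∈ II := left_mem_Icc.2 II_le
  have h1 := h _ hl
  obtain ⟨a1, a2, -⟩ := A.n_bounds hl
  have a3 := A.n1_le hl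
  rw [Arc.cc, A.zx_l, A.zy_l] at h1
  refine le_of_mul_le_mul_left ?_ a2
  have a4 : A.n1 (-1) ≤ A.n2 (-1) * κ := by nlinarith
  have a5 := mul_le_mul_of_nonneg_right a4 (sub_nonneg.2 hx)
  linarith

lemma Arc.in_cap (A : Arc) {x y κ : ℝ} (hκ : 1 ≤ κ) (hx : 25 / 14 ≤ x)
    (h : y - 5 / 7 ≤ κ * (25 / 14 - x)) : A.In x y := by
  intro ξ hξ
  obtain ⟨a1, a2, -⟩ := A.n_bounds hξ
  have a3 := A.n1_le hξ
  have h1 := A.support hξ (left_mem_Icc.2 II_le)
  rw [A.zx_l, A.zy_l] at h1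
  have a4 : A.n1 ξ ≤ A.n2 ξ * κ := by nlinarith
  have a5 := mul_le_mul_of_nonneg_right a4 (sub_nonneg.2 hx)
  have a6 := mul_le_mul_of_nonneg_left h a2.le
  linarith

/-- the four slanted sides -/
def Lin (x y : ℝ) : Prop :=
  x + y ≤ 5 / 2 ∧ 11 * x - 9 * y ≤ 365 / 14 ∧ -9 * x + 8 * y ≤ 305 / 14 ∧ -11 * x - 8 * y ≤ 355 / 14

/-- the body with the two triangles -/
def Kq (A B : Arc) (x y : ℝ) : Prop :=
  A.In x y ∧ A.In (-x) (-y) ∧ B.In (-x) y ∧ B.In x (-y) ∧ Lin x y ∧ y ≤ 25 / 23 ∧ -y ≤ 25 / 23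

/-- the two triangles without their bases -/
def Cap (x y : ℝ) : Prop := (25 / 14 < x ∨ 25 / 14 < -x) ∧ Lin x y

lemma Kq_iff (A B : Arc) (x y : ℝ) : Kq A B x y ↔ Cap x y ∨ Kp A B x y := by
  constructor
  · rintro ⟨h1, h2, h3, h4, h5, h6, h7⟩
    by_cases h : 25 / 14 < x ∨ 25 / 14 < -x
    · exact Or.inl ⟨h, h5⟩
    · push Not at h
      exact Or.inr ⟨h1, h2, h3, h4, h.1, h.2, h6, h7⟩
  · rintro (⟨h | h, l1, l2, l3, l4⟩ | ⟨h1, h2, h3, h4, h5, h6, h7, h8⟩)
    · exact ⟨A.in_cap le_rfl h.le (by linarith), A.in_right (by linarith) (by linarith),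
        B.in_right (by linarith) (by linarith),
        B.in_cap (κ := 11 / 9) (by norm_num) h.le (by linarith), ⟨l1, l2, l3, l4⟩,
        by linarith, by linarith⟩
    · exact ⟨A.in_right (by linarith) (by linarith),
        A.in_cap (κ := 11 / 8) (by norm_num) h.le (by linarith),
        B.in_cap (κ := 9 / 8) (by norm_num) h.le (by linarith),
        B.in_right (by linarith) (by linarith), ⟨l1, l2, l3, l4⟩, by linarith, by linarith⟩
    · have a1 := h1.slope le_rfl h5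
      have a2 := h4.slope (κ := 11 / 9) (by norm_num) h5
      have a3 := h3.slope (κ := 9 / 8) (by norm_num) h6
      have a4 := h2.slope (κ := 11 / 8) (by norm_num) h6
      exact ⟨h1, h2, h3, h4, ⟨by linarith, by linarith, by linarith, by linarith⟩, h7, h8⟩

/-- the two triangles in the plane -/
def caps : Set (EuclideanSpace ℝ (Fin 2)) := {z | Cap (z 0) (z 1)}

/-- the enlarged body -/
def big (A B : Arc) : Set (EuclideanSpace ℝ (Fin 2)) := {z | Kq A B (z 0) (z 1)}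

lemma big_eq (A B : Arc) : big A B = caps ∪ body A B := by
  ext z
  exact Kq_iff A B _ _

lemma caps_disj (A B : Arc) : Disjoint caps (body A B) := by
  refine Set.disjoint_left.2 fun z h1 h2 => ?_
  obtain ⟨-, -, -, -, a1, a2, -⟩ := h2
  rcases h1.1 with h | h <;> linarith

lemma big_convex (A B : Arc) : Convex ℝ (big A B) := by
  intro z hz w hw a b ha hb hab
  obtain ⟨h1, h2, h3, h4, ⟨l1, l2, l3, l4⟩, h7, h8⟩ := hz
  obtain ⟨k1, k2, k3, k4, ⟨m1, m2, m3, m4⟩, k7, k8⟩ := hw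
  change Kq A B (a * z 0 + b * w 0) (a * z 1 + b * w 1)
  have e1 : -(a * z 0 + b * w 0) = a * -z 0 + b * -w 0 := by ring
  have e2 : -(a * z 1 + b * w 1) = a * -z 1 + b * -w 1 := by ring
  have key : ∀ s t c : ℝ, s ≤ c → t ≤ c → a * s + b * t ≤ c := fun s t c hs ht => by
    have p1 := mul_le_mul_of_nonneg_left hs ha
    have p2 := mul_le_mul_of_nonneg_left ht hb
    have p3 : a * c + b * c = c := by rw [← add_mul, hab, one_mul]
    linarith
  refine ⟨h1.comb k1 ha hb hab, ?_, ?_, ?_, ⟨?_, ?_, ?_, ?_⟩, key _ _ _ h7 k7, ?_⟩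
  · rw [e1, e2]; exact h2.comb k2 ha hb hab
  · rw [e1]; exact h3.comb k3 ha hb hab
  · rw [e2]; exact h4.comb k4 ha hb hab
  · linarith [key _ _ _ l1 m1]
  · linarith [key _ _ _ l2 m2]
  · linarith [key _ _ _ l3 m3]
  · linarith [key _ _ _ l4 m4]
  · linarith [key _ _ _ h8 k8]

/-- the enlarged body lies in the disc with the two apexes as a diameter -/
lemma Kq.disc {A B : Arc} {x y : ℝ} (h : Kq A B x y) :
    (x - 1 / 28) ^ 2 + (y - 1 / 14) ^ 2 < (67 / 28) ^ 2 ∨ (x = 17 / 7 ∧ y = 1 / 14) ∨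
      (x = -(33 / 14) ∧ y = 1 / 14) := by
  obtain ⟨-, -, -, -, ⟨l1, l2, l3, l4⟩, h7, h8⟩ := h
  rcases le_total (25 / 14) x with h | h
  · rcases eq_or_lt_of_le (show x ≤ 17 / 7 by linarith) with e | e
    · exact Or.inr (Or.inl ⟨e, by linarith⟩)
    · left
      have a1 : (y - 1 / 14) ^ 2 ≤ (11 / 9 * (17 / 7 - x)) ^ 2 :=
        sq_le_sq' (by linarith) (by linarith)
      nlinarith [mul_pos (sub_pos.2 e) (show 0 < x - 1 by linarith)]
  rcases le_total (25 / 14) (-x) with h' | h'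
  · rcases eq_or_lt_of_le (show -(33 / 14) ≤ x by linarith) with e | e
    · exact Or.inr (Or.inr ⟨e.symm, by linarith⟩)
    · left
      have a1 : (y - 1 / 14) ^ 2 ≤ (11 / 8 * (x + 33 / 14)) ^ 2 :=
        sq_le_sq' (by linarith) (by linarith)
      nlinarith [mul_pos (sub_pos.2 e) (show 0 < -x - 1 by linarith)]
  · left
    have a1 : (y - 1 / 14) ^ 2 ≤ (6 / 5) ^ 2 := sq_le_sq' (by linarith) (by linarith)
    have a2 : (x - 1 / 28) ^ 2 ≤ 2 ^ 2 := sq_le_sq' (by linarith) (by linarith)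
    linarith

lemma Kq.disc_le {A B : Arc} {x y : ℝ} (h : Kq A B x y) :
    (x - 1 / 28) ^ 2 + (y - 1 / 14) ^ 2 ≤ (67 / 28) ^ 2 := by
  rcases h.disc with h | ⟨rfl, rfl⟩ | ⟨rfl, rfl⟩
  · exact h.le
  · norm_num
  · norm_num

lemma big_compact (A B : Arc) : IsCompact (big A B) := by
  have hin : ∀ (C : Arc) (f g : EuclideanSpace ℝ (Fin 2) → ℝ), Continuous f → Continuous g →
      IsClosed {z | C.In (f z) (g z)} := by
    intro C f g hf hg
    have : {z | C.In (f z) (g z)} = ⋂ ξ ∈ II, {z | C.n1 ξ * f z + C.n2 ξ * g z ≤ C.cc ξ} := by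
      ext z; simp only [Arc.In, mem_iInter, mem_ofPred_eq]
    rw [this]
    exact isClosed_biInter fun ξ _ => isClosed_le (by fun_prop) (by fun_prop)
  refine Metric.isCompact_of_isClosed_isBounded ?_ ?_
  · exact (hin A _ _ (by fun_prop) (by fun_prop)).and ((hin A _ _ (by fun_prop) (by fun_prop)).and
      ((hin B _ _ (by fun_prop) (by fun_prop)).and ((hin B _ _ (by fun_prop) (by fun_prop)).and
      (((isClosed_le (by fun_prop) (by fun_prop)).and
        ((isClosed_le (by fun_prop) (by fun_prop)).and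
        ((isClosed_le (by fun_prop) (by fun_prop)).and
        (isClosed_le (by fun_prop) (by fun_prop))))).and
      ((isClosed_le (by fun_prop) (by fun_prop)).and
        (isClosed_le (by fun_prop) (by fun_prop)))))))
  · refine (Metric.isBounded_closedBall (x := 0) (r := 4)).subset fun z hz => ?_
    have h := Kq.disc_le hz
    rw [mem_closedBall_zero_iff]
    refine le_of_sq_le_sq ?_ (by norm_num)
    rw [norm_sq2]
    nlinarith [sq_nonneg (z 0 - 1 / 14), sq_nonneg (z 1 - 1 / 7)]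

lemma big_ball (A B : Arc) :
    Metric.closedBall (0 : EuclideanSpace ℝ (Fin 2)) 1 ⊆ interior (big A B) :=
  (body_ball A B).trans (interior_mono (by rw [big_eq]; exact subset_union_right))

/-- the two apexes are the only pair at distance `67 / 14` -/
lemma far {A B : Arc} {x y x' y' : ℝ} (h : Kq A B x y) (h' : Kq A B x' y')
    (e : (x - x') ^ 2 + (y - y') ^ 2 = (67 / 14) ^ 2) :
    y = 1 / 14 ∧ y' = 1 / 14 ∧
      ((x = 17 / 7 ∧ x' = -(33 / 14)) ∨ (x = -(33 / 14) ∧ x' = 17 / 7)) := by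
  have a1 := h.disc_le
  have a2 := h'.disc_le
  have b1 := sq_nonneg (x + x' - 1 / 14)
  have b2 := sq_nonneg (y + y' - 1 / 7)
  have c1 := h.disc.resolve_left (by nlinarith)
  have c2 := h'.disc.resolve_left (by nlinarith)
  rcases c1 with ⟨rfl, rfl⟩ | ⟨rfl, rfl⟩ <;> rcases c2 with ⟨rfl, rfl⟩ | ⟨rfl, rfl⟩
  · norm_num at e
  · simp
  · simp
  · norm_num at e

theorem big_not_congr {U L : Arc} (hne : body U L ≠ body L U)
    {f : EuclideanSpace ℝ (Fin 2) → EuclideanSpace ℝ (Fin 2)} (hf : Isometry f) :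
    f '' big U L ≠ big L U := by
  intro h
  have hd : ∀ z w, (f z 0 - f w 0) ^ 2 + (f z 1 - f w 1) ^ 2 =
      (z 0 - w 0) ^ 2 + (z 1 - w 1) ^ 2 := fun z w => by
    have h1 := hf.dist_eq z w
    rw [dist_eq_norm, dist_eq_norm] at h1
    have h2 := norm_sq2 (f z - f w)
    rw [h1, norm_sq2] at h2
    exact h2.symm
  have hm : ∀ x y, Kq U L x y → Kq L U (f !₂[x, y] 0) (f !₂[x, y] 1) := fun x y k => by
    have : f !₂[x, y] ∈ big L U := h ▸ mem_image_of_mem f k
    exact this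
  have kP := hm (17 / 7) (1 / 14) ((Kq_iff _ _ _ _).2 (Or.inl (by norm_num [Cap, Lin])))
  have kQ := hm (-(33 / 14)) (1 / 14) ((Kq_iff _ _ _ _).2 (Or.inl (by norm_num [Cap, Lin])))
  have kC := hm (-(10 / 23)) (-(25 / 23)) ((Kq_iff _ _ _ _).2 (Or.inr
    (Kp_top L U (by norm_num) (by norm_num)).flipy))
  have dP := fun z => hd z !₂[17 / 7, 1 / 14]
  have dQ := fun z => hd z !₂[-(33 / 14), 1 / 14]
  have dC := fun z => hd z !₂[-(10 / 23), -(25 / 23)]
  obtain ⟨p1, q1, hc⟩ := far kP kQ (by rw [hd]; norm_num)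
  have cP := dP !₂[-(10 / 23), -(25 / 23)]
  have cQ := dQ !₂[-(10 / 23), -(25 / 23)]
  simp only [Matrix.cons_val_zero, Matrix.cons_val_one] at dP dQ dC cP cQ
  rw [p1] at dP cP
  rw [q1] at dQ cQ
  have hy : ∀ s : ℝ, s ≤ 25 / 23 → (s - 1 / 14) ^ 2 = (-(25 / 23) - 1 / 14) ^ 2 →
      s = -(25 / 23) := fun s h1 h2 => by
    rcases sq_eq_sq_iff_eq_or_eq_neg.1 h2 with h3 | h3 <;> linarith
  have hle := kC.2.2.2.2.2.1
  rcases hc with ⟨p0, q0⟩ | ⟨p0, q0⟩
  · rw [p0] at dP cP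
    rw [q0] at dQ cQ
    have c0 : f !₂[-(10 / 23), -(25 / 23)] 0 = -(10 / 23) := by linarith
    rw [c0] at cP dC
    have c1 := hy _ hle (by linarith)
    rw [c1] at dC
    have hid : ∀ z, f z = z := fun z => by
      have e1 := dP z
      have e2 := dQ z
      have e3 := dC z
      have e0 : f z 0 = z 0 := by linarith
      rw [e0] at e1 e3
      ext i
      fin_cases i
      · exact e0
      · change f z 1 = z 1
        linarith
    rw [show f = id from funext hid, image_id, big_eq, big_eq] at h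
    apply hne
    rw [← (caps_disj U L).symm.sdiff_eq_left, ← union_sdiff_left, h, union_sdiff_left,
      (caps_disj L U).symm.sdiff_eq_left]
  · rw [p0] at cP
    rw [q0] at cQ
    have c0 : f !₂[-(10 / 23), -(25 / 23)] 0 = 1 / 14 + 10 / 23 := by linarith
    rw [c0] at cP
    have c1 := hy _ hle (by linarith)
    have hr : (1 : ℝ) ∈ II := right_mem_Icc.2 II_le
    have k := kC.2.2.2.1 1 hr
    rw [c0, c1, Arc.cc, U.zx_r, U.zy_r] at k
    linarith [(U.n_bounds hr).1]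

end Pool.Agent.Lib.MP_9cddd8_gt
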